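import Pool.Agent.Y798.FC.Law

/-! The law of the Frobenius classes in the sense of Dirichlet density, second part. -/

set_option autoImplicit false

namespace Pool.Agent.Y798.FC

open MeasureTheory UnitAddTorus Filter Topology NumberField IsDedekindDomain
  Pool.Agent.W540.BE Pool.Agent.TH553.RS Pool.Agent.TH553.ST
open Pool.Agent.Y139.ID (Good good_ev avg avg_eq avg_le avg_sub mean_avg integrable_cont
  integrable_cont_real intL IsHaarOn annih measure_ext_fourier)

section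
variable {K : Type} [Field K] [NumberField K] {r : ℕ}

/-- the Fourier coefficients of the limits -/
theorem ulaw_coef {W : Subgroup (Auts (Fin r))} [Fintype W]
    {θ : HeightOneSpectrum (𝓞 K) → UnitAddTorus (Fin r)} {c : (Fin r → ℤ) → ℤ}
    (hc : ∀ μ, Tendsto (cE fun v => orb W μ (θ v)) (𝓝[>] 0) (𝓝 (c μ : ℂ)))
    {U : Ultrafilter ℝ} (hU : (U : Filter ℝ) ≤ 𝓝[>] 0)
    {ν : ProbabilityMeasure (UnitAddTorus (Fin r))}
    (hν : ∀ f : UnitAddTorus (Fin r) → ℂ, Continuous f →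
      Tendsto (cE fun v => f (θ v)) (U : Filter ℝ)
        (𝓝 (∫ x, f x ∂(ν : Measure (UnitAddTorus (Fin r)))))) (μ : Fin r → ℤ) :
    ∫ x, mFourier μ x ∂(smeas W (ν : Measure (UnitAddTorus (Fin r)))) = c μ := by
  rw [smeas_sym W _ (by fun_prop)]
  have h1 : (fun x => sym W (mFourier μ) x) = orb W μ := funext fun x => (orb_eq' μ x).symm
  rw [h1]
  exact tendsto_nhds_unique (hν _ (continuous_orb inferInstance μ)) ((hc μ).mono_left hU)

theorem sym_norm_le {W : Subgroup (Auts (Fin r))} [Fintype W] (f : C(UnitAddTorus (Fin r), ℂ))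
    (x : UnitAddTorus (Fin r)) : ‖sym W f x‖ ≤ Nat.card W * ‖f‖ := by
  unfold sym
  refine (norm_sum_le _ _).trans ?_
  refine (Finset.sum_le_card_nsmul _ _ ‖f‖ fun w _ => f.norm_coe_le_norm _).trans ?_
  rw [Finset.card_univ, nsmul_eq_mul, Nat.card_eq_fintype_card]

/-- the functional with a height -/
theorem exists_functional {W : Subgroup (Auts (Fin r))} [Fintype W]
    (θ : HeightOneSpectrum (𝓞 K) → UnitAddTorus (Fin r))
    {U : Ultrafilter ℝ} (hU : (U : Filter ℝ) ≤ 𝓝[>] 0)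
    {ν : ProbabilityMeasure (UnitAddTorus (Fin r))}
    (hν : ∀ f : UnitAddTorus (Fin r) → ℂ, Continuous f →
      Tendsto (cE fun v => f (θ v)) (U : Filter ℝ)
        (𝓝 (∫ x, f x ∂(ν : Measure (UnitAddTorus (Fin r))))))
    (z : HeightOneSpectrum (𝓞 K) → ℂ) (hz : ∀ v, ‖z v‖ = 1) (κ : Fin r → ℤ) :
    ∃ N : C(UnitAddTorus (Fin r), ℂ) →ₗ[ℂ] ℂ,
      (∀ f, Tendsto (cE fun v => sym W (f * mFourier κ : C(UnitAddTorus (Fin r), ℂ)) (θ v) * z v)
        (U : Filter ℝ) (𝓝 (N f))) ∧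
      ∀ f : C(UnitAddTorus (Fin r), ℂ),
        ‖N f‖ ≤ ∫ x, ‖f x‖ ∂(smeas W (ν : Measure (UnitAddTorus (Fin r)))) := by
  set T : C(UnitAddTorus (Fin r), ℂ) → HeightOneSpectrum (𝓞 K) → ℂ := fun f v =>
    sym W (f * mFourier κ : C(UnitAddTorus (Fin r), ℂ)) (θ v) * z v with hT
  have hTb : ∀ f v, ‖T f v‖ ≤ Nat.card W * ‖f‖ := by
    intro f v
    rw [hT]
    simp only
    rw [norm_mul, hz, mul_one]
    refine (sym_norm_le _ _).trans ?_
    refine mul_le_mul_of_nonneg_left ?_ (Nat.cast_nonneg _)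
    refine (norm_mul_le _ _).trans ?_
    rw [mFourier_norm, mul_one]
  have hex : ∀ f, ∃ y, Tendsto (cE (T f)) (U : Filter ℝ) (𝓝 y) := fun f =>
    ulim U (R := Nat.card W * ‖f‖) (by
      filter_upwards [hU (good_ev (K := K))] with ε hε
      exact norm_cE_le hε (hTb f))
  choose ℓ hℓ using hex
  have hadd : ∀ f g v, T (f + g) v = T f v + T g v := by
    intro f g v
    rw [hT]
    simp only [sym, ContinuousMap.mul_apply, ContinuousMap.add_apply]
    rw [← add_mul, ← Finset.sum_add_distrib]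
    congr 1
    exact Finset.sum_congr rfl fun w _ => by ring
  have hsmul : ∀ (a : ℂ) f v, T (a • f) v = a * T f v := by
    intro a f v
    rw [hT]
    simp only [sym, ContinuousMap.mul_apply, ContinuousMap.smul_apply, smul_eq_mul]
    rw [← mul_assoc, Finset.mul_sum]
    congr 1
    exact Finset.sum_congr rfl fun w _ => by ring
  refine ⟨{ toFun := ℓ
            map_add' := fun f g => ?_
            map_smul' := fun a f => ?_ }, hℓ, fun f => ?_⟩
  · refine tendsto_nhds_unique (hℓ (f + g)) (((hℓ f).add (hℓ g)).congr' ?_)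
    filter_upwards [hU (good_ev (K := K))] with ε hε
    rw [← cE_add hε (hTb f) (hTb g)]
    congr 1
    funext v
    exact (hadd f g v).symm
  · refine tendsto_nhds_unique (hℓ (a • f)) (((hℓ f).const_mul a).congr fun ε => ?_)
    rw [← cE_const_mul]
    congr 1
    funext v
    exact (hsmul a f v).symm
  · change ‖ℓ f‖ ≤ _
    have h1 : Tendsto (cE fun v => sym W (fun x => (‖f x‖ : ℂ)) (θ v)) (U : Filter ℝ)
        (𝓝 (∫ x, sym W (fun x => (‖f x‖ : ℂ)) x ∂(ν : Measure (UnitAddTorus (Fin r))))) :=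
      hν _ (continuous_sym W (by fun_prop))
    rw [← smeas_sym W _ (by fun_prop)] at h1
    have hfin := smeas_fin W (ν : Measure (UnitAddTorus (Fin r)))
    rw [integral_complex_ofReal] at h1
    have h2 := (Complex.continuous_re.tendsto _).comp h1
    rw [Complex.ofReal_re] at h2
    refine le_of_tendsto_of_tendsto (hℓ f).norm h2 ?_
    filter_upwards [hU (good_ev (K := K))] with ε hε
    simp only [Function.comp]
    refine (norm_cE_le' hε (hTb f)).trans ?_
    have hreal : ∀ v, sym W (fun x => (‖f x‖ : ℂ)) (θ v) =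
        ((∑ w : W, ‖f (act (w : Auts (Fin r)) (θ v))‖ : ℝ) : ℂ) := by
      intro v
      unfold sym
      push_cast
      rfl
    have hb1 : ∀ v, ‖((‖T f v‖ : ℝ) : ℂ)‖ ≤ Nat.card W * ‖f‖ := fun v => by
      rw [Complex.norm_real, norm_norm]
      exact hTb f v
    have hle : ∀ v, ∑ w : W, ‖f (act (w : Auts (Fin r)) (θ v))‖ ≤ Nat.card W * ‖f‖ := fun v => by
      refine (Finset.sum_le_card_nsmul _ _ ‖f‖ fun w _ => f.norm_coe_le_norm _).trans ?_
      rw [Finset.card_univ, nsmul_eq_mul, Nat.card_eq_fintype_card]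
    have hnn : ∀ v, 0 ≤ ∑ w : W, ‖f (act (w : Auts (Fin r)) (θ v))‖ := fun v =>
      Finset.sum_nonneg fun _ _ => norm_nonneg _
    have hb2 : ∀ v, ‖sym W (fun x => (‖f x‖ : ℂ)) (θ v)‖ ≤ Nat.card W * ‖f‖ := fun v => by
      rw [hreal, Complex.norm_real, Real.norm_eq_abs, abs_of_nonneg (hnn v)]
      exact hle v
    rw [cE_re hε hb1, cE_re hε hb2, avg_eq, avg_eq]
    refine Summable.tsum_le_tsum (fun v => ?_)
      (summ_norm hε (B := Nat.card W * ‖f‖) fun v => by
        rw [Complex.ofReal_re, abs_norm]; exact hTb f v)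
      (summ_norm hε (B := Nat.card W * ‖f‖) fun v => by
        rw [hreal, Complex.ofReal_re, abs_of_nonneg (hnn v)]; exact hle v)
    refine mul_le_mul_of_nonneg_left ?_ (Pool.Agent.Y139.ID.wt_nonneg hε v)
    rw [hreal, Complex.ofReal_re, Complex.ofReal_re, hT]
    simp only
    rw [norm_mul, hz, mul_one]
    unfold sym
    refine (norm_sum_le _ _).trans (le_of_eq (Finset.sum_congr rfl fun w _ => ?_))
    rw [ContinuousMap.mul_apply, norm_mul, norm_mF, mul_one]

end

/-- the coset law -/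
def IsCosetLaw {r : ℕ} (Φ : Finset (Fin r → ℤ)) (Γ : AddSubgroup (Fin r → ℤ))
    (a : UnitAddTorus (Fin r)) (ρ : Measure (UnitAddTorus (Fin r))) : Prop :=
  (∀ γ, γ ∈ Γ ↔ (∫ x, mFourier γ x ∂ρ = ρ.real Set.univ ∨
    ∫ x, mFourier γ x ∂ρ = -(ρ.real Set.univ : ℂ))) ∧
  (∀ γ ∈ Γ, mFourier γ a = 1 ∨ mFourier γ a = -1) ∧
  ∀ σ : Measure (UnitAddTorus (Fin r)), IsHaarOn (annih Γ) σ →
    ∀ f : UnitAddTorus (Fin r) → ℂ, Continuous f →
      ∫ x, f x ∂ρ = ∫ x, f (a + x) * (dens Φ (a + x) : ℂ) ∂σ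

theorem dir_law (hdiv : StmDiv) (hstr : StmStr) {r : ℕ} {W : Subgroup (Auts (Fin r))}
    {Φ : Finset (Fin r → ℤ)} (hΦ : IsWeylDatum W Φ) :
    ∃ F : Finset (Fin r → ℤ), ∀ (K : Type) [Field K] [NumberField K]
      (θ : HeightOneSpectrum (𝓞 K) → UnitAddTorus (Fin r)) (c : (Fin r → ℤ) → ℤ),
      (∀ μ, Tendsto (cE fun v => orb W μ (θ v)) (𝓝[>] 0) (𝓝 (c μ : ℂ))) →
      (∀ μ ∈ F, (c μ : ℂ) = dC Φ μ) →
      ∃ (ρ : Measure (UnitAddTorus (Fin r))) (Γ : AddSubgroup (Fin r → ℤ))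
        (a : UnitAddTorus (Fin r)), IsFiniteMeasure ρ ∧
        (∀ μ, ∫ x, mFourier μ x ∂ρ = c μ) ∧ IsCosetLaw Φ Γ a ρ ∧
        (∀ f : UnitAddTorus (Fin r) → ℂ, Continuous f → (∀ w ∈ W, ∀ x, f (act w x) = f x) →
          Tendsto (cE fun v => f (θ v)) (𝓝[>] 0) (𝓝 ((Nat.card W : ℂ)⁻¹ * ∫ x, f x ∂ρ))) ∧
        (NoInv W → ∀ τ : ℝ, τ ≠ 0 →
          (∀ μ, ∃ n : ℤ, Tendsto (cE fun v => orb W μ (θ v) * ht τ v) (𝓝[>] 0) (𝓝 (n : ℂ))) →
          ∀ μ, Tendsto (cE fun v => orb W μ (θ v) * ht τ v) (𝓝[>] 0) (𝓝 0)) := by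
  classical
  obtain ⟨F1, hF1⟩ := isolate hdiv hΦ.ne_zero
  set S := (finite_dC Φ).toFinset with hS
  have hSm : ∀ μ, dC Φ μ ≠ 0 → μ ∈ S := fun μ hμ => by
    rw [hS, Set.Finite.mem_toFinset]
    exact hμ
  have hWfin := hΦ.fin
  let _ : Fintype W := Fintype.ofFinite W
  have hcard : (Nat.card W : ℂ) ≠ 0 := by
    have : Nat.card W ≠ 0 := Nat.card_pos.ne'
    exact_mod_cast this
  refine ⟨F1 ∪ S ∪ (S ×ˢ S).image (fun p => p.1 - p.2), fun K _ _ θ c hc hF => ?_⟩
  have hUle : (Ultrafilter.of (𝓝[>] (0 : ℝ)) : Filter ℝ) ≤ 𝓝[>] 0 := Ultrafilter.of_le _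
  obtain ⟨ν, hν⟩ := exists_ulaw θ _ hUle
  set ρ := smeas W (ν : Measure (UnitAddTorus (Fin r))) with hρ
  have hfin : IsFiniteMeasure ρ := smeas_fin W _
  have hco : ∀ μ, ∫ x, mFourier μ x ∂ρ = c μ := ulaw_coef hc hUle hν
  have hint : ∀ μ : Fin r → ℤ, ∃ n : ℤ, ∫ x, mFourier μ x ∂ρ = n := fun μ => ⟨_, hco μ⟩
  have hFρ : ∀ μ ∈ F1 ∪ S ∪ (S ×ˢ S).image (fun p => p.1 - p.2),
      ∫ x, mFourier μ x ∂ρ = dC Φ μ := fun μ hμ => by rw [hco, hF μ hμ]
  have hF1' : ∀ μ ∈ F1, ∫ x, mFourier μ x ∂ρ = dC Φ μ := fun μ hμ =>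
    hFρ μ (Finset.mem_union_left _ (Finset.mem_union_left _ hμ))
  have hiso := hF1 ρ hfin hint hF1'
  obtain ⟨Γ, a, hΓ, ha, hlaw⟩ := hstr (Fin r) Φ hΦ.ne_zero ρ hint
    (fun μ hμ => hFρ μ (Finset.mem_union_left _ (Finset.mem_union_right _ (hSm μ hμ))))
    (fun μ ν' hμ hν' => hFρ _ (Finset.mem_union_right _ (Finset.mem_image.2
      ⟨(μ, ν'), Finset.mem_product.2 ⟨hSm μ hμ, hSm ν' hν'⟩, rfl⟩)))
    (fun κ hκ => by
      obtain ⟨γ, h1, h2⟩ := hiso (intL ρ (mFourier κ)) (fun f => by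
        rw [intL_apply]
        refine (norm_integral_le_integral_norm _).trans (le_of_eq ?_)
        refine integral_congr_ae (Eventually.of_forall fun x => ?_)
        simp only [norm_mul, norm_mF, mul_one]) (fun μ => by
        rw [intL_apply]
        simp only [← mFourier_add]
        exact hint _) (by
        rw [intL_apply]
        simp only [← mFourier_add, zero_add]
        exact hκ)
      refine ⟨γ, h1, ?_⟩
      rw [intL_apply] at h2
      simp only [← mFourier_add] at h2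
      rwa [neg_add_eq_sub] at h2)
  refine ⟨ρ, Γ, a, hfin, hco, ⟨hΓ, ha, hlaw⟩, fun f hf hfW => ?_, fun hNI τ hτ hn μ => ?_⟩
  · rw [tendsto_iff_ultrafilter]
    intro U' hU'
    obtain ⟨ν', hν'⟩ := exists_ulaw θ U' hU'
    have hfin' : IsFiniteMeasure (smeas W (ν' : Measure (UnitAddTorus (Fin r)))) :=
      smeas_fin W _
    have heq : ρ = smeas W (ν' : Measure (UnitAddTorus (Fin r))) :=
      measure_ext_fourier fun n => by rw [hco, ulaw_coef hc hU' hν']
    have h1 : ∫ x, f x ∂ρ = (Nat.card W : ℂ) * ∫ x, f x ∂(ν' : Measure (UnitAddTorus (Fin r))) := by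
      rw [heq, smeas_sym W _ hf, ← integral_const_mul]
      refine integral_congr_ae (Eventually.of_forall fun x => ?_)
      exact sym_inv W hfW x
    rw [h1, inv_mul_cancel_left₀ hcard]
    exact hν' f hf
  · choose n hn' using hn
    by_cases h0 : n μ = 0
    · have := hn' μ
      rwa [h0, Int.cast_zero] at this
    exfalso
    obtain ⟨N, hN1, hN2⟩ := exists_functional (W := W) θ hUle hν (ht τ) (norm_ht τ) μ
    have hNv : ∀ κ, N (mFourier κ) = n (κ + μ) := by
      intro κ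
      refine tendsto_nhds_unique (hN1 (mFourier κ)) (((hn' (κ + μ)).mono_left hUle).congr fun ε => ?_)
      congr 1
      funext v
      rw [orb_eq']
      unfold sym
      congr 1
      refine Finset.sum_congr rfl fun w _ => ?_
      rw [ContinuousMap.mul_apply, mFourier_add]
    obtain ⟨γ, -, hγ⟩ := hiso N hN2 (fun κ => ⟨_, hNv κ⟩) (by
      rw [hNv, zero_add]
      exact_mod_cast h0)
    -- the mass
    have hmass : (ρ.real Set.univ : ℂ) = Nat.card W := by
      rw [← mass_eq, hco]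
      have h1 : Tendsto (cE fun v => orb W 0 (θ v)) (𝓝[>] 0) (𝓝 (Nat.card W : ℂ)) := by
        refine tendsto_const_nhds.congr' ?_
        filter_upwards [good_ev (K := K)] with ε hε
        have h2 : (fun v => orb W 0 (θ v)) = fun _ => (Nat.card W : ℂ) * 1 := by
          funext v
          rw [orb_eq]
          simp [mFourier_zero, Nat.card_eq_fintype_card]
        rw [h2, cE_const_mul, cE_one hε, mul_one]
      exact tendsto_nhds_unique (hc 0) h1
    set lam := -γ + μ with hlam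
    obtain ⟨s, hs, hsn⟩ : ∃ s : ℂ, (s = 1 ∨ s = -1) ∧ (n lam : ℂ) = s * Nat.card W := by
      rw [hNv, hmass] at hγ
      rcases hγ with h | h
      · exact ⟨1, Or.inl rfl, by rw [h, one_mul]⟩
      · exact ⟨-1, Or.inr rfl, by rw [h]; ring⟩
    have hss : s * s = 1 := by rcases hs with h | h <;> rw [h] <;> ring
    have hsn1 : ‖s‖ = 1 := by rcases hs with h | h <;> rw [h] <;> simp
    set u : W → HeightOneSpectrum (𝓞 K) → ℂ := fun w v =>
      s * (mFourier ((w : Auts (Fin r)) lam) (θ v) * ht τ v) with hu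
    have hunorm : ∀ w v, ‖u w v‖ = 1 := by
      intro w v
      rw [hu]
      simp only
      rw [norm_mul, norm_mul, norm_mF, norm_ht, hsn1]
      norm_num
    have husum : ∀ v, ∑ w, u w v = s * (orb W lam (θ v) * ht τ v) := by
      intro v
      rw [orb_eq, Finset.sum_mul, Finset.mul_sum]
    have h1 : Tendsto (cE fun v => ∑ w, u w v) (Ultrafilter.of (𝓝[>] (0 : ℝ)) : Filter ℝ)
        (𝓝 (Fintype.card W : ℂ)) := by
      have h2 := ((hn' lam).mono_left hUle).const_mul s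
      rw [hsn, ← mul_assoc, hss, one_mul, Nat.card_eq_fintype_card] at h2
      refine h2.congr fun ε => ?_
      rw [← cE_const_mul]
      congr 1
      funext v
      exact (husum v).symm
    have h2 : M (nm K) (Ultrafilter.of (𝓝[>] (0 : ℝ))) (fun v => (∑ w, u w v).re) =
        Fintype.card W := by
      rw [M_of_cE hUle (B := Fintype.card W) (fun v => by
        refine (norm_sum_le _ _).trans ?_
        simp [hunorm]) h1]
      simp
    have h3 := M_rigid hUle hunorm h2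
    have hsum0 : ∑ w : W, (w : Auts (Fin r)) lam = 0 := by
      refine hNI _ fun w hw => ?_
      rw [map_sum]
      refine Fintype.sum_equiv (Equiv.mulLeft (⟨w, hw⟩ : W)) _ _ fun w' => rfl
    have hprod : ∀ v, ∏ w, u w v = s ^ Fintype.card W * ht (Fintype.card W * τ) v := by
      intro v
      rw [hu]
      simp only
      rw [Finset.prod_mul_distrib, Finset.prod_mul_distrib, Finset.prod_const, Finset.prod_const,
        Finset.card_univ, ht_pow]
      have h4 : ∏ w : W, mFourier ((w : Auts (Fin r)) lam) (θ v) = 1 := by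
        have h5 : ∀ T : Finset W, ∏ w ∈ T, mFourier ((w : Auts (Fin r)) lam) (θ v) =
            mFourier (∑ w ∈ T, (w : Auts (Fin r)) lam) (θ v) := by
          intro T
          induction T using Finset.induction_on with
          | empty => simp [mFourier_zero]
          | insert a T ha ih => rw [Finset.prod_insert ha, Finset.sum_insert ha, mFourier_add, ih]
        rw [h5, hsum0, mFourier_zero]
        rfl
      rw [h4, one_mul]
    have hW0 : (Fintype.card W : ℝ) * τ ≠ 0 :=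
      mul_ne_zero (by exact_mod_cast Fintype.card_ne_zero) hτ
    have h4 := M_ht (K := K) hUle hW0
    have hsr : ∃ t : ℝ, s ^ Fintype.card W = t := by
      rcases hs with h | h
      · exact ⟨1, by rw [h]; simp⟩
      · exact ⟨(-1) ^ Fintype.card W, by rw [h]; push_cast; rfl⟩
    obtain ⟨t, ht'⟩ := hsr
    have h5 : (fun v => (∏ w, u w v).re) = fun v => t * (ht (Fintype.card W * τ) v).re := by
      funext v
      rw [hprod, ht', Complex.re_ofReal_mul]
    rw [h5, M_const_mul (sysF K) hUle ⟨1, fun v => (Complex.abs_re_le_norm _).trans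
      (norm_ht _ v).le⟩, h4, mul_zero] at h3
    exact zero_ne_one h3

end Pool.Agent.Y798.FC
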