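import Pool.Agent.Y798.FC.Stm3

/-! Statements for the project FC, fourth part: twists by Artin representations. -/

set_option autoImplicit false

namespace Pool.Agent.Y798.FC

open Complex Filter Topology MeasureTheory UnitAddTorus NumberField IsDedekindDomain
  Pool.Agent.Y139.ID Pool.Agent.W540.BE Pool.Agent.TH553.RS Pool.Agent.TH553.ST
  Pool.Agent.Y798.JL Pool.Agent.W401.Cheb ComplexConjugate

/-- the orbit of a character -/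
def orbS {J : Type} (W : Subgroup (Auts J)) (μ : J → ℤ) : Set (J → ℤ) := {ν | ∃ w ∈ W, w μ = ν}

/-- the orbit sum without repetitions -/
noncomputable def msum {J : Type} [Fintype J] (W : Subgroup (Auts J)) (μ : J → ℤ)
    (x : UnitAddTorus J) : ℂ := ∑ᶠ ν ∈ orbS W μ, mFourier ν x

/-- the order of the stabilizer -/
noncomputable def stab {J : Type} (W : Subgroup (Auts J)) (μ : J → ℤ) : ℕ :=
  Nat.card {w : W // (w : Auts J) μ = μ}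

/-- job FC2-ORB: orbit sums -/
def StmOrb : Prop := ∀ (J : Type) [Fintype J] (W : Subgroup (Auts J)), Finite W →
  (∀ μ, (orbS W μ).Finite) ∧ (∀ μ, 0 < stab W μ) ∧
  (∀ μ, (orbS W μ).ncard * stab W μ = Nat.card W) ∧
  (∀ μ x, orb W μ x = (stab W μ : ℂ) * msum W μ x) ∧
  ∀ d : (J → ℤ) →₀ ℤ, (∀ w ∈ W, ∀ μ, d (w μ) = d μ) →
    ∃ (R : Finset (J → ℤ)) (b : (J → ℤ) → ℤ), ∀ x,
      conj (trig d x) = ∑ μ ∈ R, (b μ : ℂ) * msum W μ x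

/-- job FC2-FV: trigonometric polynomials with finitely many absolute values -/
def StmFV : Prop := ∀ (J : Type) [Fintype J] (d : (J → ℤ) →₀ ℤ),
  (∀ S : Finset ℝ, (∀ x, ‖trig d x‖ ^ 2 ∈ S) → ∃ s : ℝ, ∀ x, ‖trig d x‖ ^ 2 = s) ∧
  ((∀ x, ‖trig d x‖ = 1) → ∃ (γ : J → ℤ) (e : ℤ), (e = 1 ∨ e = -1) ∧ d = Finsupp.single γ e)

/-- the Euler product `∏_v ∏_{k ∈ S} det(1 - q_v^{-s} β_k(v) A(v))⁻¹` -/
noncomputable def eulerT {K : Type} [Field K] [NumberField K] {κ : Type} (S : Finset κ)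
    (β : HeightOneSpectrum (𝓞 K) → κ → ℂ) {n : ℕ}
    (A : HeightOneSpectrum (𝓞 K) → Matrix (Fin n) (Fin n) ℂ) (s : ℂ) : ℂ :=
  ∏' v : HeightOneSpectrum (𝓞 K),
    (∏ k ∈ S, Matrix.det (1 - ((Ideal.absNorm v.asIdeal : ℂ) ^ (-s) * β v k) • A v))⁻¹

/-- job FC2-BLK: orders of the twisted Euler products -/
def StmBlk : Prop := ∀ (K : Type) [Field K] [NumberField K] (κ : Type) (S : Finset κ)
  (β : HeightOneSpectrum (𝓞 K) → κ → ℂ), (∀ v, ∀ k ∈ S, ‖β v k‖ = 1) → ∀ (n : ℕ)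
  (A : HeightOneSpectrum (𝓞 K) → Matrix (Fin n) (Fin n) ℂ),
  (∀ v, A v ∈ Matrix.unitaryGroup (Fin n) ℂ) →
  (∀ τ : ℝ, ContAt (eulerT S β A) (1 + τ * I) → ∃ m : ℤ,
    Tendsto (cE fun v => (∑ k ∈ S, β v k) * ((A v).trace * ht τ v)) (𝓝[>] 0) (𝓝 (m : ℂ))) ∧
  ((∀ τ : ℝ, ContAt (eulerT S β A) (1 + τ * I)) →
    (∀ τ : ℝ, Tendsto (cE fun v => (∑ k ∈ S, β v k) * ((A v).trace * ht τ v)) (𝓝[>] 0) (𝓝 0)) →
    Tendsto (mn fun v => (∑ k ∈ S, β v k) * (A v).trace) atTop (𝓝 0))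

/-- job FC2-EXT: the Weyl law has no extremal moments -/
def StmExt : Prop := ∀ (J : Type) [Fintype J] (W : Subgroup (Auts J)) (Φ : Finset (J → ℤ)),
  IsWeylDatum W Φ → ∀ μ : J → ℤ, μ ≠ 0 →
    ‖(Nat.card W : ℂ)⁻¹ * ∫ x, msum W μ x * (dens Φ x : ℂ) ∂(vol J)‖ < (orbS W μ).ncard

section
variable {K : Type} [Field K] [NumberField K] {r : ℕ}

/-- the Weyl law in the sense of Dirichlet density -/
def DLaw (W : Subgroup (Auts (Fin r))) (Φ : Finset (Fin r → ℤ))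
    (θ : HeightOneSpectrum (𝓞 K) → UnitAddTorus (Fin r)) : Prop :=
  ∀ f : UnitAddTorus (Fin r) → ℂ, Continuous f → (∀ w ∈ W, ∀ x, f (act w x) = f x) →
    Tendsto (cE fun v => f (θ v)) (𝓝[>] 0)
      (𝓝 ((Nat.card W : ℂ)⁻¹ * ∫ x, f x * (dens Φ x : ℂ) ∂(vol (Fin r))))

end

/-- job FC2-FUN: the functional of a bounded function -/
def StmFun : Prop := ∀ (K : Type) [Field K] [NumberField K] (r : ℕ)
  (W : Subgroup (Auts (Fin r))) [Fintype W] (Φ : Finset (Fin r → ℤ)), IsWeylDatum W Φ →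
  ∀ (θ : HeightOneSpectrum (𝓞 K) → UnitAddTorus (Fin r)), DLaw W Φ θ →
  ∀ (h : HeightOneSpectrum (𝓞 K) → ℂ) (B : ℝ), (∀ v, ‖h v‖ ≤ B) →
    Tendsto (cE fun v => ((‖h v‖ ^ 2 : ℝ) : ℂ)) (𝓝[>] 0) (𝓝 1) →
  ∀ U : Ultrafilter ℝ, (U : Filter ℝ) ≤ 𝓝[>] 0 →
    ∃ N : C(UnitAddTorus (Fin r), ℂ) →ₗ[ℂ] ℂ,
      (∀ f : C(UnitAddTorus (Fin r), ℂ),
        Tendsto (cE fun v => sym W f (θ v) * h v) (U : Filter ℝ) (𝓝 (N f))) ∧
      (∀ f : C(UnitAddTorus (Fin r), ℂ),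
        ‖N f‖ ^ 2 ≤ (Nat.card W : ℝ) * ∫ x, ‖f x‖ ^ 2 * dens Φ x ∂(vol (Fin r))) ∧
      ∀ ψ : UnitAddTorus (Fin r) → ℝ, ∀ hψ : Continuous ψ, (∀ x, 0 ≤ ψ x) →
        ‖N ⟨fun x => (ψ x : ℂ), Complex.continuous_ofReal.comp hψ⟩‖ ≤
          B * ∫ x, ψ x * dens Φ x ∂(vol (Fin r))

/-- job FC2-TRANS: finitely many values -/
def StmTrans : Prop := ∀ (K : Type) [Field K] [NumberField K] (r : ℕ)
  (W : Subgroup (Auts (Fin r))) (Φ : Finset (Fin r → ℤ)), IsWeylDatum W Φ →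
  ∀ (θ : HeightOneSpectrum (𝓞 K) → UnitAddTorus (Fin r)), DLaw W Φ θ →
  ∀ (h : HeightOneSpectrum (𝓞 K) → ℂ) (S : Finset ℝ), (∀ v, ‖h v‖ ^ 2 ∈ S) →
  ∀ T : UnitAddTorus (Fin r) → ℂ, Continuous T → (∀ w ∈ W, ∀ x, T (act w x) = T x) →
    Tendsto (cE fun v => ((‖h v - T (θ v)‖ ^ 2 : ℝ) : ℂ)) (𝓝[>] 0) (𝓝 0) →
    ∀ x, ‖T x‖ ^ 2 ∈ S

end Pool.Agent.Y798.FC
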