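import Pool.Agent.Y798.FC.Vol

/-! Null sets, Parseval, and the density. -/

set_option autoImplicit false

namespace Pool.Agent.Y798.FC

open MeasureTheory UnitAddTorus Pool.Agent.Y139.ID Filter Topology ComplexConjugate

noncomputable local instance : MeasureSpace UnitAddCircle := ⟨AddCircle.haarAddCircle⟩

local instance : IsProbabilityMeasure (volume : Measure UnitAddCircle) :=
  inferInstanceAs (IsProbabilityMeasure AddCircle.haarAddCircle)

variable {J : Type} [Fintype J]

theorem mFourier_nsmul (k : ℕ) (α : J → ℤ) (x : UnitAddTorus J) :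
    mFourier (k • α) x = mFourier α x ^ k := by
  induction k with
  | zero => rw [zero_smul, mFourier_zero, pow_zero]; rfl
  | succ k ih => rw [succ_nsmul, mFourier_add, ih, pow_succ]

theorem null_root {α : J → ℤ} (hα : α ≠ 0) : vol J {x | mFourier α x = 1} = 0 := by
  set Z := {x : UnitAddTorus J | mFourier α x = 1} with hZdef
  have hZ : MeasurableSet Z := (isClosed_eq (by fun_prop) continuous_const).measurableSet
  have hmem : MemLp (Z.indicator fun _ => (1 : ℂ)) 2 (volume : Measure (UnitAddTorus J)) :=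
    memLp_indicator_const 2 hZ 1 (Or.inr (measure_ne_top _ _))
  set f := hmem.toLp with hf
  have h1 := (hasSum_sq_mFourierCoeff f).summable
  have hco : ∀ k : ℕ, mFourierCoeff f (k • α) = ((volume : Measure (UnitAddTorus J)).real Z : ℂ) := by
    intro k
    unfold mFourierCoeff
    have h2 : ∫ t, mFourier (-(k • α)) t • f t = ∫ t, Z.indicator (fun _ => (1 : ℂ)) t := by
      refine integral_congr_ae ?_
      filter_upwards [hmem.coeFn_toLp] with t ht
      rw [hf, ht]
      by_cases h : t ∈ Z
      · have h3 : mFourier α t = 1 := h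
        rw [Set.indicator_of_mem h, mFourier_neg, mFourier_nsmul, h3]
        simp
      · rw [Set.indicator_of_notMem h, smul_zero]
    rw [h2, integral_indicator_const _ hZ]
    simp
  have hinj : Function.Injective fun k : ℕ => k • α := by
    intro a b hab
    obtain ⟨j, hj⟩ := Function.ne_iff.1 hα
    have h3 := congrFun hab j
    simp only [Pi.smul_apply, nsmul_eq_mul] at h3
    have h4 := mul_right_cancel₀ hj h3
    exact_mod_cast h4
  have h5 := h1.comp_injective hinj
  have h6 := h5.tendsto_atTop_zero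
  have h7 : Tendsto (fun _ : ℕ => (volume : Measure (UnitAddTorus J)).real Z ^ 2) atTop (𝓝 0) := by
    refine h6.congr fun k => ?_
    simp only [Function.comp]
    rw [hco k, Complex.norm_real, Real.norm_eq_abs, sq_abs]
  have h8 := tendsto_nhds_unique h7 tendsto_const_nhds
  have h9 : (volume : Measure (UnitAddTorus J)).real Z = 0 := by
    have := h8.symm
    simpa using this
  rw [vol_eq]
  exact (measureReal_eq_zero_iff (measure_ne_top _ _)).1 h9

theorem conj_trig (b : (J → ℤ) →₀ ℤ) (x : UnitAddTorus J) :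
    conj (trig b x) = ∑ m ∈ b.support, (b m : ℂ) * mFourier (-m) x := by
  unfold trig Finsupp.sum
  rw [map_sum]
  refine Finset.sum_congr rfl fun m _ => ?_
  rw [map_mul, ← mFourier_neg]
  simp

theorem int_sq_trig (b : (J → ℤ) →₀ ℤ) :
    ∫ x, ‖trig b x‖ ^ 2 ∂(vol J) = ∑ m ∈ b.support, (b m : ℝ) ^ 2 := by
  have h1 : ∀ x, ((‖trig b x‖ ^ 2 : ℝ) : ℂ) =
      ∑ m ∈ b.support, (b m : ℂ) * (mFourier (-m) x * trig b x) := by
    intro x
    rw [← Complex.normSq_eq_norm_sq, Complex.normSq_eq_conj_mul_self, conj_trig, Finset.sum_mul]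
    exact Finset.sum_congr rfl fun m _ => by ring
  have h2 : ((∫ x, ‖trig b x‖ ^ 2 ∂(vol J) : ℝ) : ℂ) = ((∑ m ∈ b.support, (b m : ℝ) ^ 2 : ℝ) : ℂ) := by
    rw [← integral_complex_ofReal]
    simp only [h1]
    rw [integral_finsetSum _ fun m _ => (integrable_cont _ (by
      have := continuous_trig b
      fun_prop))]
    push_cast
    refine Finset.sum_congr rfl fun m _ => ?_
    rw [integral_const_mul, int_trig, neg_neg]
    ring
  exact_mod_cast h2

theorem continuous_dens (Φ : Finset (J → ℤ)) : Continuous (dens Φ) := by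
  unfold dens
  fun_prop

theorem dens_nonneg (Φ : Finset (J → ℤ)) (x : UnitAddTorus J) : 0 ≤ dens Φ x :=
  Finset.prod_nonneg fun _ _ => by positivity

theorem norm_mF (n : J → ℤ) (x : UnitAddTorus J) : ‖mFourier n x‖ = 1 := by
  simp only [mFourier, ContinuousMap.coe_mk, norm_prod]
  refine Finset.prod_eq_one fun i _ => ?_
  simp [fourier_apply]

theorem dens_le (Φ : Finset (J → ℤ)) (x : UnitAddTorus J) : dens Φ x ≤ 4 ^ Φ.card := by
  unfold dens
  refine (Finset.prod_le_prod (fun _ _ => by positivity) (g := fun _ => (4 : ℝ)) fun α _ => ?_).trans ?_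
  · have h1 : ‖1 - mFourier α x‖ ≤ 2 := by
      refine (norm_sub_le _ _).trans ?_
      rw [norm_mF]
      norm_num
    nlinarith [norm_nonneg (1 - mFourier α x)]
  · rw [Finset.prod_const]

theorem null_dens {Φ : Finset (J → ℤ)} (h0 : ∀ α ∈ Φ, α ≠ 0) : ∀ᵐ x ∂(vol J), 0 < dens Φ x := by
  have h1 : ∀ᵐ x ∂(vol J), ∀ α ∈ Φ, mFourier α x ≠ 1 := by
    have h2 : ∀ α ∈ Φ, ∀ᵐ x ∂(vol J), mFourier α x ≠ 1 := by
      intro α hα
      rw [ae_iff]
      simpa using null_root (h0 α hα)
    exact (ae_ball_iff Φ.countable_toSet).2 h2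
  filter_upwards [h1] with x hx
  unfold dens
  refine Finset.prod_pos fun α hα => ?_
  have h3 : (1 : ℂ) - mFourier α x ≠ 0 := sub_ne_zero.2 (hx α hα).symm
  positivity

/-- the Fourier coefficients of the density -/
noncomputable def dC (Φ : Finset (J → ℤ)) (μ : J → ℤ) : ℂ :=
  ∫ x, mFourier μ x * (dens Φ x : ℂ) ∂(vol J)

theorem cauchy (ρ : Measure (UnitAddTorus J)) [IsFiniteMeasure ρ] {P : UnitAddTorus J → ℂ}
    (hP : Continuous P) : (∫ x, ‖P x‖ ∂ρ) ^ 2 ≤ ρ.real Set.univ * ∫ x, ‖P x‖ ^ 2 ∂ρ := by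
  set A := ∫ x, ‖P x‖ ∂ρ with hA
  set B := ∫ x, ‖P x‖ ^ 2 ∂ρ with hB
  set M := ρ.real Set.univ with hM
  have h : ∀ s : ℝ, 0 ≤ M * (s * s) + (-2 * A) * s + B := by
    intro s
    have h1 : ∫ x, (‖P x‖ - s) ^ 2 ∂ρ = M * (s * s) + (-2 * A) * s + B := by
      have h2 : ∀ x, (‖P x‖ - s) ^ 2 = ‖P x‖ ^ 2 - (2 * s) * ‖P x‖ + s ^ 2 := fun x => by ring
      simp only [h2]
      rw [integral_add, integral_sub, integral_const_mul, integral_const]
      · simp only [smul_eq_mul]
        ring
      · exact integrable_cont_real _ (by fun_prop)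
      · exact integrable_cont_real _ (by fun_prop)
      · exact integrable_cont_real _ (by fun_prop)
      · exact integrable_const _
    rw [← h1]
    exact integral_nonneg fun x => by positivity
  have h2 := discrim_le_zero h
  unfold discrim at h2
  nlinarith

end Pool.Agent.Y798.FC
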