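import Pool.Agent.Y798.FC.Stm4
import Pool.Agent.Y37.FC.Taub
import Pool.Agent.Y681.FC.Im

/-! Orders of the twisted Euler products. -/

set_option autoImplicit false

namespace Pool.Agent.Y798.FC.Blk

open MeasureTheory UnitAddTorus Filter Topology NumberField IsDedekindDomain
  Pool.Agent.W540.BE Pool.Agent.TH553.RS Pool.Agent.TH553.ST Pool.Agent.Y798.JL
  Pool.Agent.Y798.FC
open Pool.Agent.Y139.ID (Good good_ev)

section
variable {K : Type} [Field K] [NumberField K] {κ : Type} {S : Finset κ}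
  {β : HeightOneSpectrum (𝓞 K) → κ → ℂ} (hβ : ∀ v, ∀ k ∈ S, ‖β v k‖ = 1) {n : ℕ}
  {A : HeightOneSpectrum (𝓞 K) → Matrix (Fin n) (Fin n) ℂ}
  (hA : ∀ v, A v ∈ Matrix.unitaryGroup (Fin n) ℂ)

open Classical in
/-- the block matrices -/
noncomputable def bm (S : Finset κ) (β : HeightOneSpectrum (𝓞 K) → κ → ℂ)
    (A : HeightOneSpectrum (𝓞 K) → Matrix (Fin n) (Fin n) ℂ) (v : HeightOneSpectrum (𝓞 K)) :
    Matrix (Fin n × S) (Fin n × S) ℂ := Matrix.blockDiagonal fun k : S => β v k • A v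

open Classical in
include hβ hA in
theorem bm_mem (v : HeightOneSpectrum (𝓞 K)) : bm S β A v ∈ Matrix.unitaryGroup (Fin n × S) ℂ := by
  rw [Matrix.mem_unitaryGroup_iff, Matrix.star_eq_conjTranspose]
  unfold bm
  rw [Matrix.blockDiagonal_conjTranspose, ← Matrix.blockDiagonal_mul, ← Matrix.blockDiagonal_one]
  congr 1
  funext k
  have h1 : A v * (A v).conjTranspose = 1 := Matrix.mem_unitaryGroup_iff.1 (hA v)
  have h2 : β v k * star (β v k) = 1 := by
    rw [RCLike.star_def, Complex.mul_conj, Complex.normSq_eq_norm_sq, hβ v k k.2]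
    simp
  rw [Matrix.conjTranspose_smul, Matrix.smul_mul, Matrix.mul_smul, h1, smul_smul, h2, one_smul]
  rfl

open Classical in
theorem bm_trace (v : HeightOneSpectrum (𝓞 K)) :
    (bm S β A v).trace = (∑ k ∈ S, β v k) * (A v).trace := by
  unfold bm
  rw [Matrix.trace_blockDiagonal, Finset.sum_mul,
    ← Finset.sum_coe_sort S (fun k => β v k * (A v).trace)]
  refine Finset.sum_congr rfl fun k _ => ?_
  rw [Matrix.trace_smul, smul_eq_mul]

open Classical in
theorem bm_LU (s : ℂ) : LU (bm S β A) s = eulerT S β A s := by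
  unfold LU eulerT
  refine tprod_congr fun v => ?_
  congr 1
  have h1 : (1 - (((nm K v : ℕ) : ℂ) ^ (-s)) • bm S β A v) =
      Matrix.blockDiagonal fun k : S =>
        (1 - ((Ideal.absNorm v.asIdeal : ℂ) ^ (-s) * β v k) • A v) := by
    unfold bm
    rw [← Matrix.blockDiagonal_one, ← Matrix.blockDiagonal_smul, ← Matrix.blockDiagonal_sub]
    congr 1
    funext k
    simp only [Pi.smul_apply, Pi.sub_apply, Pi.one_apply, smul_smul]
    rfl
  rw [h1, Matrix.det_blockDiagonal]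
  exact Finset.prod_coe_sort S
    (fun k => Matrix.det (1 - ((Ideal.absNorm v.asIdeal : ℂ) ^ (-s) * β v k) • A v))

include hβ hA in
theorem norm_bm (v : HeightOneSpectrum (𝓞 K)) :
    ‖(∑ k ∈ S, β v k) * (A v).trace‖ ≤ S.card * n := by
  classical
  have h1 := norm_tr (A := bm S β A) (bm_mem hβ hA) v
  rw [bm_trace] at h1
  refine h1.trans (le_of_eq ?_)
  rw [Fintype.card_prod, Fintype.card_fin, Fintype.card_coe]
  push_cast
  ring

include hβ hA in
theorem pole (him : StmIm) {τ : ℝ} (h : ContAt (eulerT S β A) (1 + τ * Complex.I)) :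
    ∃ m : ℤ, PoleAt (eulerT S β A) (1 + τ * Complex.I) m ∧
      Tendsto (cE fun v => (∑ k ∈ S, β v k) * ((A v).trace * ht τ v)) (𝓝[>] 0) (𝓝 (m : ℂ)) := by
  classical
  obtain ⟨Λ, h1, h2⟩ := h
  have h2' : ∀ᶠ s in 𝓝 ((1 : ℂ) + τ * Complex.I), (1 : ℝ) < s.re → Λ s = LU (bm S β A) s := by
    filter_upwards [h2] with s hs h
    rw [bm_LU, hs h]
  obtain ⟨m, h3, h4⟩ := order_LU (bm_mem hβ hA) h1 h2'
  have h5 := him K _ (bm S β A) (bm_mem hβ hA) τ Λ h1 h2'
  simp only [bm_trace] at h4 h5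
  refine ⟨-m, ⟨Λ, h1, h2, by rw [neg_neg]; exact h3⟩, ?_⟩
  have h6 := cE_of_qt (t := fun v => ((∑ k ∈ S, β v k) * (A v).trace) * ht τ v)
    (B := S.card * n) (fun v => by
    rw [norm_mul, norm_ht, mul_one]
    exact norm_bm hβ hA v) (a := -(m : ℝ)) (b := 0) h4 h5
  have h7 : (((-(m : ℝ) : ℝ) : ℂ) + ((0 : ℝ) : ℂ) * Complex.I) = ((-m : ℤ) : ℂ) := by
    push_cast
    ring
  rw [h7] at h6
  have e : (fun v => (∑ k ∈ S, β v k) * ((A v).trace * ht τ v)) =
      fun v => ((∑ k ∈ S, β v k) * (A v).trace) * ht τ v := by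
    funext v
    ring
  rw [e]
  exact h6

end

theorem t : StmBlk := by
  intro K _ _ κ S β hβ n A hA
  classical
  have him : StmIm := Pool.Agent.Y681.FC.t
  have htaub : StmTaub := Pool.Agent.Y37.FC.t_Taub
  refine ⟨fun τ h => ?_, fun h h0 => ?_⟩
  · obtain ⟨m, -, hm⟩ := pole hβ hA him h
    exact ⟨m, hm⟩
  · have h1 := htaub K _ (bm S β A) (bm_mem hβ hA) 0 (fun τ => by
      obtain ⟨m, ⟨Λ, k1, k2, k3⟩, k4⟩ := pole hβ hA him (h τ)
      refine ⟨Λ, k1, ?_, ?_⟩
      · filter_upwards [k2] with s hs h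
        rw [bm_LU, hs h]
      · rw [k3]
        have := tendsto_nhds_unique k4 (h0 τ)
        have h5 : m = 0 := by exact_mod_cast this
        rw [h5]
        simp)
    simpa only [bm_trace, Int.cast_zero] using h1

end Pool.Agent.Y798.FC.Blk
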