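import Pool.Agent.Y798.FC.One
import Pool.Agent.Y484.FC2.Orb

/-! Twists by Artin representations. -/

set_option autoImplicit false
set_option linter.unusedSectionVars false

namespace Pool.Agent.Y798.FC

open Filter Topology MeasureTheory UnitAddTorus NumberField IsDedekindDomain
  Pool.Agent.W540.BE Pool.Agent.TH553.RS Pool.Agent.TH553.ST
  Pool.Agent.Y798.JL Pool.Agent.W401.Cheb ComplexConjugate
open Pool.Agent.Y139.ID (Good good_ev trig continuous_trig trig_single integrable_cont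
  integrable_cont_real intL avg avg_eq)

section
variable {K : Type} [Field K] [NumberField K]

theorem cE_zero_of_mn {t : HeightOneSpectrum (𝓞 K) → ℂ} {B : ℝ} (hB : ∀ v, ‖t v‖ ≤ B)
    (h : Tendsto (mn t) atTop (𝓝 0)) (τ : ℝ) :
    Tendsto (cE fun v => t v * ht τ v) (𝓝[>] 0) (𝓝 0) := by
  have h1 := mean_edge (F := K) (g := t) hB 0 (by
    have := mn_tendsto h
    simpa using this) τ
  have h2 := mean_edge (F := K) (g := fun v => -Complex.I * t v) (B := B) (fun v => by
    rw [norm_mul, norm_neg, Complex.norm_I, one_mul]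
    exact hB v) 0 (by
    have h3 : Tendsto (mn fun v => -Complex.I * t v) atTop (𝓝 0) := by
      have h4 := h.const_mul (-Complex.I)
      rw [mul_zero] at h4
      exact h4.congr fun n => (mn_const_mul _ _ _).symm
    have := mn_tendsto h3
    simpa using this) τ
  have e0 : (if τ = 0 then (0 : ℝ) else 0) = 0 := by split_ifs <;> rfl
  rw [e0] at h1 h2
  have h3 := cE_of_qt (t := fun v => t v * ht τ v) (B := B) (fun v => by
    rw [norm_mul, norm_ht, mul_one]
    exact hB v) (a := 0) (b := 0) h1 (h2.congr fun ε => by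
      unfold qt
      congr 2
      funext v
      simp only [ht]
      rw [mul_assoc, neg_mul, Complex.neg_re, Complex.I_mul_re, neg_neg])
  simpa using h3

theorem cE_of_mn_real {t : HeightOneSpectrum (𝓞 K) → ℝ} {B : ℝ} (hB : ∀ v, |t v| ≤ B) {c : ℝ}
    (h : Tendsto (mn fun v => (t v : ℂ)) atTop (𝓝 (c : ℂ))) :
    Tendsto (cE fun v => (t v : ℂ)) (𝓝[>] 0) (𝓝 (c : ℂ)) := by
  have h1 := mean_edge (F := K) (g := fun v => (t v : ℂ)) (B := B) (fun v => by
    rw [Complex.norm_real]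
    exact hB v) c (mn_tendsto h) 0
  rw [if_pos rfl] at h1
  have h3 := cE_of_qt (t := fun v => (t v : ℂ)) (B := B) (fun v => by
    rw [Complex.norm_real]
    exact hB v) (a := c) (b := 0) (h1.congr fun ε => by
      unfold qt
      congr 2
      funext v
      simp) (by
      have e : (fun v : HeightOneSpectrum (𝓞 K) => ((t v : ℂ)).im) = fun _ => 0 :=
        funext fun v => Complex.ofReal_im _
      rw [e]
      have e2 : qt (nm K) (fun _ => (0 : ℝ)) = fun _ => 0 := by
        funext ε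
        simp [qt, EP]
      rw [e2]
      exact tendsto_const_nhds)
  simpa using h3

theorem cE_of_mn {t : HeightOneSpectrum (𝓞 K) → ℂ} {B : ℝ} (hB : ∀ v, ‖t v‖ ≤ B) {c : ℂ}
    (h : Tendsto (mn t) atTop (𝓝 c)) : Tendsto (cE t) (𝓝[>] 0) (𝓝 c) := by
  have h1 := (Complex.continuous_ofReal.tendsto _).comp ((Complex.continuous_re.tendsto _).comp h)
  have h2 := (Complex.continuous_ofReal.tendsto _).comp ((Complex.continuous_im.tendsto _).comp h)
  have k1 := cE_of_mn_real (t := fun v => (t v).re) (B := B)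
    (fun v => (Complex.abs_re_le_norm _).trans (hB v)) (c := c.re) (h1.congr fun n => by
      simp only [Function.comp]
      rw [re_mn]
      unfold mn
      simp [smul_eq_mul])
  have k2 := cE_of_mn_real (t := fun v => (t v).im) (B := B)
    (fun v => (Complex.abs_im_le_norm _).trans (hB v)) (c := c.im) (h2.congr fun n => by
      simp only [Function.comp]
      rw [im_mn]
      unfold mn
      simp [smul_eq_mul])
  have k3 := k1.add (k2.mul_const Complex.I)
  rw [Complex.re_add_im] at k3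
  refine k3.congr' ?_
  filter_upwards [good_ev (K := K)] with ε hε
  have e1 : (fun v => t v) = fun v => ((t v).re : ℂ) + Complex.I * ((t v).im : ℂ) := by
    funext v
    rw [mul_comm, Complex.re_add_im]
  have e2 : cE t ε = cE (fun v => ((t v).re : ℂ) + Complex.I * ((t v).im : ℂ)) ε := by
    rw [← e1]
  rw [e2, cE_add hε (B := B) (C := B) (fun v => by
    rw [Complex.norm_real]
    exact (Complex.abs_re_le_norm _).trans (hB v)) (fun v => by
    rw [norm_mul, Complex.norm_I, one_mul, Complex.norm_real]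
    exact (Complex.abs_im_le_norm _).trans (hB v)), cE_const_mul, mul_comm Complex.I]

end

section
variable {K : Type} [Field K] [NumberField K] {σ : HeightOneSpectrum (𝓞 K) → GK K}
  {U : Subgroup (GK K)} [U.Normal] {n : ℕ} {ψ : GK K ⧸ U →* Matrix.unitaryGroup (Fin n) ℂ}

theorem mn_frob (hσ : ∀ v, IsFrob v (σ v)) (hU : IsOpen (U : Set (GK K))) (f : GK K ⧸ U → ℂ)
    (hf : ∀ a g, f (g * a * g⁻¹) = f a) :
    Tendsto (mn fun v => f (QuotientGroup.mk (σ v))) atTop
      (𝓝 ((Nat.card (GK K ⧸ U) : ℂ)⁻¹ * ∑ᶠ q, f q)) := by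
  have hfin : Finite (GK K ⧸ U) := Subgroup.quotient_finite_of_isOpen _ hU
  exact mn_of_pi (cheb_mean U hU f hf σ hσ)

theorem frob_chi (hσ : ∀ v, IsFrob v (σ v)) (hU : IsOpen (U : Set (GK K))) (hs : Schur ψ)
    (hnt : ∃ g, ψ g ≠ 1) :
    Tendsto (mn fun v => chi ψ (QuotientGroup.mk (σ v))) atTop (𝓝 0) := by
  have hfin : Finite (GK K ⧸ U) := Subgroup.quotient_finite_of_isOpen _ hU
  have hdisc : DiscreteTopology (GK K ⧸ U) := QuotientGroup.discreteTopology hU
  let _ : MeasurableSpace (GK K ⧸ U) := borel _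
  have _ : BorelSpace (GK K ⧸ U) := ⟨rfl⟩
  set ν : Measure (GK K ⧸ U) := Measure.haarMeasure ⊤ with hν
  have hν1 : IsProbabilityMeasure ν := ⟨by
    rw [hν]
    exact Measure.haarMeasure_self⟩
  have h1 := mn_frob hσ hU (chi ψ) (fun a g => chi_cls _ _ _)
  have h2 := int_chi (μ := ν) continuous_of_discreteTopology hs hnt
  rw [int_unif (Q := GK K ⧸ U) (ν := ν), Complex.real_smul] at h2
  push_cast at h2
  rwa [h2] at h1

theorem frob_sq (hσ : ∀ v, IsFrob v (σ v)) (hU : IsOpen (U : Set (GK K))) (hs : Schur ψ)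
    (hn : n ≠ 0) :
    Tendsto (mn fun v => ((‖chi ψ (QuotientGroup.mk (σ v))‖ ^ 2 : ℝ) : ℂ)) atTop (𝓝 1) := by
  have hfin : Finite (GK K ⧸ U) := Subgroup.quotient_finite_of_isOpen _ hU
  have hdisc : DiscreteTopology (GK K ⧸ U) := QuotientGroup.discreteTopology hU
  let _ : MeasurableSpace (GK K ⧸ U) := borel _
  have _ : BorelSpace (GK K ⧸ U) := ⟨rfl⟩
  set ν : Measure (GK K ⧸ U) := Measure.haarMeasure ⊤ with hν
  have hν1 : IsProbabilityMeasure ν := ⟨by
    rw [hν]
    exact Measure.haarMeasure_self⟩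
  have h1 := mn_frob hσ hU (fun q => ((‖chi ψ q‖ ^ 2 : ℝ) : ℂ)) (fun a g => by rw [chi_cls])
  have h2 := int_sq (μ := ν) (π := ψ) continuous_of_discreteTopology hs hn
  have h3 : ∫ g, ((‖chi ψ g‖ ^ 2 : ℝ) : ℂ) ∂ν = 1 := by
    rw [integral_complex_ofReal, h2, Complex.ofReal_one]
  rw [int_unif (Q := GK K ⧸ U) (ν := ν), Complex.real_smul] at h3
  rw [Complex.ofReal_inv, Complex.ofReal_natCast] at h3
  rwa [h3] at h1

end

section
variable {J : Type} [Fintype J]

theorem orbS_finite {W : Subgroup (Auts J)} (hW : Finite W) (μ : J → ℤ) :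
    (orbS W μ).Finite := (Pool.Agent.Y484.FC2.t J W hW).1 μ

/-- the orbit as a finite set -/
noncomputable def orbF {W : Subgroup (Auts J)} (hW : Finite W) (μ : J → ℤ) : Finset (J → ℤ) :=
  (orbS_finite hW μ).toFinset

theorem mem_orbF {W : Subgroup (Auts J)} (hW : Finite W) {μ ν : J → ℤ} :
    ν ∈ orbF hW μ ↔ ∃ w ∈ W, w μ = ν := by
  unfold orbF
  rw [Set.Finite.mem_toFinset]
  rfl

theorem msum_eq {W : Subgroup (Auts J)} (hW : Finite W) (μ : J → ℤ) (x : UnitAddTorus J) :
    msum W μ x = ∑ ν ∈ orbF hW μ, mFourier ν x := by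
  unfold msum orbF
  exact finsum_mem_eq_finite_toFinset_sum _ _

theorem continuous_msum {W : Subgroup (Auts J)} (hW : Finite W) (μ : J → ℤ) :
    Continuous (msum W μ) := by
  have h : msum W μ = fun x => ∑ ν ∈ orbF hW μ, mFourier ν x := funext fun x => msum_eq hW μ x
  rw [h]
  fun_prop

theorem stab_pos {W : Subgroup (Auts J)} (hW : Finite W) (μ : J → ℤ) : 0 < stab W μ :=
  (Pool.Agent.Y484.FC2.t J W hW).2.1 μ

theorem card_stab {W : Subgroup (Auts J)} (hW : Finite W) (μ : J → ℤ) :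
    (orbS W μ).ncard * stab W μ = Nat.card W := (Pool.Agent.Y484.FC2.t J W hW).2.2.1 μ

theorem orb_msum {W : Subgroup (Auts J)} (hW : Finite W) (μ : J → ℤ) (x : UnitAddTorus J) :
    orb W μ x = (stab W μ : ℂ) * msum W μ x := (Pool.Agent.Y484.FC2.t J W hW).2.2.2.1 μ x

theorem msum_act {W : Subgroup (Auts J)} (hW : Finite W) {w : Auts J} (hw : w ∈ W) (μ : J → ℤ)
    (x : UnitAddTorus J) : msum W μ (act w x) = msum W μ x := by
  have h1 := orb_act hW hw μ x
  rw [orb_msum hW, orb_msum hW] at h1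
  have h2 : (stab W μ : ℂ) ≠ 0 := by
    have := stab_pos hW μ
    exact_mod_cast this.ne'
  exact mul_left_cancel₀ h2 h1

end

section
variable {K : Type} [Field K] [NumberField K] {r : ℕ} {W : Subgroup (Auts (Fin r))}
  {Φ : Finset (Fin r → ℤ)} {σ : HeightOneSpectrum (𝓞 K) → GK K}
  {U : Subgroup (GK K)} [U.Normal]

/-- **The twisted averages vanish.** -/
theorem twist_mn (hfix : StmFix) (hfv : StmFV) (horb : StmOrb) (hfun : StmFun) (htr : StmTrans)
    (hblk : StmBlk)
    (hΦ : IsWeylDatum W Φ) (hNI : NoInv W) {θ : HeightOneSpectrum (𝓞 K) → UnitAddTorus (Fin r)}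
    (hθ : DLaw W Φ θ) (hσ : ∀ v, IsFrob v (σ v)) (hU : IsOpen (U : Set (GK K))) {n : ℕ}
    {ψ : GK K ⧸ U →* Matrix.unitaryGroup (Fin n) ℂ} (hs : Schur ψ) (hnt : ∃ g, ψ g ≠ 1)
    (hcont : ∀ μ (τ : ℝ), ContAt (eulerT (orbF hΦ.fin μ) (fun v ν => mFourier ν (θ v))
      (fun v => (ψ (QuotientGroup.mk (σ v)) : Matrix (Fin n) (Fin n) ℂ))) (1 + τ * Complex.I))
    (μ : Fin r → ℤ) :
    Tendsto (mn fun v => orb W μ (θ v) * chi ψ (QuotientGroup.mk (σ v))) atTop (𝓝 0) := by
  classical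
  have hWfin := hΦ.fin
  have hfin : Finite (GK K ⧸ U) := Subgroup.quotient_finite_of_isOpen _ hU
  have hn : n ≠ 0 := by
    rintro rfl
    obtain ⟨g, hg⟩ := hnt
    exact hg (Subtype.ext (Subsingleton.elim _ _))
  have hb := fun μ => hblk K (Fin r → ℤ) (orbF hΦ.fin μ) (fun v ν => mFourier ν (θ v))
    (fun _ _ _ => norm_mF _ _) n
    (fun v => (ψ (QuotientGroup.mk (σ v)) : Matrix (Fin n) (Fin n) ℂ)) (fun v => (ψ _).2)
  -- the set of values
  set S : Finset ℝ := (Set.finite_range fun q : GK K ⧸ U => ‖chi ψ q‖ ^ 2).toFinset with hS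
  have hzero : ∀ (τ : ℝ) (μ : Fin r → ℤ),
      Tendsto (cE fun v => msum W μ (θ v) * (chi ψ (QuotientGroup.mk (σ v)) * ht τ v)) (𝓝[>] 0)
        (𝓝 0) := by
    intro τ
    refine one hfix hfv horb hfun htr hΦ hNI hθ (S := S) (fun v => ?_) ?_ ?_ (fun μ => ?_)
    · rw [norm_mul, norm_ht, mul_one, hS, Set.Finite.mem_toFinset]
      exact ⟨_, rfl⟩
    · have h1 := cE_of_mn_real (t := fun v => ‖chi ψ (QuotientGroup.mk (σ v))‖ ^ 2)
        (B := (n : ℝ) ^ 2) (fun v => by
          rw [abs_of_nonneg (sq_nonneg _)]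
          exact pow_le_pow_left₀ (norm_nonneg _) (norm_chi _ _) 2) (c := 1) (by
          rw [Complex.ofReal_one]
          exact frob_sq hσ hU hs hn)
      rw [Complex.ofReal_one] at h1
      refine cE_congr_lim (fun v => ?_) h1
      rw [norm_mul, norm_ht, mul_one]
    · exact cE_zero_of_mn (B := n) (fun v => norm_chi _ _) (frob_chi hσ hU hs hnt) τ
    · obtain ⟨m, hm⟩ := (hb μ).1 τ (hcont μ τ)
      refine ⟨m, cE_congr_lim (fun v => ?_) hm⟩
      rw [msum_eq hWfin]
      rfl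
  have h2 := (hb μ).2 (hcont μ) (fun τ => cE_congr_lim (fun v => by
    rw [msum_eq hWfin]
    rfl) (hzero τ μ))
  have h3 := h2.const_mul (stab W μ : ℂ)
  rw [mul_zero] at h3
  refine h3.congr fun N => ?_
  rw [← mn_const_mul]
  congr 1
  funext v
  rw [orb_msum hWfin, msum_eq hWfin, mul_assoc]
  rfl

end

end Pool.Agent.Y798.FC
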