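import Pool.Agent.Y798.FC.Vol2

/-! Limits of functionals. -/

set_option autoImplicit false

namespace Pool.Agent.Y798.FC

open MeasureTheory UnitAddTorus Pool.Agent.Y139.ID Filter Topology ComplexConjugate

variable {J : Type} [Fintype J]

/-- convergence of the Fourier coefficients implies convergence -/
theorem tendsto_of_fourier {ι : Type*} {l : Filter ι} (M : ι → C(UnitAddTorus J, ℂ) →ₗ[ℂ] ℂ)
    (L : C(UnitAddTorus J, ℂ) →ₗ[ℂ] ℂ) {C D : ℝ}
    (hM : ∀ᶠ i in l, ∀ f : C(UnitAddTorus J, ℂ), ‖M i f‖ ≤ C * ‖f‖)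
    (hL : ∀ f : C(UnitAddTorus J, ℂ), ‖L f‖ ≤ D * ‖f‖)
    (h : ∀ n : J → ℤ, Tendsto (fun i => M i (mFourier n)) l (𝓝 (L (mFourier n))))
    (f : C(UnitAddTorus J, ℂ)) : Tendsto (fun i => M i f) l (𝓝 (L f)) := by
  have hspan : ∀ g ∈ Submodule.span ℂ (Set.range (mFourier (d := J))),
      Tendsto (fun i => M i g) l (𝓝 (L g)) := by
    intro g hg
    induction hg using Submodule.span_induction with
    | mem g hg =>
      obtain ⟨n, rfl⟩ := hg
      exact h n
    | zero => simpa using (tendsto_const_nhds (x := (0 : ℂ)) (f := l))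
    | add f g _ _ hf hg =>
      have := hf.add hg
      simpa using this
    | smul a f _ hf =>
      have := hf.const_mul a
      simpa using this
  have hcl : f ∈ closure (Submodule.span ℂ (Set.range (mFourier (d := J))) :
      Set C(UnitAddTorus J, ℂ)) := by
    have h1 := span_mFourier_closure_eq_top (d := J)
    have h2 : f ∈ (Submodule.span ℂ (Set.range (mFourier (d := J)))).topologicalClosure := by
      rw [h1]
      trivial
    exact h2
  rw [Metric.tendsto_nhds]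
  intro δ hδ
  set A := |C| + |D| + 1 with hA
  have hApos : 0 < A := by positivity
  obtain ⟨g, hg, hfg⟩ := Metric.mem_closure_iff.1 hcl (δ / (2 * A)) (by positivity)
  have h3 := (Metric.tendsto_nhds.1 (hspan g hg)) (δ / 2) (by positivity)
  filter_upwards [hM, h3] with i h4 h5
  rw [dist_eq_norm] at hfg h5 ⊢
  have e : M i f - L f = M i (f - g) + (M i g - L g) - L (f - g) := by
    rw [map_sub, map_sub]
    ring
  rw [e]
  have h6 : ‖M i (f - g)‖ ≤ |C| * ‖f - g‖ :=
    (h4 _).trans (mul_le_mul_of_nonneg_right (le_abs_self C) (norm_nonneg _))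
  have h7 : ‖L (f - g)‖ ≤ |D| * ‖f - g‖ :=
    (hL _).trans (mul_le_mul_of_nonneg_right (le_abs_self D) (norm_nonneg _))
  have h8 : (|C| + |D|) * ‖f - g‖ ≤ A * ‖f - g‖ :=
    mul_le_mul_of_nonneg_right (by linarith) (norm_nonneg _)
  have h9 : A * ‖f - g‖ < δ / 2 := by
    calc A * ‖f - g‖ < A * (δ / (2 * A)) := mul_lt_mul_of_pos_left hfg hApos
      _ = δ / 2 := by field_simp
  calc ‖M i (f - g) + (M i g - L g) - L (f - g)‖
      ≤ ‖M i (f - g)‖ + ‖M i g - L g‖ + ‖L (f - g)‖ := by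
        refine (norm_sub_le _ _).trans ?_
        gcongr
        exact norm_add_le _ _
    _ < δ := by nlinarith

theorem isClosed_ints : IsClosed (Set.range ((↑) : ℤ → ℂ)) := by
  have h1 : (Set.range ((↑) : ℤ → ℂ)) = Complex.ofReal '' (Set.range ((↑) : ℤ → ℝ)) := by
    ext z
    constructor
    · rintro ⟨n, rfl⟩
      exact ⟨n, ⟨n, rfl⟩, by simp⟩
    · rintro ⟨_, ⟨n, rfl⟩, rfl⟩
      exact ⟨n, by simp⟩
  rw [h1]
  exact (Complex.isometry_ofReal.isClosedEmbedding.isClosedMap _ Int.isClosedEmbedding_coe_real.isClosed_range)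

/-- integers converge to integers, and are eventually constant -/
theorem int_limit {ι : Type*} {l : Filter ι} [l.NeBot] {a : ι → ℂ} {z : ℂ}
    (ha : ∀ᶠ i in l, ∃ n : ℤ, a i = n) (h : Tendsto a l (𝓝 z)) :
    (∃ n : ℤ, z = n) ∧ ∀ᶠ i in l, a i = z := by
  have h1 : z ∈ Set.range ((↑) : ℤ → ℂ) :=
    isClosed_ints.mem_of_tendsto h (ha.mono fun i ⟨n, hn⟩ => ⟨n, hn.symm⟩)
  obtain ⟨n, hn⟩ := h1
  refine ⟨⟨n, hn.symm⟩, ?_⟩
  have h2 := (Metric.tendsto_nhds.1 h) 1 one_pos
  filter_upwards [ha, h2] with i h3 h4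
  obtain ⟨m, hm⟩ := h3
  rw [hm, ← hn, dist_eq_norm, ← Int.cast_sub, Complex.norm_intCast] at h4
  have h5 : |m - n| < 1 := by exact_mod_cast h4
  have h6 : m = n := by
    have := Int.abs_lt_one_iff.1 h5
    omega
  rw [hm, h6, hn]

/-- the functional `f ↦ ∫ f p dρ` is bounded by the mass if `|p| ≤ 1` -/
theorem intL_le (ρ : Measure (UnitAddTorus J)) [IsFiniteMeasure ρ] (p f : C(UnitAddTorus J, ℂ))
    (hp : ‖p‖ ≤ 1) : ‖intL ρ p f‖ ≤ ρ.real Set.univ * ‖f‖ := by
  refine (intL_bound ρ p f).trans ?_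
  have := mul_le_mul_of_nonneg_right (mul_le_mul_of_nonneg_right hp
    (measureReal_nonneg (μ := ρ) (s := Set.univ))) (norm_nonneg f)
  rwa [one_mul] at this

end Pool.Agent.Y798.FC
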