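import Pool.Agent.Y798.FC.Link

/-! The law in the sense of natural density. -/

set_option autoImplicit false

namespace Pool.Agent.Y798.FC

open MeasureTheory UnitAddTorus Filter Topology NumberField IsDedekindDomain
  Pool.Agent.W540.BE Pool.Agent.TH553.RS Pool.Agent.TH553.ST Pool.Agent.Y798.JL
open Pool.Agent.Y139.ID (Good good_ev integrable_cont integrable_cont_real intL)

section
variable {K : Type} [Field K] [NumberField K] {r : ℕ}

theorem mn_add (t u : HeightOneSpectrum (𝓞 K) → ℂ) (n : ℕ) :
    mn (fun v => t v + u v) n = mn t n + mn u n := by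
  unfold mn
  rw [Finset.sum_add_distrib, smul_add]

theorem mn_const_mul (a : ℂ) (t : HeightOneSpectrum (𝓞 K) → ℂ) (n : ℕ) :
    mn (fun v => a * t v) n = a * mn t n := by
  unfold mn
  rw [← Finset.mul_sum, Complex.real_smul, Complex.real_smul]
  ring

theorem mn_sum {κ : Type*} (S : Finset κ) (t : κ → HeightOneSpectrum (𝓞 K) → ℂ) (n : ℕ) :
    mn (fun v => ∑ k ∈ S, t k v) n = ∑ k ∈ S, mn (t k) n := by
  classical
  induction S using Finset.induction_on with
  | empty => simp [mn]
  | insert a S ha ih =>
    simp only [Finset.sum_insert ha]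
    rw [mn_add, ih]

theorem norm_mn_le {t : HeightOneSpectrum (𝓞 K) → ℂ} {B : ℝ} (hB : 0 ≤ B) (ht : ∀ v, ‖t v‖ ≤ B)
    (n : ℕ) : ‖mn t n‖ ≤ B := by
  unfold mn
  rw [norm_smul]
  rcases eq_or_ne ((upto K n).card) 0 with h | h
  · rw [h]
    simp [hB]
  · have hpos : (0 : ℝ) < ((upto K n).card : ℝ) := by
      have : 0 < (upto K n).card := Nat.pos_of_ne_zero h
      exact_mod_cast this
    rw [norm_inv, Real.norm_eq_abs, abs_of_pos hpos, inv_mul_le_iff₀ hpos]
    refine (norm_sum_le _ _).trans ?_
    refine (Finset.sum_le_card_nsmul _ _ B fun v _ => ht v).trans ?_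
    rw [nsmul_eq_mul]

theorem nat_law {W : Subgroup (Auts (Fin r))} (hW : Finite W)
    {θ : HeightOneSpectrum (𝓞 K) → UnitAddTorus (Fin r)} {c : (Fin r → ℤ) → ℤ}
    (hc : ∀ μ, Tendsto (mn fun v => orb W μ (θ v)) atTop (𝓝 (c μ : ℂ)))
    {ρ : Measure (UnitAddTorus (Fin r))} [IsFiniteMeasure ρ]
    (hρ : ∀ μ, ∫ x, mFourier μ x ∂ρ = c μ) {f : UnitAddTorus (Fin r) → ℂ} (hf : Continuous f)
    (hfW : ∀ w ∈ W, ∀ x, f (act w x) = f x) :
    Tendsto (mn fun v => f (θ v)) atTop (𝓝 ((Nat.card W : ℂ)⁻¹ * ∫ x, f x ∂ρ)) := by
  let _ : Fintype W := Fintype.ofFinite W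
  have hcard : (Nat.card W : ℂ) ≠ 0 := by
    have : Nat.card W ≠ 0 := Nat.card_pos.ne'
    exact_mod_cast this
  have h1 := tendsto_of_fourier (l := atTop)
    (M := fun n : ℕ => ({ toFun := fun f : C(UnitAddTorus (Fin r), ℂ) =>
                            mn (fun v => sym W f (θ v)) n
                          map_add' := fun f g => by
                            rw [← mn_add]
                            congr 1
                            funext v
                            simp only [sym, ContinuousMap.add_apply, Finset.sum_add_distrib]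
                          map_smul' := fun a f => by
                            simp only [RingHom.id_apply, smul_eq_mul]
                            rw [← mn_const_mul]
                            congr 1
                            funext v
                            simp only [sym, ContinuousMap.smul_apply, smul_eq_mul,
                              Finset.mul_sum] } : C(UnitAddTorus (Fin r), ℂ) →ₗ[ℂ] ℂ))
    (intL ρ 1) (C := Nat.card W) (D := ρ.real Set.univ)
    (Eventually.of_forall fun n f => norm_mn_le (by positivity) (fun v => sym_norm_le f (θ v)) n)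
    (fun f => intL_le ρ 1 f (by simp))
    (fun μ => by
      rw [intL_apply]
      simp only [ContinuousMap.one_apply, mul_one]
      rw [hρ μ]
      refine (hc μ).congr fun n => ?_
      change _ = mn (fun v => sym W (mFourier μ) (θ v)) n
      congr 1
      funext v
      exact orb_eq' μ (θ v)) ⟨f, hf⟩
  have h2 : Tendsto (mn fun v => sym W f (θ v)) atTop (𝓝 (∫ x, f x ∂ρ)) := by
    have h3 : intL ρ 1 ⟨f, hf⟩ = ∫ x, f x ∂ρ := by
      rw [intL_apply]
      simp
    rw [← h3]
    exact h1
  have h4 := h2.const_mul (Nat.card W : ℂ)⁻¹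
  refine h4.congr fun n => ?_
  rw [← mn_const_mul]
  congr 1
  funext v
  rw [sym_inv W hfW, inv_mul_cancel_left₀ hcard]

end

end Pool.Agent.Y798.FC
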