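import Pool.Agent.Y798.FC.Stm4

/-! The core argument for the twists. -/

set_option autoImplicit false

namespace Pool.Agent.Y798.FC

open Filter Topology MeasureTheory UnitAddTorus NumberField IsDedekindDomain
  Pool.Agent.W540.BE Pool.Agent.TH553.RS Pool.Agent.TH553.ST
  Pool.Agent.Y798.JL Pool.Agent.W401.Cheb ComplexConjugate
open Pool.Agent.Y139.ID (Good good_ev trig continuous_trig trig_single integrable_cont
  integrable_cont_real intL)

section
variable {J : Type} [Fintype J] {W : Subgroup (Auts J)} {Φ : Finset (J → ℤ)}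

theorem zero_of_dens (h0 : ∀ α ∈ Φ, α ≠ 0) {g : UnitAddTorus J → ℂ} (hg : Continuous g)
    (h : ∫ x, ‖g x‖ ^ 2 * dens Φ x ∂(vol J) = 0) : ∀ x, g x = 0 := by
  have hd := continuous_dens Φ
  have h1 := (integral_eq_zero_iff_of_nonneg (f := fun x => ‖g x‖ ^ 2 * dens Φ x)
    (fun x => mul_nonneg (sq_nonneg _) (dens_nonneg _ _))
    (integrable_cont_real _ (by fun_prop))).1 h
  have h2 : g =ᵐ[vol J] fun _ => 0 := by
    filter_upwards [h1, null_dens h0] with x hx hpos
    have h3 : ‖g x‖ ^ 2 * dens Φ x = 0 := hx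
    rcases mul_eq_zero.1 h3 with h4 | h4
    · simpa using h4
    · exact absurd h4 hpos.ne'
  have h3 : g = fun _ => 0 := (Continuous.ae_eq_iff_eq (vol J) hg continuous_const).1 h2
  intro x
  exact congrFun h3 x

theorem int_act (w : Auts J) {F : UnitAddTorus J → ℂ} (hF : Continuous F) :
    ∫ x, F (act w x) ∂(vol J) = ∫ x, F x ∂(vol J) := by
  rw [← integral_map (continuous_act w).measurable.aemeasurable hF.aestronglyMeasurable, vol_map]

/-- invariance of the coefficients -/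
theorem coef_inv (hΦ : IsWeylDatum W Φ) {N : C(UnitAddTorus J, ℂ) → ℂ} {d : (J → ℤ) →₀ ℤ}
    (hN : ∀ f : C(UnitAddTorus J, ℂ), N f = ∫ x, f x * (trig d x * (dens Φ x : ℂ)) ∂(vol J))
    (hNw : ∀ w ∈ W, ∀ f : C(UnitAddTorus J, ℂ), N (f.comp ⟨act w, continuous_act w⟩) = N f) :
    (∀ w ∈ W, ∀ x, trig d (act w x) = trig d x) ∧ ∀ w ∈ W, ∀ μ, d (w μ) = d μ := by
  have hd := continuous_dens Φ
  have ht := continuous_trig d
  have h1 : ∀ w ∈ W, ∀ x, trig d (act w x) = trig d x := by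
    intro w hw x
    -- the inverse
    have hw' : w⁻¹ ∈ W := W.inv_mem hw
    have hww : ∀ x, act w⁻¹ (act w x) = x := fun x => by
      rw [act_mul, mul_inv_cancel, act_one]
    have hc1 := continuous_act (J := J) w
    have hc2 := continuous_act (J := J) w⁻¹
    set g : UnitAddTorus J → ℂ := fun x => trig d (act w x) - trig d x with hg
    have hgc : Continuous g := by
      rw [hg]
      exact (ht.comp hc1).sub ht
    have h2 : ∀ f : C(UnitAddTorus J, ℂ), ∫ x, f x * (g x * (dens Φ x : ℂ)) ∂(vol J) = 0 := by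
      intro f
      have h3 := hNw w⁻¹ hw' f
      rw [hN, hN] at h3
      have h4 : ∫ x, (f.comp ⟨act w⁻¹, continuous_act w⁻¹⟩) x * (trig d x * (dens Φ x : ℂ)) ∂(vol J) =
          ∫ x, f x * (trig d (act w x) * (dens Φ x : ℂ)) ∂(vol J) := by
        rw [← int_act w (F := fun x => (f.comp ⟨act w⁻¹, continuous_act w⁻¹⟩) x *
          (trig d x * (dens Φ x : ℂ))) (by fun_prop)]
        refine integral_congr_ae (Eventually.of_forall fun x => ?_)
        simp only [ContinuousMap.comp_apply, ContinuousMap.coe_mk]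
        rw [hww, hΦ.inv w hw]
      rw [h4] at h3
      have h5 : ∫ x, f x * (g x * (dens Φ x : ℂ)) ∂(vol J) =
          ∫ x, f x * (trig d (act w x) * (dens Φ x : ℂ)) ∂(vol J) -
            ∫ x, f x * (trig d x * (dens Φ x : ℂ)) ∂(vol J) := by
        have i1 : Continuous fun x => trig d (act w x) := ht.comp hc1
        rw [← integral_sub (integrable_cont _ (by fun_prop)) (integrable_cont _ (by fun_prop))]
        refine integral_congr_ae (Eventually.of_forall fun x => ?_)
        simp only [hg]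
        ring
      rw [h5, h3, sub_self]
    have h6 := h2 ⟨fun x => conj (g x), by fun_prop⟩
    have h7 : ∫ x, ‖g x‖ ^ 2 * dens Φ x ∂(vol J) = 0 := by
      have h8 : ((∫ x, ‖g x‖ ^ 2 * dens Φ x ∂(vol J) : ℝ) : ℂ) = 0 := by
        rw [← integral_complex_ofReal, ← h6]
        refine integral_congr_ae (Eventually.of_forall fun x => ?_)
        simp only [ContinuousMap.coe_mk]
        rw [← mul_assoc, ← Complex.normSq_eq_conj_mul_self, Complex.normSq_eq_norm_sq]
        push_cast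
        rfl
      exact_mod_cast h8
    have h9 := zero_of_dens hΦ.ne_zero hgc h7 x
    exact sub_eq_zero.1 h9
  refine ⟨h1, fun w hw μ => ?_⟩
  have h2 := int_trig d (-μ)
  have h3 := int_trig d (-(w μ))
  rw [neg_neg] at h2 h3
  have h4 : ∫ x, mFourier (-(w μ)) x * trig d x ∂(vol J) =
      ∫ x, mFourier (-μ) x * trig d x ∂(vol J) := by
    rw [← int_act w (F := fun x => mFourier (-μ) x * trig d x) (by fun_prop)]
    refine integral_congr_ae (Eventually.of_forall fun x => ?_)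
    simp only
    rw [mF_act, h1 w hw, map_neg]
  rw [h2, h3] at h4
  exact_mod_cast h4

end

section
variable {K : Type} [Field K] [NumberField K] {r : ℕ} {W : Subgroup (Auts (Fin r))}
  {Φ : Finset (Fin r → ℤ)}

theorem cE_congr_lim {t u : HeightOneSpectrum (𝓞 K) → ℂ} (h : ∀ v, t v = u v) {l : Filter ℝ}
    {z : ℂ} (ht : Tendsto (cE t) l (𝓝 z)) : Tendsto (cE u) l (𝓝 z) := by
  have : t = u := funext h
  rwa [← this]

theorem sym_comp [Fintype W] (f : C(UnitAddTorus (Fin r), ℂ)) {w : Auts (Fin r)} (hw : w ∈ W)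
    (x : UnitAddTorus (Fin r)) :
    sym W (f.comp ⟨act w, continuous_act w⟩ : C(UnitAddTorus (Fin r), ℂ)) x = sym W f x := by
  unfold sym
  refine Fintype.sum_equiv (Equiv.mulRight (⟨w, hw⟩ : W)) _ _ fun w' => ?_
  simp only [ContinuousMap.comp_apply, ContinuousMap.coe_mk, act_mul]
  rfl

/-- **The twisted means vanish.** -/
theorem one (hfix : StmFix) (hfv : StmFV) (horb : StmOrb) (hfun : StmFun) (htr : StmTrans)
    (hΦ : IsWeylDatum W Φ) (hNI : NoInv W) {θ : HeightOneSpectrum (𝓞 K) → UnitAddTorus (Fin r)}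
    (hθ : DLaw W Φ θ) {h : HeightOneSpectrum (𝓞 K) → ℂ} {S : Finset ℝ}
    (hS : ∀ v, ‖h v‖ ^ 2 ∈ S)
    (h2 : Tendsto (cE fun v => ((‖h v‖ ^ 2 : ℝ) : ℂ)) (𝓝[>] 0) (𝓝 1))
    (h0 : Tendsto (cE h) (𝓝[>] 0) (𝓝 0))
    (hn : ∀ μ, ∃ n : ℤ, Tendsto (cE fun v => msum W μ (θ v) * h v) (𝓝[>] 0) (𝓝 (n : ℂ)))
    (μ : Fin r → ℤ) :
    Tendsto (cE fun v => msum W μ (θ v) * h v) (𝓝[>] 0) (𝓝 0) := by
  classical
  have hWfin := hΦ.fin
  let _ : Fintype W := Fintype.ofFinite W
  have hcard : (Nat.card W : ℂ) ≠ 0 := by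
    have : Nat.card W ≠ 0 := Nat.card_pos.ne'
    exact_mod_cast this
  have hcardR : (0 : ℝ) < Nat.card W := by exact_mod_cast Nat.card_pos
  obtain ⟨-, hst0, -, horbm, hdec⟩ := horb (Fin r) W hWfin
  choose n hn' using hn
  -- a bound
  set B : ℝ := 1 + ∑ s ∈ S, |s| with hB
  have hhB : ∀ v, ‖h v‖ ≤ B := by
    intro v
    have h3 : ‖h v‖ ^ 2 ≤ ∑ s ∈ S, |s| := by
      refine (le_abs_self _).trans ?_
      exact Finset.single_le_sum (f := fun s : ℝ => |s|) (fun s _ => abs_nonneg s) (hS v)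
    nlinarith [norm_nonneg (h v), sq_nonneg (‖h v‖ - 1)]
  have hB0 : 0 ≤ B := by
    rw [hB]
    have : 0 ≤ ∑ s ∈ S, |s| := Finset.sum_nonneg fun s _ => abs_nonneg s
    linarith
  set U := Ultrafilter.of (𝓝[>] (0 : ℝ)) with hUdef
  have hU : (U : Filter ℝ) ≤ 𝓝[>] 0 := Ultrafilter.of_le _
  obtain ⟨N, hN1, hN2, hN3⟩ := hfun K r W Φ hΦ θ hθ h B hhB h2 U hU
  -- integrality
  have hNμ : ∀ μ, N (mFourier μ) = (stab W μ : ℂ) * n μ := by
    intro μ
    refine tendsto_nhds_unique (hN1 (mFourier μ)) ?_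
    have h3 := ((hn' μ).mono_left hU).const_mul (stab W μ : ℂ)
    refine h3.congr fun ε => ?_
    rw [← cE_const_mul]
    congr 1
    funext v
    have h4 : sym W (mFourier μ) (θ v) = orb W μ (θ v) := (orb_eq' μ _).symm
    rw [h4, horbm]
    ring
  obtain ⟨d, hd⟩ := hfix (Fin r) Φ hΦ.ne_zero (Nat.card W) B hcardR.le hB0 N hN2 hN3 (fun μ =>
    ⟨stab W μ * n μ, by rw [hNμ]; push_cast; ring⟩)
  set T : UnitAddTorus (Fin r) → ℂ := trig d with hT
  have hTc : Continuous T := continuous_trig d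
  have hdc := continuous_dens Φ
  obtain ⟨hTinv, hdinv⟩ := coef_inv hΦ (N := N) hd (fun w hw f => by
    refine tendsto_nhds_unique (hN1 _) ((hN1 f).congr fun ε => ?_)
    congr 1
    funext v
    rw [sym_comp f hw])
  obtain ⟨R, b, hb⟩ := hdec d hdinv
  -- the number J
  set Jr : ℝ := (Nat.card W : ℝ)⁻¹ * ∫ x, ‖T x‖ ^ 2 * dens Φ x ∂(vol (Fin r)) with hJr
  have hJ0 : 0 ≤ Jr := by
    rw [hJr]
    refine mul_nonneg (inv_nonneg.2 hcardR.le) (integral_nonneg fun x => ?_)
    exact mul_nonneg (sq_nonneg _) (dens_nonneg _ _)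
  have hTT : Tendsto (cE fun v => ((‖T (θ v)‖ ^ 2 : ℝ) : ℂ)) (𝓝[>] 0) (𝓝 (Jr : ℂ)) := by
    have hTinv' : ∀ w ∈ W, ∀ x, T (act w x) = T x := hTinv
    have h3 := hθ (fun x => ((‖T x‖ ^ 2 : ℝ) : ℂ)) (by fun_prop) (fun w hw x => by
      rw [hTinv' w hw])
    have h4 : ((Nat.card W : ℂ)⁻¹ * ∫ x, ((‖T x‖ ^ 2 : ℝ) : ℂ) * (dens Φ x : ℂ) ∂(vol (Fin r))) =
        (Jr : ℂ) := by
      rw [hJr]
      push_cast
      rw [← integral_complex_ofReal]
      congr 1
      refine integral_congr_ae (Eventually.of_forall fun x => ?_)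
      push_cast
      rfl
    rwa [h4] at h3
  -- the integer
  have hsumj : Tendsto (cE fun v => conj (T (θ v)) * h v) (𝓝[>] 0)
      (𝓝 (∑ μ ∈ R, (b μ : ℂ) * n μ)) := by
    have h3 : Tendsto (fun ε => ∑ μ ∈ R, (b μ : ℂ) * cE (fun v => msum W μ (θ v) * h v) ε) (𝓝[>] 0)
        (𝓝 (∑ μ ∈ R, (b μ : ℂ) * n μ)) :=
      tendsto_finsetSum _ fun μ _ => (hn' μ).const_mul _
    refine h3.congr' ?_
    filter_upwards [good_ev (K := K)] with ε hε
    have hm : ∀ μ ∈ R, ∃ C : ℝ, ∀ v, ‖msum W μ (θ v) * h v‖ ≤ C := by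
      intro μ _
      refine ⟨(Nat.card W : ℝ) * B, fun v => ?_⟩
      rw [norm_mul]
      refine mul_le_mul ?_ (hhB v) (norm_nonneg _) hcardR.le
      have h4 := norm_orb_le hWfin μ (θ v)
      rw [horbm, norm_mul, Complex.norm_natCast] at h4
      have h5 : (1 : ℝ) ≤ stab W μ := by exact_mod_cast hst0 μ
      have h6 : ‖msum W μ (θ v)‖ ≤ (stab W μ : ℝ) * ‖msum W μ (θ v)‖ :=
        le_mul_of_one_le_left (norm_nonneg _) h5
      exact h6.trans h4
    have hsum : ∀ R' ⊆ R, ∑ μ ∈ R', (b μ : ℂ) * cE (fun v => msum W μ (θ v) * h v) ε =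
        cE (fun v => ∑ μ ∈ R', (b μ : ℂ) * (msum W μ (θ v) * h v)) ε := by
      intro R'
      induction R' using Finset.induction_on with
      | empty =>
        intro _
        simp [cE]
      | insert a s ha ih =>
        intro hsub
        have has : ∀ μ ∈ insert a s, μ ∈ R := fun μ hμ => hsub hμ
        rw [Finset.sum_insert ha, ih fun μ hμ => has μ (Finset.mem_insert_of_mem hμ)]
        obtain ⟨C, hC⟩ := hm a (has a (Finset.mem_insert_self _ _))
        have hbd : ∃ C' : ℝ, ∀ v, ‖∑ μ ∈ s, (b μ : ℂ) * (msum W μ (θ v) * h v)‖ ≤ C' := by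
          have h7 : ∀ μ, ∃ C : ℝ, μ ∈ s → ∀ v, ‖msum W μ (θ v) * h v‖ ≤ C := by
            intro μ
            by_cases hμ : μ ∈ s
            · obtain ⟨C, hC⟩ := hm μ (has μ (Finset.mem_insert_of_mem hμ))
              exact ⟨C, fun _ => hC⟩
            · exact ⟨0, fun h => absurd h hμ⟩
          choose Cμ hCμ using h7
          refine ⟨∑ μ ∈ s, ‖(b μ : ℂ)‖ * Cμ μ, fun v => (norm_sum_le _ _).trans ?_⟩
          refine Finset.sum_le_sum fun μ hμ => ?_
          rw [norm_mul]
          exact mul_le_mul_of_nonneg_left (hCμ μ hμ v) (norm_nonneg _)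
        obtain ⟨C', hC'⟩ := hbd
        have h8 := cE_add hε (t := fun v => (b a : ℂ) * (msum W a (θ v) * h v))
          (u := fun v => ∑ μ ∈ s, (b μ : ℂ) * (msum W μ (θ v) * h v)) (B := ‖(b a : ℂ)‖ * C)
          (fun v => by
            rw [norm_mul]
            exact mul_le_mul_of_nonneg_left (hC v) (norm_nonneg _)) hC'
        rw [cE_const_mul] at h8
        rw [← h8]
        congr 1
        funext v
        rw [Finset.sum_insert ha]
    rw [hsum R subset_rfl]
    congr 1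
    funext v
    rw [hT, hb, Finset.sum_mul]
    exact Finset.sum_congr rfl fun μ _ => by ring
  have hJj : (Jr : ℂ) = ∑ μ ∈ R, (b μ : ℂ) * n μ := by
    have h3 := hN1 ⟨fun x => conj (T x), by fun_prop⟩
    rw [hd] at h3
    have hTinv' : ∀ w ∈ W, ∀ x, T (act w x) = T x := hTinv
    have h4 : ∫ x, (⟨fun x => conj (T x), by fun_prop⟩ : C(UnitAddTorus (Fin r), ℂ)) x *
        (T x * (dens Φ x : ℂ)) ∂(vol (Fin r)) = (Nat.card W : ℂ) * (Jr : ℂ) := by
      rw [hJr]
      push_cast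
      rw [mul_inv_cancel_left₀ hcard, ← integral_complex_ofReal]
      refine integral_congr_ae (Eventually.of_forall fun x => ?_)
      simp only [ContinuousMap.coe_mk]
      rw [← mul_assoc, ← Complex.normSq_eq_conj_mul_self, Complex.normSq_eq_norm_sq]
      push_cast
      rfl
    rw [h4] at h3
    have h5 := (hsumj.mono_left hU).const_mul (Nat.card W : ℂ)
    have h6 := tendsto_nhds_unique h3 (h5.congr fun ε => by
      rw [← cE_const_mul]
      congr 1
      funext v
      rw [← mul_assoc]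
      congr 1
      refine (sym_inv W (f := fun x => conj (T x)) (fun w hw x => ?_) (θ v)).symm
      rw [hTinv' w hw])
    exact mul_left_cancel₀ hcard h6
  set j : ℤ := ∑ μ ∈ R, b μ * n μ with hj
  have hJj' : Jr = (j : ℝ) := by
    have h3 : (Jr : ℂ) = (j : ℂ) := by
      rw [hJj, hj]
      push_cast
      rfl
    exact_mod_cast h3
  -- the mean of |h - T|²
  have hconj : Tendsto (cE fun v => conj (T (θ v)) * h v) (𝓝[>] 0) (𝓝 (Jr : ℂ)) := by
    rw [hJj]
    exact hsumj
  obtain ⟨CT, hCT⟩ := isCompact_univ.exists_bound_of_continuousOn (f := T) hTc.continuousOn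
  have hTb : ∀ v, ‖T (θ v)‖ ≤ CT := fun v => hCT _ (Set.mem_univ _)
  have hCT0 : 0 ≤ CT := (norm_nonneg _).trans (hCT 0 (Set.mem_univ _))
  have hdiff : Tendsto (cE fun v => ((‖h v - T (θ v)‖ ^ 2 : ℝ) : ℂ)) (𝓝[>] 0)
      (𝓝 ((1 - Jr : ℝ) : ℂ)) := by
    -- real parts
    have k1 := (Complex.continuous_re.tendsto _).comp h2
    have k2 := (Complex.continuous_re.tendsto _).comp hTT
    have k3 := (Complex.continuous_re.tendsto _).comp hconj
    rw [Complex.ofReal_re] at k2 k3
    have k4 := ((k1.add k2).sub (k3.const_mul 2))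
    have k5 : (Complex.re 1 + Jr - 2 * Jr) = 1 - Jr := by rw [Complex.one_re]; ring
    rw [k5] at k4
    have k6 := (Complex.continuous_ofReal.tendsto _).comp k4
    refine k6.congr' ?_
    filter_upwards [good_ev (K := K)] with ε hε
    simp only [Function.comp]
    have b1 : ∀ v, ‖((‖h v‖ ^ 2 : ℝ) : ℂ)‖ ≤ B ^ 2 := fun v => by
      rw [Complex.norm_real, Real.norm_eq_abs, abs_of_nonneg (sq_nonneg _)]
      exact pow_le_pow_left₀ (norm_nonneg _) (hhB v) 2
    have b2 : ∀ v, ‖((‖T (θ v)‖ ^ 2 : ℝ) : ℂ)‖ ≤ CT ^ 2 := fun v => by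
      rw [Complex.norm_real, Real.norm_eq_abs, abs_of_nonneg (sq_nonneg _)]
      exact pow_le_pow_left₀ (norm_nonneg _) (hTb v) 2
    have b3 : ∀ v, ‖conj (T (θ v)) * h v‖ ≤ CT * B := fun v => by
      rw [norm_mul, RCLike.norm_conj]
      exact mul_le_mul (hTb v) (hhB v) (norm_nonneg _) hCT0
    have b3' : ∀ v, ‖(((conj (T (θ v)) * h v).re : ℝ) : ℂ)‖ ≤ CT * B := fun v => by
      rw [Complex.norm_real]
      exact (Complex.abs_re_le_norm _).trans (b3 v)
    have e3 : (cE (fun v => conj (T (θ v)) * h v) ε).re =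
        (cE (fun v => (((conj (T (θ v)) * h v).re : ℝ) : ℂ)) ε).re := by
      rw [cE_re hε b3, cE_re hε b3']
      rfl
    have him0 : ∀ (t : HeightOneSpectrum (𝓞 K) → ℝ) (C : ℝ), (∀ v, ‖(t v : ℂ)‖ ≤ C) →
        (((cE (fun v => (t v : ℂ)) ε).re : ℝ) : ℂ) = cE (fun v => (t v : ℂ)) ε := by
      intro t C hC
      refine Complex.ext (by rw [Complex.ofReal_re]) ?_
      rw [Complex.ofReal_im, cE_im hε hC, Pool.Agent.Y139.ID.avg_eq]
      simp
    rw [e3]
    push_cast
    rw [him0 _ _ b3']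
    have e1 := him0 (fun v => ‖h v‖ ^ 2) (B ^ 2) b1
    have e2 := him0 (fun v => ‖T (θ v)‖ ^ 2) (CT ^ 2) b2
    push_cast at e1 e2
    rw [e1, e2]
    have e4 : cE (fun v => ((‖h v‖ : ℂ) ^ 2)) ε + cE (fun v => ((‖T (θ v)‖ : ℂ) ^ 2)) ε -
        2 * cE (fun v => (((conj (T (θ v)) * h v).re : ℝ) : ℂ)) ε =
        cE (fun v => ((‖h v‖ : ℂ) ^ 2) + ((‖T (θ v)‖ : ℂ) ^ 2)) ε +
          cE (fun v => (-2 : ℂ) * (((conj (T (θ v)) * h v).re : ℝ) : ℂ)) ε := by
      rw [cE_add hε (B := B ^ 2) (C := CT ^ 2) (fun v => by simpa using b1 v)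
        (fun v => by simpa using b2 v), cE_const_mul]
      ring
    rw [e4, ← cE_add hε (B := B ^ 2 + CT ^ 2) (C := 2 * (CT * B)) (fun v => by
        refine (norm_add_le _ _).trans (add_le_add ?_ ?_)
        · simpa using b1 v
        · simpa using b2 v) (fun v => by
        rw [norm_mul]
        simpa using b3' v)]
    congr 1
    funext v
    have e5 : ‖h v - T (θ v)‖ ^ 2 = ‖h v‖ ^ 2 + ‖T (θ v)‖ ^ 2 - 2 * (conj (T (θ v)) * h v).re := by
      rw [← Complex.normSq_eq_norm_sq, ← Complex.normSq_eq_norm_sq, ← Complex.normSq_eq_norm_sq,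
        Complex.normSq_sub]
      congr 2
      rw [mul_comm]
    have e6 : ((‖h v - T (θ v)‖ : ℂ)) ^ 2 = ((‖h v - T (θ v)‖ ^ 2 : ℝ) : ℂ) := by push_cast; rfl
    rw [e6, e5]
    push_cast
    ring
  have hJ1 : Jr ≤ 1 := by
    have h3 := (Complex.continuous_re.tendsto _).comp hdiff
    rw [Complex.ofReal_re] at h3
    have h4 : 0 ≤ 1 - Jr := by
      refine ge_of_tendsto h3 ?_
      filter_upwards [good_ev (K := K)] with ε hε
      simp only [Function.comp]
      rw [cE_re hε (B := (B + CT) ^ 2) (fun v => by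
        rw [Complex.norm_real, Real.norm_eq_abs, abs_of_nonneg (sq_nonneg _)]
        refine pow_le_pow_left₀ (norm_nonneg _) ?_ 2
        exact (norm_sub_le _ _).trans (add_le_add (hhB v) (hTb v))),
        Pool.Agent.Y139.ID.avg_eq]
      refine tsum_nonneg fun v => mul_nonneg (Pool.Agent.Y139.ID.wt_nonneg hε v) ?_
      rw [Complex.ofReal_re]
      exact sq_nonneg _
    linarith
  -- the two cases
  have hcases : Jr = 0 ∨ Jr = 1 := by
    have h3 : 0 ≤ j := by
      have : (0 : ℝ) ≤ j := by rw [← hJj']; exact hJ0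
      exact_mod_cast this
    have h4 : j ≤ 1 := by
      have : (j : ℝ) ≤ 1 := by rw [← hJj']; exact hJ1
      exact_mod_cast this
    have h5 : j = 0 ∨ j = 1 := by omega
    rcases h5 with h5 | h5
    · left
      rw [hJj', h5]
      simp
    · right
      rw [hJj', h5]
      simp
  rcases hcases with hJ | hJ
  · -- the functional vanishes
    have h3 : ∫ x, ‖T x‖ ^ 2 * dens Φ x ∂(vol (Fin r)) = 0 := by
      rw [hJr] at hJ
      rcases mul_eq_zero.1 hJ with h4 | h4
      · exact absurd h4 (inv_ne_zero hcardR.ne')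
      · exact h4
    have h4 := zero_of_dens hΦ.ne_zero hTc h3
    have h5 : N (mFourier μ) = 0 := by
      rw [hd]
      have : ∀ x, (mFourier μ : C(UnitAddTorus (Fin r), ℂ)) x * (T x * (dens Φ x : ℂ)) = 0 := by
        intro x
        rw [h4 x]
        ring
      simp only [this, integral_zero]
    rw [hNμ] at h5
    have h6 : (n μ : ℂ) = 0 := by
      rcases mul_eq_zero.1 h5 with h7 | h7
      · have : stab W μ = 0 := by exact_mod_cast h7
        have := hst0 μ
        omega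
      · exact h7
    have h7 := hn' μ
    rwa [h6] at h7
  · exfalso
    have h3 : Tendsto (cE fun v => ((‖h v - T (θ v)‖ ^ 2 : ℝ) : ℂ)) (𝓝[>] 0) (𝓝 0) := by
      have := hdiff
      rw [hJ, sub_self, Complex.ofReal_zero] at this
      exact this
    have h4 := htr K r W Φ hΦ θ hθ h S hS T hTc hTinv h3
    obtain ⟨s, hs⟩ := (hfv (Fin r) d).1 S h4
    have h5 : s = 1 := by
      rw [hJr] at hJ
      have h6 : ∫ x, ‖T x‖ ^ 2 * dens Φ x ∂(vol (Fin r)) = s * Nat.card W := by
        have h7 : ∀ x, ‖T x‖ ^ 2 * dens Φ x = s * dens Φ x := fun x => by rw [hT, hs]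
        simp only [h7]
        rw [integral_const_mul, hΦ.mass]
      rw [h6] at hJ
      field_simp at hJ
      exact hJ
    have h6 : ∀ x, ‖trig d x‖ = 1 := by
      intro x
      have h7 := hs x
      rw [h5] at h7
      exact (pow_eq_one_iff_of_nonneg (norm_nonneg _) two_ne_zero).1 h7
    obtain ⟨γ, e, he, hde⟩ := (hfv (Fin r) d).2 h6
    have he0 : e ≠ 0 := by rcases he with rfl | rfl <;> norm_num
    have hγ : γ = 0 := by
      refine hNI γ fun w hw => ?_
      have h7 := hdinv w hw γ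
      rw [hde, Finsupp.single_eq_same, Finsupp.single_apply] at h7
      by_contra hne
      rw [if_neg (fun h => hne h.symm)] at h7
      exact he0 h7.symm
    have hTe : ∀ x, T x = e := by
      intro x
      rw [hT, hde, trig_single, hγ, mFourier_zero]
      simp
    have h7 : Tendsto (cE fun v => conj (T (θ v)) * h v) (𝓝[>] 0) (𝓝 ((e : ℂ) * 0)) := by
      refine (h0.const_mul (e : ℂ)).congr fun ε => ?_
      rw [← cE_const_mul]
      congr 1
      funext v
      rw [hTe, map_intCast]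
    have h8 := tendsto_nhds_unique hconj h7
    rw [hJ, mul_zero, Complex.ofReal_one] at h8
    exact one_ne_zero h8

end

end Pool.Agent.Y798.FC
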