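import Pool.Agent.Y798.FC.Nat

/-! The structure of the law, and symmetry. -/

set_option autoImplicit false

namespace Pool.Agent.Y798.FC

open MeasureTheory UnitAddTorus Filter Topology
open Pool.Agent.Y139.ID (integrable_cont integrable_cont_real intL IsHaarOn annih
  measure_ext_fourier mFourier_apply_add exists_haarOn isClosed_annih mem_annih)

theorem struct_law (hdiv : StmDiv) (hstr : StmStr) {r : ℕ} {W : Subgroup (Auts (Fin r))}
    {Φ : Finset (Fin r → ℤ)} (hΦ : IsWeylDatum W Φ) :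
    ∃ F : Finset (Fin r → ℤ), ∀ ρ : Measure (UnitAddTorus (Fin r)), IsFiniteMeasure ρ →
      (∀ μ : Fin r → ℤ, ∃ n : ℤ, ∫ x, mFourier μ x ∂ρ = n) →
      (∀ μ ∈ F, ∫ x, mFourier μ x ∂ρ = dC Φ μ) →
      ∃ (Γ : AddSubgroup (Fin r → ℤ)) (a : UnitAddTorus (Fin r)), IsCosetLaw Φ Γ a ρ := by
  classical
  obtain ⟨F1, hF1⟩ := isolate hdiv hΦ.ne_zero
  set S := (finite_dC Φ).toFinset with hS
  have hSm : ∀ μ, dC Φ μ ≠ 0 → μ ∈ S := fun μ hμ => by
    rw [hS, Set.Finite.mem_toFinset]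
    exact hμ
  refine ⟨F1 ∪ S ∪ (S ×ˢ S).image (fun p => p.1 - p.2), fun ρ hfin hint hFρ => ?_⟩
  have hF1' : ∀ μ ∈ F1, ∫ x, mFourier μ x ∂ρ = dC Φ μ := fun μ hμ =>
    hFρ μ (Finset.mem_union_left _ (Finset.mem_union_left _ hμ))
  have hiso := hF1 ρ hfin hint hF1'
  obtain ⟨Γ, a, hΓ, ha, hlaw⟩ := hstr (Fin r) Φ hΦ.ne_zero ρ hint
    (fun μ hμ => hFρ μ (Finset.mem_union_left _ (Finset.mem_union_right _ (hSm μ hμ))))
    (fun μ ν' hμ hν' => hFρ _ (Finset.mem_union_right _ (Finset.mem_image.2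
      ⟨(μ, ν'), Finset.mem_product.2 ⟨hSm μ hμ, hSm ν' hν'⟩, rfl⟩)))
    (fun κ hκ => by
      obtain ⟨γ, h1, h2⟩ := hiso (intL ρ (mFourier κ)) (fun f => by
        rw [intL_apply]
        refine (norm_integral_le_integral_norm _).trans (le_of_eq ?_)
        refine integral_congr_ae (Eventually.of_forall fun x => ?_)
        simp only [norm_mul, norm_mF, mul_one]) (fun μ => by
        rw [intL_apply]
        simp only [← mFourier_add]
        exact hint _) (by
        rw [intL_apply]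
        simp only [← mFourier_add, zero_add]
        exact hκ)
      refine ⟨γ, h1, ?_⟩
      rw [intL_apply] at h2
      simp only [← mFourier_add] at h2
      rwa [neg_add_eq_sub] at h2)
  exact ⟨Γ, a, hΓ, ha, hlaw⟩

section
variable {J : Type} [Fintype J] {W : Subgroup (Auts J)} {Φ : Finset (J → ℤ)}

theorem vol_map (w : Auts J) : (vol J).map (act w) = vol J := by
  have : IsFiniteMeasure ((vol J).map (act w)) := Measure.isFiniteMeasure_map _ _
  refine measure_ext_fourier fun n => ?_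
  rw [integral_map (continuous_act w).measurable.aemeasurable
    (mFourier n).continuous.aestronglyMeasurable]
  simp only [mF_act]
  rw [int_mFourier, int_mFourier]
  by_cases h : n = 0
  · rw [h, map_zero]
  · rw [if_neg h, if_neg fun h' => h ((map_eq_zero_iff w w.injective).1 h')]

theorem dC_inv (hΦ : IsWeylDatum W Φ) {w : Auts J} (hw : w ∈ W) (μ : J → ℤ) :
    dC Φ (w μ) = dC Φ μ := by
  have h1 : dC Φ (w μ) = ∫ x, (fun y => mFourier μ y * (dens Φ y : ℂ)) (act w x) ∂(vol J) := by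
    unfold dC
    refine integral_congr_ae (Eventually.of_forall fun x => ?_)
    simp only
    rw [mF_act, hΦ.inv w hw]
  rw [h1, ← integral_map (f := fun y => mFourier μ y * (dens Φ y : ℂ))
    (continuous_act w).measurable.aemeasurable, vol_map]
  · rfl
  · have := continuous_dens Φ
    exact (Continuous.aestronglyMeasurable (by fun_prop))

theorem orb_mean (hΦ : IsWeylDatum W Φ) (μ : J → ℤ) :
    ∫ x, orb W μ x * (dens Φ x : ℂ) ∂(vol J) = (Nat.card W : ℂ) * dC Φ μ := by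
  have hWfin := hΦ.fin
  let _ : Fintype W := Fintype.ofFinite W
  have hd := continuous_dens Φ
  have h1 : ∀ x, orb W μ x * (dens Φ x : ℂ) =
      ∑ w : W, mFourier ((w : Auts J) μ) x * (dens Φ x : ℂ) := fun x => by
    rw [orb_eq, Finset.sum_mul]
  simp only [h1]
  rw [integral_finsetSum _ fun w _ => integrable_cont _ (by fun_prop)]
  have h2 : ∀ w : W, ∫ x, mFourier ((w : Auts J) μ) x * (dens Φ x : ℂ) ∂(vol J) = dC Φ μ :=
    fun w => dC_inv hΦ w.2 μ
  rw [Finset.sum_congr rfl fun w _ => h2 w, Finset.sum_const, Finset.card_univ, nsmul_eq_mul,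
    Nat.card_eq_fintype_card]

end

section
variable {r : ℕ} {W : Subgroup (Auts (Fin r))} {Φ : Finset (Fin r → ℤ)}

/-- the group of characters is stable under `W` -/
theorem coset_stable {Γ : AddSubgroup (Fin r → ℤ)} {a : UnitAddTorus (Fin r)}
    {ρ : Measure (UnitAddTorus (Fin r))} [IsFiniteMeasure ρ] (h : IsCosetLaw Φ Γ a ρ)
    (hW : ∀ w ∈ W, ∀ μ : Fin r → ℤ, ∫ x, mFourier (w μ) x ∂ρ = ∫ x, mFourier μ x ∂ρ) :
    ∀ w ∈ W, ∀ γ ∈ Γ, w γ ∈ Γ := by
  intro w hw γ hγ
  rw [h.1, hW w hw]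
  exact (h.1 γ).1 hγ

/-- the values of the characters at `a` -/
theorem coset_value {Γ : AddSubgroup (Fin r → ℤ)} {a : UnitAddTorus (Fin r)}
    {ρ : Measure (UnitAddTorus (Fin r))} [IsFiniteMeasure ρ] (h : IsCosetLaw Φ Γ a ρ)
    {γ : Fin r → ℤ} (hγ : γ ∈ Γ) : ∫ x, mFourier γ x ∂ρ = mFourier γ a * (ρ.real Set.univ : ℂ) := by
  obtain ⟨σ, hσ, -⟩ := exists_haarOn (annih Γ) (isClosed_annih Γ)
  have := hσ.isProb
  have h1 := h.2.2 σ hσ (mFourier γ) (by fun_prop)
  have h2 := h.2.2 σ hσ (fun _ => 1) (by fun_prop)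
  have hae : ∀ᵐ x ∂σ, x ∈ annih Γ := by
    rw [ae_iff]
    exact hσ.supp
  have h3 : ∫ x, mFourier γ (a + x) * (dens Φ (a + x) : ℂ) ∂σ =
      mFourier γ a * ∫ x, (1 : ℂ) * (dens Φ (a + x) : ℂ) ∂σ := by
    rw [← integral_const_mul]
    refine integral_congr_ae ?_
    filter_upwards [hae] with x hx
    rw [mFourier_apply_add, mem_annih.1 hx γ hγ]
    ring
  rw [h1, h3, ← h2]
  simp

end

end Pool.Agent.Y798.FC
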