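import Pool.Agent.Y798.FC.Law2

/-! Euler products and mean values. -/

set_option autoImplicit false

namespace Pool.Agent.Y798.FC

open MeasureTheory UnitAddTorus Filter Topology NumberField IsDedekindDomain
  Pool.Agent.W540.BE Pool.Agent.TH553.RS Pool.Agent.TH553.ST Pool.Agent.Y798.JL
open Pool.Agent.Y139.ID (Good good_ev)

section
variable {K : Type} [Field K] [NumberField K] {κ : Type}

/-- the Euler product `∏_v ∏_{k ∈ S} (1 - β_k(v) q_v^{-s})⁻¹` -/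
noncomputable def eulerL (S : Finset κ) (β : HeightOneSpectrum (𝓞 K) → κ → ℂ) (s : ℂ) : ℂ :=
  ∏' v : HeightOneSpectrum (𝓞 K),
    (∏ k ∈ S, (1 - β v k * (Ideal.absNorm v.asIdeal : ℂ) ^ (-s)))⁻¹

/-- `L` has a meromorphic continuation to a neighbourhood of `s₀` -/
def ContAt (L : ℂ → ℂ) (s₀ : ℂ) : Prop :=
  ∃ Λ : ℂ → ℂ, MeromorphicAt Λ s₀ ∧ ∀ᶠ s in 𝓝 s₀, 1 < s.re → Λ s = L s

/-- the meromorphic continuation of `L` has a pole of order `m` at `s₀` -/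
def PoleAt (L : ℂ → ℂ) (s₀ : ℂ) (m : ℤ) : Prop :=
  ∃ Λ : ℂ → ℂ, MeromorphicAt Λ s₀ ∧ (∀ᶠ s in 𝓝 s₀, 1 < s.re → Λ s = L s) ∧
    meromorphicOrderAt Λ s₀ = ((-m : ℤ) : WithTop ℤ)

variable {S : Finset κ} {β : HeightOneSpectrum (𝓞 K) → κ → ℂ} (hβ : ∀ v, ∀ k ∈ S, ‖β v k‖ = 1)

open Classical in
/-- the diagonal matrices -/
noncomputable def dm (S : Finset κ) (β : HeightOneSpectrum (𝓞 K) → κ → ℂ)
    (v : HeightOneSpectrum (𝓞 K)) : Matrix S S ℂ := Matrix.diagonal fun k => β v k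

open Classical in
include hβ in
theorem dm_mem (v : HeightOneSpectrum (𝓞 K)) : dm S β v ∈ Matrix.unitaryGroup S ℂ := by
  rw [Matrix.mem_unitaryGroup_iff, Matrix.star_eq_conjTranspose]
  unfold dm
  rw [Matrix.diagonal_conjTranspose, Matrix.diagonal_mul_diagonal, ← Matrix.diagonal_one]
  congr 1
  funext k
  simp only [Pi.star_apply, RCLike.star_def]
  rw [Complex.mul_conj, Complex.normSq_eq_norm_sq, hβ v k k.2]
  simp

open Classical in
theorem dm_trace (v : HeightOneSpectrum (𝓞 K)) : (dm S β v).trace = ∑ k ∈ S, β v k := by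
  unfold dm
  rw [Matrix.trace_diagonal]
  exact Finset.sum_coe_sort S (fun k => β v k)

open Classical in
theorem dm_LU (s : ℂ) : LU (dm S β) s = eulerL S β s := by
  unfold LU eulerL
  refine tprod_congr fun v => ?_
  congr 1
  have h1 : (1 - (((nm K v : ℕ) : ℂ) ^ (-s)) • dm S β v) =
      Matrix.diagonal fun k : S => 1 - β v k * (Ideal.absNorm v.asIdeal : ℂ) ^ (-s) := by
    unfold dm
    rw [← Matrix.diagonal_one, ← Matrix.diagonal_smul, Matrix.diagonal_sub]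
    congr 1
    funext k
    simp only [Pi.smul_apply, smul_eq_mul]
    rw [mul_comm]
    rfl
  rw [h1, Matrix.det_diagonal]
  exact Finset.prod_coe_sort S (fun k => 1 - β v k * (Ideal.absNorm v.asIdeal : ℂ) ^ (-s))

include hβ in
theorem norm_tr_le (v : HeightOneSpectrum (𝓞 K)) : ‖∑ k ∈ S, β v k‖ ≤ S.card := by
  refine (norm_sum_le _ _).trans ?_
  rw [Finset.sum_congr rfl fun k hk => hβ v k hk]
  simp

include hβ in
/-- the order is the mean value -/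
theorem pole_mean (him : StmIm) {τ : ℝ} {Λ : ℂ → ℂ} (h1 : MeromorphicAt Λ (1 + τ * Complex.I))
    (h2 : ∀ᶠ s in 𝓝 ((1 : ℂ) + τ * Complex.I), 1 < s.re → Λ s = eulerL S β s) :
    ∃ m : ℤ, meromorphicOrderAt Λ (1 + τ * Complex.I) = ((-m : ℤ) : WithTop ℤ) ∧
      Tendsto (cE fun v => (∑ k ∈ S, β v k) * ht τ v) (𝓝[>] 0) (𝓝 (m : ℂ)) := by
  classical
  have h2' : ∀ᶠ s in 𝓝 ((1 : ℂ) + τ * Complex.I), (1 : ℝ) < s.re → Λ s = LU (dm S β) s := by
    filter_upwards [h2] with s hs h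
    rw [dm_LU, hs h]
  obtain ⟨m, h3, h4⟩ := order_LU (dm_mem hβ) h1 h2'
  have h5 := him K S (dm S β) (dm_mem hβ) τ Λ h1 h2'
  simp only [dm_trace] at h4 h5
  refine ⟨-m, by rw [neg_neg]; exact h3, ?_⟩
  have h6 := cE_of_qt (t := fun v => (∑ k ∈ S, β v k) * ht τ v) (B := S.card) (fun v => by
    rw [norm_mul, norm_ht, mul_one]
    exact norm_tr_le hβ v) (a := -(m : ℝ)) (b := 0) h4 h5
  have h7 : (((-(m : ℝ) : ℝ) : ℂ) + ((0 : ℝ) : ℂ) * Complex.I) = ((-m : ℤ) : ℂ) := by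
    push_cast
    ring
  rwa [h7] at h6

include hβ in
theorem cont_mean (him : StmIm) {τ : ℝ} (h : ContAt (eulerL S β) (1 + τ * Complex.I)) :
    ∃ m : ℤ, PoleAt (eulerL S β) (1 + τ * Complex.I) m ∧
      Tendsto (cE fun v => (∑ k ∈ S, β v k) * ht τ v) (𝓝[>] 0) (𝓝 (m : ℂ)) := by
  obtain ⟨Λ, h1, h2⟩ := h
  obtain ⟨m, h3, h4⟩ := pole_mean hβ him h1 h2
  exact ⟨m, ⟨Λ, h1, h2, h3⟩, h4⟩

include hβ in
theorem pole_mean' (him : StmIm) {τ : ℝ} {n : ℤ} (h : PoleAt (eulerL S β) (1 + τ * Complex.I) n) :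
    Tendsto (cE fun v => (∑ k ∈ S, β v k) * ht τ v) (𝓝[>] 0) (𝓝 (n : ℂ)) := by
  obtain ⟨Λ, h1, h2, h3⟩ := h
  obtain ⟨m, h4, h5⟩ := pole_mean hβ him h1 h2
  rw [h4] at h3
  have h6 := WithTop.coe_injective h3
  have : m = n := by omega
  rwa [this] at h5

theorem ht_zero (v : HeightOneSpectrum (𝓞 K)) : ht 0 v = 1 := by
  unfold ht
  simp

include hβ in
/-- natural density -/
theorem nat_mean (him : StmIm) (htaub : StmTaub) {c : ℤ}
    (hc : Tendsto (cE fun v => ∑ k ∈ S, β v k) (𝓝[>] 0) (𝓝 (c : ℂ)))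
    (h0 : ∀ τ : ℝ, τ ≠ 0 → Tendsto (cE fun v => (∑ k ∈ S, β v k) * ht τ v) (𝓝[>] 0) (𝓝 0))
    (h : ∀ τ : ℝ, ContAt (eulerL S β) (1 + τ * Complex.I)) :
    Tendsto (mn fun v => ∑ k ∈ S, β v k) atTop (𝓝 (c : ℂ)) := by
  classical
  have h1 := htaub K S (dm S β) (dm_mem hβ) c (fun τ => by
    obtain ⟨m, ⟨Λ, k1, k2, k3⟩, k4⟩ := cont_mean hβ him (h τ)
    refine ⟨Λ, k1, ?_, ?_⟩
    · filter_upwards [k2] with s hs h
      rw [dm_LU, hs h]
    · rw [k3]
      congr 1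
      by_cases hτ : τ = 0
      · subst hτ
        rw [if_pos rfl]
        simp only [ht_zero, mul_one] at k4
        have := tendsto_nhds_unique k4 hc
        have h5 : m = c := by exact_mod_cast this
        rw [h5]
      · rw [if_neg hτ]
        have := tendsto_nhds_unique k4 (h0 τ hτ)
        have h5 : m = 0 := by exact_mod_cast this
        rw [h5, neg_zero])
  simpa only [dm_trace] using h1

end

end Pool.Agent.Y798.FC
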