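import Pool.Agent.Y798.FC.Stm2

/-! The action of the automorphisms of the lattice of characters on the torus. -/

set_option autoImplicit false

namespace Pool.Agent.Y798.FC

open MeasureTheory UnitAddTorus Filter Topology Pool.Agent.Y139.ID

variable {J : Type} [Fintype J]

theorem fourier_zsmul' (n m : ℤ) (y : UnitAddCircle) :
    (fourier n (m • y) : ℂ) = fourier (n * m) y := by
  rw [fourier_apply, fourier_apply, smul_smul]

theorem fourier_sum' {ι : Type*} (s : Finset ι) (n : ℤ) (y : ι → UnitAddCircle) :
    (fourier n (∑ i ∈ s, y i) : ℂ) = ∏ i ∈ s, fourier n (y i) := by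
  classical
  induction s using Finset.induction_on with
  | empty => simp [fourier_apply]
  | insert a s ha ih =>
    rw [Finset.sum_insert ha, Finset.prod_insert ha, ← ih]
    simp only [fourier_apply, smul_add, AddCircle.toCircle_add, Circle.coe_mul]

theorem fourier_sum_left {ι : Type*} (s : Finset ι) (n : ι → ℤ) (y : UnitAddCircle) :
    (fourier (∑ i ∈ s, n i) y : ℂ) = ∏ i ∈ s, fourier (n i) y := by
  classical
  induction s using Finset.induction_on with
  | empty => simp
  | insert a s ha ih => rw [Finset.sum_insert ha, Finset.prod_insert ha, fourier_add, ← ih]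

theorem mF_act (w : Auts J) (μ : J → ℤ) (x : UnitAddTorus J) :
    mFourier μ (act w x) = mFourier (w μ) x := by
  classical
  have h1 : ∀ i, w μ i = ∑ j, μ j * w (Pi.single j 1) i := by
    intro i
    have h2 : μ = ∑ j, μ j • (Pi.single j 1 : J → ℤ) := by
      funext k
      rw [Finset.sum_apply, Finset.sum_eq_single k]
      · simp
      · intro j _ hj
        simp [Pi.single_eq_of_ne hj.symm]
      · simp
    conv_lhs => rw [h2]
    rw [map_sum, Finset.sum_apply]
    refine Finset.sum_congr rfl fun j _ => ?_
    rw [map_smul, Pi.smul_apply, smul_eq_mul]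
  have h3 : mFourier (w μ) x = ∏ i, ∏ j, (fourier (μ j * w (Pi.single j 1) i) (x i) : ℂ) := by
    simp only [mFourier, ContinuousMap.coe_mk]
    refine Finset.prod_congr rfl fun i _ => ?_
    rw [h1 i, fourier_sum_left]
  rw [h3, Finset.prod_comm]
  simp only [mFourier, ContinuousMap.coe_mk, act]
  refine Finset.prod_congr rfl fun j _ => ?_
  rw [fourier_sum']
  exact Finset.prod_congr rfl fun i _ => fourier_zsmul' _ _ _

theorem continuous_act (w : Auts J) : Continuous (act w : UnitAddTorus J → UnitAddTorus J) := by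
  unfold act
  fun_prop

theorem orb_eq {W : Subgroup (Auts J)} [Fintype W] (μ : J → ℤ) (x : UnitAddTorus J) :
    orb W μ x = ∑ w : W, mFourier ((w : Auts J) μ) x := finsum_eq_sum_of_fintype _

theorem orb_eq' {W : Subgroup (Auts J)} [Fintype W] (μ : J → ℤ) (x : UnitAddTorus J) :
    orb W μ x = ∑ w : W, mFourier μ (act (w : Auts J) x) := by
  rw [orb_eq]
  exact Finset.sum_congr rfl fun w _ => (mF_act _ _ _).symm

theorem continuous_orb {W : Subgroup (Auts J)} (hW : Finite W) (μ : J → ℤ) :
    Continuous (orb W μ) := by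
  have := Fintype.ofFinite W
  have h : orb W μ = fun x => ∑ w : W, mFourier ((w : Auts J) μ) x := funext fun x => orb_eq μ x
  rw [h]
  fun_prop

theorem norm_orb_le {W : Subgroup (Auts J)} (hW : Finite W) (μ : J → ℤ) (x : UnitAddTorus J) :
    ‖orb W μ x‖ ≤ Nat.card W := by
  have := Fintype.ofFinite W
  rw [orb_eq]
  refine (norm_sum_le _ _).trans ?_
  simp [norm_mF, Nat.card_eq_fintype_card]

/-- points of the torus are determined by the characters -/
theorem ext_mF {x y : UnitAddTorus J} (h : ∀ μ : J → ℤ, mFourier μ x = mFourier μ y) : x = y := by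
  classical
  funext j
  have h1 := h (Pi.single j 1)
  simp only [mFourier, ContinuousMap.coe_mk] at h1
  rw [Finset.prod_eq_single j, Finset.prod_eq_single j] at h1
  · simp only [Pi.single_eq_same, fourier_apply, one_smul] at h1
    exact AddCircle.injective_toCircle one_ne_zero (Circle.coe_injective h1)
  · intro i _ hi
    simp [Pi.single_eq_of_ne hi]
  · simp
  · intro i _ hi
    simp [Pi.single_eq_of_ne hi]
  · simp

theorem act_mul (w w' : Auts J) (x : UnitAddTorus J) : act w (act w' x) = act (w' * w) x := by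
  refine ext_mF fun μ => ?_
  rw [mF_act, mF_act, mF_act]
  rfl

theorem act_one (x : UnitAddTorus J) : act (1 : Auts J) x = x := by
  refine ext_mF fun μ => ?_
  rw [mF_act]
  rfl

theorem orb_act {W : Subgroup (Auts J)} (hW : Finite W) {w : Auts J} (hw : w ∈ W) (μ : J → ℤ)
    (x : UnitAddTorus J) : orb W μ (act w x) = orb W μ x := by
  have := Fintype.ofFinite W
  rw [orb_eq', orb_eq']
  refine Fintype.sum_equiv (Equiv.mulLeft (⟨w, hw⟩ : W)) _ _ fun w' => ?_
  rw [act_mul]
  rfl

/-- symmetrization of a function -/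
noncomputable def sym (W : Subgroup (Auts J)) [Fintype W] (f : UnitAddTorus J → ℂ)
    (x : UnitAddTorus J) : ℂ := ∑ w : W, f (act (w : Auts J) x)

theorem continuous_sym (W : Subgroup (Auts J)) [Fintype W] {f : UnitAddTorus J → ℂ}
    (hf : Continuous f) : Continuous (sym W f) := by
  unfold sym
  exact continuous_finsetSum _ fun w _ => hf.comp (continuous_act _)

theorem sym_inv (W : Subgroup (Auts J)) [Fintype W] {f : UnitAddTorus J → ℂ}
    (hf : ∀ w ∈ W, ∀ x, f (act w x) = f x) (x : UnitAddTorus J) :
    sym W f x = (Nat.card W : ℂ) * f x := by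
  unfold sym
  rw [Finset.sum_congr rfl fun w _ => hf _ w.2 x, Finset.sum_const, Finset.card_univ, nsmul_eq_mul,
    Nat.card_eq_fintype_card]

theorem sym_act (W : Subgroup (Auts J)) [Fintype W] (f : UnitAddTorus J → ℂ) {w : Auts J}
    (hw : w ∈ W) (x : UnitAddTorus J) : sym W f (act w x) = sym W f x := by
  unfold sym
  refine Fintype.sum_equiv (Equiv.mulLeft (⟨w, hw⟩ : W)) _ _ fun w' => ?_
  rw [act_mul]
  rfl

/-- the symmetrized measure, of mass `|W|` times the mass -/
noncomputable def smeas (W : Subgroup (Auts J)) [Fintype W] (ν : Measure (UnitAddTorus J)) :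
    Measure (UnitAddTorus J) := ∑ w : W, ν.map (act (w : Auts J))

theorem smeas_int (W : Subgroup (Auts J)) [Fintype W] (ν : Measure (UnitAddTorus J))
    [IsFiniteMeasure ν] {E : Type*} [NormedAddCommGroup E] [NormedSpace ℝ E]
    [SecondCountableTopology E] {f : UnitAddTorus J → E} (hf : Continuous f) :
    ∫ x, f x ∂(smeas W ν) = ∑ w : W, ∫ x, f (act (w : Auts J) x) ∂ν := by
  unfold smeas
  obtain ⟨C, hC⟩ := isCompact_univ.exists_bound_of_continuousOn (f := f) hf.continuousOn
  have hfin : ∀ w : W, IsFiniteMeasure (ν.map (act (w : Auts J))) :=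
    fun w => Measure.isFiniteMeasure_map _ _
  rw [integral_finsetSum_measure fun w _ => by
    have := hfin w
    exact Integrable.of_bound (hf.aestronglyMeasurable) C
      (Eventually.of_forall fun x => hC x (Set.mem_univ x))]
  refine Finset.sum_congr rfl fun w _ => ?_
  rw [integral_map (continuous_act _).measurable.aemeasurable hf.aestronglyMeasurable]

theorem smeas_fin (W : Subgroup (Auts J)) [Fintype W] (ν : Measure (UnitAddTorus J))
    [IsFiniteMeasure ν] : IsFiniteMeasure (smeas W ν) := by
  unfold smeas
  have hfin : ∀ w : W, IsFiniteMeasure (ν.map (act (w : Auts J))) :=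
    fun w => Measure.isFiniteMeasure_map _ _
  infer_instance

theorem smeas_sym (W : Subgroup (Auts J)) [Fintype W] (ν : Measure (UnitAddTorus J))
    [IsFiniteMeasure ν] {f : UnitAddTorus J → ℂ} (hf : Continuous f) :
    ∫ x, f x ∂(smeas W ν) = ∫ x, sym W f x ∂ν := by
  rw [smeas_int W ν hf]
  unfold sym
  exact (integral_finsetSum (f := fun (w : W) x => f (act (w : Auts J) x)) Finset.univ
    fun w _ => integrable_cont _ (hf.comp (continuous_act _))).symm

end Pool.Agent.Y798.FC
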