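import Pool.Agent.Y798.FC.Avg
import Pool.Agent.Y798.FC.Act

/-! The law of the Frobenius classes in the sense of Dirichlet density. -/

set_option autoImplicit false

namespace Pool.Agent.Y798.FC

open MeasureTheory UnitAddTorus Filter Topology NumberField IsDedekindDomain
  Pool.Agent.W540.BE Pool.Agent.TH553.RS Pool.Agent.TH553.ST
open Pool.Agent.Y139.ID (Good good_ev avg avg_eq avg_le avg_sub mean_avg integrable_cont
  integrable_cont_real intL IsHaarOn annih measure_ext_fourier)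

/-- there are no nonzero invariant characters -/
def NoInv {J : Type} [Fintype J] (W : Subgroup (Auts J)) : Prop :=
  ∀ μ : J → ℤ, (∀ w ∈ W, w μ = μ) → μ = 0

section
variable {K : Type} [Field K] [NumberField K]

/-- the height -/
noncomputable def ht (τ : ℝ) (v : HeightOneSpectrum (𝓞 K)) : ℂ :=
  ((nm K v : ℕ) : ℂ) ^ (-(τ * Complex.I : ℂ))

theorem norm_ht (τ : ℝ) (v : HeightOneSpectrum (𝓞 K)) : ‖ht τ v‖ = 1 := norm_cpow_I (nm_pos v) τ

theorem ht_pow (τ : ℝ) (k : ℕ) (v : HeightOneSpectrum (𝓞 K)) : ht τ v ^ k = ht (k * τ) v := by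
  unfold ht
  rw [← Complex.cpow_nat_mul]
  congr 1
  push_cast
  ring

variable {U : Ultrafilter ℝ} (hU : (U : Filter ℝ) ≤ 𝓝[>] 0)

include hU in
theorem M_of_cE {t : HeightOneSpectrum (𝓞 K) → ℂ} {B : ℝ} (ht : ∀ v, ‖t v‖ ≤ B) {z : ℂ}
    (h : Tendsto (cE t) (U : Filter ℝ) (𝓝 z)) : M (nm K) U (fun v => (t v).re) = z.re := by
  refine M_eq ?_
  have h1 := (Complex.continuous_re.tendsto _).comp h
  have h2 : Tendsto (fun ε => (cE t ε).re * Pool.Agent.Y139.IM.mean (K := K) (fun _ => 1) ε)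
      (U : Filter ℝ) (𝓝 (z.re * 1)) :=
    h1.mul ((Pool.Agent.Y139.IM.mean_one (K := K)).mono_left hU)
  rw [mul_one] at h2
  refine h2.congr' ?_
  filter_upwards [hU (good_ev (K := K))] with ε hε
  rw [cE_re hε ht, ← mean_avg hε]
  rfl

include hU in
theorem M_ht {τ : ℝ} (hτ : τ ≠ 0) : M (nm K) U (fun v => (ht τ v).re) = 0 := by
  have h3 := mean_edge (F := K) (g := fun _ => 1) (B := 1) (fun _ => by simp) 1 (by
    have h4 : Tendsto (mn fun _ : HeightOneSpectrum (𝓞 K) => (1 : ℂ)) atTop (𝓝 1) := by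
      refine tendsto_const_nhds.congr' ?_
      filter_upwards [card_ev (K := K)] with n hn
      unfold mn
      rw [Finset.sum_const, nsmul_eq_mul, mul_one, Complex.real_smul]
      push_cast
      rw [inv_mul_cancel₀ (by exact_mod_cast hn)]
    have := mn_tendsto h4
    simpa using this) τ
  rw [if_neg hτ] at h3
  refine M_of_tendsto hU (h3.congr fun ε => ?_)
  unfold qt
  congr 2
  funext v
  simp [ht]

theorem norm_one_sub_prod {ι : Type*} (S : Finset ι) {u : ι → ℂ} (hu : ∀ i, ‖u i‖ = 1) :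
    ‖1 - ∏ i ∈ S, u i‖ ≤ ∑ i ∈ S, ‖1 - u i‖ := by
  classical
  induction S using Finset.induction_on with
  | empty => simp
  | insert a S ha ih =>
    rw [Finset.prod_insert ha, Finset.sum_insert ha]
    have h1 : 1 - u a * ∏ i ∈ S, u i = (1 - u a) + u a * (1 - ∏ i ∈ S, u i) := by ring
    rw [h1]
    refine (norm_add_le _ _).trans ?_
    rw [norm_mul, hu, one_mul]
    linarith

theorem sq_one_sub {u : ℂ} (hu : ‖u‖ = 1) : ‖1 - u‖ ^ 2 = 2 - 2 * u.re := by
  rw [← Complex.normSq_eq_norm_sq, Complex.normSq_apply]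
  have h1 : u.re * u.re + u.im * u.im = 1 := by
    rw [← Complex.normSq_apply, Complex.normSq_eq_norm_sq, hu]
    norm_num
  simp
  nlinarith

include hU in
/-- unimodular functions whose means have absolute value one -/
theorem M_rigid {ι : Type*} [Fintype ι] {u : ι → HeightOneSpectrum (𝓞 K) → ℂ}
    (hu : ∀ i v, ‖u i v‖ = 1)
    (h : M (nm K) U (fun v => (∑ i, u i v).re) = Fintype.card ι) :
    M (nm K) U (fun v => (∏ i, u i v).re) = 1 := by
  classical
  have hN := sysF K
  have hb : ∀ i, Bd fun v => (u i v).re := fun i =>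
    ⟨1, fun v => (Complex.abs_re_le_norm _).trans (hu i v).le⟩
  have h1 : ∑ i, M (nm K) U (fun v => (u i v).re) = Fintype.card ι := by
    rw [← h]
    simp only [Complex.re_sum]
    rw [M_sum hN hU _ fun i _ => hb i]
  have h2 : ∀ i, M (nm K) U (fun v => (u i v).re) ≤ 1 := by
    intro i
    have h3 := M_mono hN hU (hb i) (Bd.const 1) fun v =>
      (Complex.re_le_norm _).trans (hu i v).le
    rwa [M_const hN hU] at h3
  have h4 : ∀ i, M (nm K) U (fun v => (u i v).re) = 1 := by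
    have h5 : ∑ i, (1 - M (nm K) U (fun v => (u i v).re)) = 0 := by
      rw [Finset.sum_sub_distrib, h1]
      simp
    have h6 := (Finset.sum_eq_zero_iff_of_nonneg fun i _ => sub_nonneg.2 (h2 i)).1 h5
    intro i
    have := h6 i (Finset.mem_univ i)
    linarith
  have hb2 : ∀ i, Bd fun v => ‖1 - u i v‖ ^ 2 := fun i => ⟨4, fun v => by
    simp only
    rw [sq_one_sub (hu i v)]
    have h7 : |(u i v).re| ≤ 1 := (Complex.abs_re_le_norm _).trans (hu i v).le
    rw [abs_le] at h7 ⊢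
    constructor <;> linarith [h7.1, h7.2]⟩
  have h8 : ∀ i, M (nm K) U (fun v => ‖1 - u i v‖ ^ 2) = 0 := by
    intro i
    have e : (fun v => ‖1 - u i v‖ ^ 2) = fun v => 2 - 2 * (u i v).re :=
      funext fun v => sq_one_sub (hu i v)
    rw [e, M_sub hN hU (Bd.const 2) ((hb i).const_mul 2), M_const hN hU, M_const_mul hN hU (hb i),
      h4 i]
    norm_num
  have hp : ∀ v, ‖∏ i, u i v‖ = 1 := fun v => by rw [norm_prod]; simp [hu]
  have hbp : Bd fun v => (∏ i, u i v).re :=
    ⟨1, fun v => (Complex.abs_re_le_norm _).trans (hp v).le⟩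
  have e : (fun v => ‖1 - ∏ i, u i v‖ ^ 2) = fun v => 2 - 2 * (∏ i, u i v).re :=
    funext fun v => sq_one_sub (hp v)
  have h9 : M (nm K) U (fun v => ‖1 - ∏ i, u i v‖ ^ 2) = 2 - 2 * M (nm K) U (fun v => (∏ i, u i v).re) := by
    rw [e, M_sub hN hU (Bd.const 2) (hbp.const_mul 2), M_const hN hU, M_const_mul hN hU hbp]
  have hbe : Bd fun v => ‖1 - ∏ i, u i v‖ ^ 2 := by
    rw [e]
    exact (Bd.const 2).sub (hbp.const_mul 2)
  have hbs : Bd fun v => ∑ i, ‖1 - u i v‖ ^ 2 := Bd.sum _ fun i _ => hb2 i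
  have h10 : M (nm K) U (fun v => ‖1 - ∏ i, u i v‖ ^ 2) ≤
      M (nm K) U (fun v => (Fintype.card ι : ℝ) * ∑ i, ‖1 - u i v‖ ^ 2) := by
    refine M_mono hN hU hbe (hbs.const_mul _) fun v => ?_
    have h11 := norm_one_sub_prod Finset.univ (u := fun i => u i v) fun i => hu i v
    refine (pow_le_pow_left₀ (norm_nonneg _) h11 2).trans ?_
    have := sq_sum_le_card_mul_sum_sq (s := (Finset.univ : Finset ι)) (f := fun i => ‖1 - u i v‖)
    simpa using this
  rw [M_const_mul hN hU hbs, M_sum hN hU _ fun i _ => hb2 i, Finset.sum_eq_zero fun i _ => h8 i,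
    mul_zero, h9] at h10
  have h12 : M (nm K) U (fun v => (∏ i, u i v).re) ≤ 1 := by
    have h3 := M_mono hN hU hbp (Bd.const 1) fun v =>
      (Complex.re_le_norm _).trans (hp v).le
    rwa [M_const hN hU] at h3
  linarith

end

end Pool.Agent.Y798.FC
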