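import Pool.Agent.Y798.FC.Isol
import Pool.Agent.Y798.JL.Ten
import Pool.Agent.Y139.ID.Sym

/-! Statements for the project FC, second part. -/

set_option autoImplicit false

namespace Pool.Agent.Y798.FC

open Complex Filter Topology MeasureTheory UnitAddTorus NumberField IsDedekindDomain
  Pool.Agent.Y139.ID Pool.Agent.W540.BE Pool.Agent.TH553.RS Pool.Agent.TH553.ST Pool.Agent.H341R2
  Pool.Agent.Y798.JL

/-- the orbit sum `∑_{w ∈ W} e(⟨w μ, x⟩)` -/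
noncomputable def orb {J : Type} [Fintype J] (W : Subgroup (Auts J)) (μ : J → ℤ)
    (x : UnitAddTorus J) : ℂ := ∑ᶠ w : W, mFourier ((w : Auts J) μ) x

/-- the eigenvalue angles `(x, -x)` of a symplectic matrix -/
def dbl {g : ℕ} (x : UnitAddTorus (Fin g)) : UnitAddTorus (Fin (g + g)) := Fin.append x (-x)

/-- job FC-WORDS -/
def StmWords : Prop := ∀ (g : ℕ) (μ : Fin g → ℤ),
  ∃ G ∈ Submodule.span ℤ (wordFun (g + g)), ∀ x, orb (sympW g) μ x = G (dbl x)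

/-- job FC-INV -/
def StmInv : Prop := ∀ (J : Type) [Fintype J] (W : Subgroup (Auts J)), Finite W →
  ∀ (S : Finset (J → ℤ)) (c : (J → ℤ) → ℂ),
    (∀ w ∈ W, ∀ x, ∑ μ ∈ S, c μ * mFourier μ (act w x) = ∑ μ ∈ S, c μ * mFourier μ x) →
    ∀ x, (Nat.card W : ℂ) * ∑ μ ∈ S, c μ * mFourier μ x = ∑ μ ∈ S, c μ * orb W μ x

/-- job FC-IM -/
def StmIm : Prop := ∀ (K : Type) [Field K] [NumberField K] (κ : Type) [Fintype κ] [DecidableEq κ]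
  (A : HeightOneSpectrum (𝓞 K) → Matrix κ κ ℂ), (∀ v, A v ∈ Matrix.unitaryGroup κ ℂ) →
  ∀ (τ : ℝ) (Λ : ℂ → ℂ), MeromorphicAt Λ (1 + τ * I) →
    (∀ᶠ s in 𝓝 ((1 : ℂ) + τ * I), (1 : ℝ) < s.re → Λ s = LU A s) →
    Tendsto (qt (nm K) fun v => ((A v).trace * ((nm K v : ℕ) : ℂ) ^ (-(τ * I : ℂ))).im) (𝓝[>] 0)
      (𝓝 0)

/-- job FC-TAUB -/
def StmTaub : Prop := ∀ (K : Type) [Field K] [NumberField K] (κ : Type) [Fintype κ] [DecidableEq κ]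
  (A : HeightOneSpectrum (𝓞 K) → Matrix κ κ ℂ), (∀ v, A v ∈ Matrix.unitaryGroup κ ℂ) →
  ∀ c : ℤ, (∀ τ : ℝ, ∃ Λ : ℂ → ℂ, MeromorphicAt Λ (1 + τ * I) ∧
      (∀ᶠ s in 𝓝 ((1 : ℂ) + τ * I), (1 : ℝ) < s.re → Λ s = LU A s) ∧
      meromorphicOrderAt Λ (1 + τ * I) = (((if τ = 0 then -c else 0) : ℤ) : WithTop ℤ)) →
    Tendsto (mn fun v => (A v).trace) atTop (𝓝 (c : ℂ))

/-- job FC-STR: the structure of the law -/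
def StmStr : Prop := ∀ (J : Type) [Fintype J] (Φ : Finset (J → ℤ)), (∀ α ∈ Φ, α ≠ 0) →
  ∀ (ρ : Measure (UnitAddTorus J)) [IsFiniteMeasure ρ],
    (∀ μ : J → ℤ, ∃ n : ℤ, ∫ x, mFourier μ x ∂ρ = n) →
    (∀ μ : J → ℤ, dC Φ μ ≠ 0 → ∫ x, mFourier μ x ∂ρ = dC Φ μ) →
    (∀ μ ν : J → ℤ, dC Φ μ ≠ 0 → dC Φ ν ≠ 0 → ∫ x, mFourier (μ - ν) x ∂ρ = dC Φ (μ - ν)) →
    (∀ κ : J → ℤ, ∫ x, mFourier κ x ∂ρ ≠ 0 → ∃ γ : J → ℤ, dC Φ γ ≠ 0 ∧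
      (∫ x, mFourier (κ - γ) x ∂ρ = ρ.real Set.univ ∨
        ∫ x, mFourier (κ - γ) x ∂ρ = -(ρ.real Set.univ : ℂ))) →
    ∃ (Γ : AddSubgroup (J → ℤ)) (a : UnitAddTorus J),
      (∀ γ, γ ∈ Γ ↔ (∫ x, mFourier γ x ∂ρ = ρ.real Set.univ ∨
        ∫ x, mFourier γ x ∂ρ = -(ρ.real Set.univ : ℂ))) ∧
      (∀ γ ∈ Γ, mFourier γ a = 1 ∨ mFourier γ a = -1) ∧
      ∀ σ : Measure (UnitAddTorus J), IsHaarOn (annih Γ) σ →
        ∀ f : UnitAddTorus J → ℂ, Continuous f →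
          ∫ x, f x ∂ρ = ∫ x, f (a + x) * (dens Φ (a + x) : ℂ) ∂σ

end Pool.Agent.Y798.FC
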