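import Pool.Agent.Y798.FC.DensT
import Pool.Agent.Y798.FC.Stm2
import Pool.Agent.Y139.ID.Main

/-! Weighted means over the primes of a number field. -/

set_option autoImplicit false

namespace Pool.Agent.Y798.FC

open MeasureTheory UnitAddTorus Filter Topology NumberField IsDedekindDomain
  Pool.Agent.W540.BE Pool.Agent.TH553.RS
open Pool.Agent.Y139.ID (Good good_ev wt wt_nonneg hasSum_wt avg avg_eq avg_le avg_sub mean_avg tot
  emp emp_univ emp_integral integrable_cont integrable_cont_real)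

section
variable {K : Type} [Field K] [NumberField K]

/-- the weighted mean value -/
noncomputable def cE (t : HeightOneSpectrum (𝓞 K) → ℂ) (ε : ℝ) : ℂ := ∑' v, (wt ε v : ℂ) * t v

theorem summ_cE {ε : ℝ} (h : Good K ε) {t : HeightOneSpectrum (𝓞 K) → ℂ} {B : ℝ}
    (ht : ∀ v, ‖t v‖ ≤ B) : Summable fun v => (wt ε v : ℂ) * t v := by
  refine Summable.of_norm_bounded ((hasSum_wt h).summable.mul_left B) fun v => ?_
  rw [norm_mul, Complex.norm_real, Real.norm_eq_abs, abs_of_nonneg (wt_nonneg h v), mul_comm]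
  exact mul_le_mul_of_nonneg_right (ht v) (wt_nonneg h v)

theorem summ_norm {ε : ℝ} (h : Good K ε) {t : HeightOneSpectrum (𝓞 K) → ℝ} {B : ℝ}
    (ht : ∀ v, |t v| ≤ B) : Summable fun v => wt ε v * t v := by
  refine Summable.of_norm_bounded ((hasSum_wt h).summable.mul_left B) fun v => ?_
  rw [norm_mul, Real.norm_eq_abs, Real.norm_eq_abs, abs_of_nonneg (wt_nonneg h v), mul_comm]
  exact mul_le_mul_of_nonneg_right (ht v) (wt_nonneg h v)

theorem cE_re {ε : ℝ} (h : Good K ε) {t : HeightOneSpectrum (𝓞 K) → ℂ} {B : ℝ}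
    (ht : ∀ v, ‖t v‖ ≤ B) : (cE t ε).re = avg (fun v => (t v).re) ε := by
  rw [avg_eq]
  unfold cE
  rw [Complex.re_tsum (summ_cE h ht)]
  exact tsum_congr fun v => Complex.re_ofReal_mul _ _

theorem cE_im {ε : ℝ} (h : Good K ε) {t : HeightOneSpectrum (𝓞 K) → ℂ} {B : ℝ}
    (ht : ∀ v, ‖t v‖ ≤ B) : (cE t ε).im = avg (fun v => (t v).im) ε := by
  rw [avg_eq]
  unfold cE
  rw [Complex.im_tsum (summ_cE h ht)]
  exact tsum_congr fun v => Complex.im_ofReal_mul _ _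

theorem avg_of_qt {φ : HeightOneSpectrum (𝓞 K) → ℝ} {B : ℝ} (hφ : ∀ v, |φ v| ≤ B) {c : ℝ}
    (h : Tendsto (qt (nm K) φ) (𝓝[>] 0) (𝓝 c)) : Tendsto (avg φ) (𝓝[>] 0) (𝓝 c) := by
  have h1 : Tendsto (fun ε => Pool.Agent.Y139.IM.mean φ ε - (fun _ => c) ε) (𝓝[>] 0) (𝓝 0) := by
    have := h.sub_const c
    rw [sub_self] at this
    exact this
  have h2 := (avg_sub hφ h1).add_const c
  rw [zero_add] at h2
  exact h2.congr fun ε => by ring

theorem cE_of_qt {t : HeightOneSpectrum (𝓞 K) → ℂ} {B : ℝ} (ht : ∀ v, ‖t v‖ ≤ B) {a b : ℝ}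
    (h1 : Tendsto (qt (nm K) fun v => (t v).re) (𝓝[>] 0) (𝓝 a))
    (h2 : Tendsto (qt (nm K) fun v => (t v).im) (𝓝[>] 0) (𝓝 b)) :
    Tendsto (cE t) (𝓝[>] 0) (𝓝 (a + b * Complex.I)) := by
  have k1 := avg_of_qt (fun v => (Complex.abs_re_le_norm _).trans (ht v)) h1
  have k2 := avg_of_qt (fun v => (Complex.abs_im_le_norm _).trans (ht v)) h2
  have k3 := ((Complex.continuous_ofReal.tendsto _).comp k1).add
    (((Complex.continuous_ofReal.tendsto _).comp k2).mul_const Complex.I)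
  refine k3.congr' ?_
  filter_upwards [good_ev (K := K)] with ε hε
  simp only [Function.comp]
  rw [← cE_re hε ht, ← cE_im hε ht]
  exact Complex.re_add_im _

theorem norm_cE_le {ε : ℝ} (h : Good K ε) {t : HeightOneSpectrum (𝓞 K) → ℂ} {B : ℝ}
    (ht : ∀ v, ‖t v‖ ≤ B) : ‖cE t ε‖ ≤ B := by
  unfold cE
  have h1 := tsum_of_norm_bounded ((hasSum_wt h).mul_left B)
    (f := fun v => (wt ε v : ℂ) * t v) fun v => by
      rw [norm_mul, Complex.norm_real, Real.norm_eq_abs, abs_of_nonneg (wt_nonneg h v), mul_comm]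
      exact mul_le_mul_of_nonneg_right (ht v) (wt_nonneg h v)
  rwa [mul_one] at h1

theorem norm_cE_le' {ε : ℝ} (h : Good K ε) {t : HeightOneSpectrum (𝓞 K) → ℂ} {B : ℝ}
    (ht : ∀ v, ‖t v‖ ≤ B) : ‖cE t ε‖ ≤ (cE (fun v => (‖t v‖ : ℂ)) ε).re := by
  rw [cE_re h (B := B) (fun v => by rw [Complex.norm_real, norm_norm]; exact ht v), avg_eq]
  simp only [Complex.ofReal_re]
  unfold cE
  refine tsum_of_norm_bounded (summ_norm h (B := B) (t := fun v => ‖t v‖) fun v => by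
    rw [abs_norm]; exact ht v).hasSum fun v => ?_
  rw [norm_mul, Complex.norm_real, Real.norm_eq_abs, abs_of_nonneg (wt_nonneg h v)]

theorem cE_add {ε : ℝ} (h : Good K ε) {t u : HeightOneSpectrum (𝓞 K) → ℂ} {B C : ℝ}
    (ht : ∀ v, ‖t v‖ ≤ B) (hu : ∀ v, ‖u v‖ ≤ C) :
    cE (fun v => t v + u v) ε = cE t ε + cE u ε := by
  unfold cE
  rw [← (summ_cE h ht).tsum_add (summ_cE h hu)]
  exact tsum_congr fun v => by ring

theorem cE_const_mul (a : ℂ) (t : HeightOneSpectrum (𝓞 K) → ℂ) (ε : ℝ) :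
    cE (fun v => a * t v) ε = a * cE t ε := by
  unfold cE
  rw [← tsum_mul_left]
  exact tsum_congr fun v => by ring

theorem cE_sum {ε : ℝ} (h : Good K ε) {κ : Type*} (S : Finset κ)
    {t : κ → HeightOneSpectrum (𝓞 K) → ℂ} {B : ℝ} (ht : ∀ k v, ‖t k v‖ ≤ B) :
    cE (fun v => ∑ k ∈ S, t k v) ε = ∑ k ∈ S, cE (t k) ε := by
  unfold cE
  rw [← Summable.tsum_finsetSum fun k _ => summ_cE h (ht k)]
  exact tsum_congr fun v => by rw [Finset.mul_sum]

theorem cE_one {ε : ℝ} (h : Good K ε) : cE (fun _ : HeightOneSpectrum (𝓞 K) => 1) ε = 1 := by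
  unfold cE
  simp only [mul_one]
  rw [← Complex.ofReal_tsum, (hasSum_wt h).tsum_eq, Complex.ofReal_one]

/-! ### laws -/

variable {r : ℕ} (θ : HeightOneSpectrum (𝓞 K) → UnitAddTorus (Fin r))

open Classical in
/-- the empirical probability measures -/
noncomputable def pm (ε : ℝ) : ProbabilityMeasure (UnitAddTorus (Fin r)) :=
  if h : Good K ε then ⟨emp (wt ε) θ, ⟨emp_univ (wt_nonneg h) (hasSum_wt h) θ⟩⟩
  else ⟨Measure.dirac 0, inferInstance⟩

theorem pm_int {ε : ℝ} (h : Good K ε) {f : UnitAddTorus (Fin r) → ℂ} (hf : Continuous f) :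
    ∫ x, f x ∂(pm θ ε : Measure (UnitAddTorus (Fin r))) = cE (fun v => f (θ v)) ε := by
  unfold pm
  rw [dif_pos h]
  exact emp_integral (wt_nonneg h) (hasSum_wt h) θ hf

theorem exists_ulaw (U : Ultrafilter ℝ) (hU : (U : Filter ℝ) ≤ 𝓝[>] 0) :
    ∃ ν : ProbabilityMeasure (UnitAddTorus (Fin r)), ∀ f : UnitAddTorus (Fin r) → ℂ, Continuous f →
      Tendsto (cE fun v => f (θ v)) (U : Filter ℝ)
        (𝓝 (∫ x, f x ∂(ν : Measure (UnitAddTorus (Fin r))))) := by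
  obtain ⟨ν, -, hν⟩ := isCompact_univ.ultrafilter_le_nhds (U.map (pm θ)) (by simp)
  have hν' : Tendsto (pm θ) (U : Filter ℝ) (𝓝 ν) := hν
  refine ⟨ν, fun f hf => ?_⟩
  have h1 := (ProbabilityMeasure.tendsto_iff_forall_integral_rclike_tendsto ℂ).1 hν'
    (BoundedContinuousFunction.mkOfCompact ⟨f, hf⟩)
  refine h1.congr' ?_
  filter_upwards [hU (good_ev (K := K))] with ε hε
  exact pm_int θ hε hf

end

end Pool.Agent.Y798.FC
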