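import Pool.Agent.Y798.FC.Lim

/-! The core of the isolation theorem. -/

set_option autoImplicit false

namespace Pool.Agent.Y798.FC

open MeasureTheory UnitAddTorus Pool.Agent.Y139.ID Filter Topology ComplexConjugate

variable {J : Type} [Fintype J]

theorem pointwise (Φ : Finset (J → ℤ)) (c : (J → ℤ) →₀ ℤ)
    (h : ∀ ψ : UnitAddTorus J → ℝ, Continuous ψ → (∀ x, 0 ≤ ψ x) →
      ‖∫ x, (ψ x : ℂ) * trig c x ∂(vol J)‖ ≤ ∫ x, ψ x * dens Φ x ∂(vol J)) (x : UnitAddTorus J) :
    ‖trig c x‖ ≤ dens Φ x := by
  have hct := continuous_trig c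
  have hcd := continuous_dens Φ
  have key : ∀ u : ℂ, ‖u‖ = 1 → ∀ x, (u * trig c x).re ≤ dens Φ x := by
    intro u hu
    set F : UnitAddTorus J → ℝ := fun x => dens Φ x - (u * trig c x).re with hF
    have hFc : Continuous F := hcd.sub (Complex.continuous_re.comp (continuous_const.mul hct))
    set ψ : UnitAddTorus J → ℝ := fun x => max (-F x) 0 with hψ
    have hψc : Continuous ψ := (hFc.neg).max continuous_const
    have hψ0 : ∀ x, 0 ≤ ψ x := fun x => le_max_right _ _
    have h1 := h ψ hψc hψ0
    have h2 : ∀ x, F x * ψ x = -(ψ x ^ 2) := by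
      intro x
      simp only [hψ]
      rcases le_total (-F x) 0 with h3 | h3
      · rw [max_eq_right h3]; simp
      · rw [max_eq_left h3]; ring
    have h4 : ∫ x, F x * ψ x ∂(vol J) =
        ∫ x, ψ x * dens Φ x ∂(vol J) - (u * ∫ x, (ψ x : ℂ) * trig c x ∂(vol J)).re := by
      have e1 : (u * ∫ x, (ψ x : ℂ) * trig c x ∂(vol J)).re =
          ∫ x, ψ x * (u * trig c x).re ∂(vol J) := by
        rw [← integral_const_mul]
        have e2 := integral_re (𝕜 := ℂ) (μ := vol J) (f := fun x => u * ((ψ x : ℂ) * trig c x))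
          (integrable_cont _ (by fun_prop))
        have e3 : RCLike.re (∫ x, u * ((ψ x : ℂ) * trig c x) ∂(vol J)) =
          (∫ x, u * ((ψ x : ℂ) * trig c x) ∂(vol J)).re := rfl
        rw [← e3, ← e2]
        refine integral_congr_ae (Eventually.of_forall fun x => ?_)
        change (u * ((ψ x : ℂ) * trig c x)).re = ψ x * (u * trig c x).re
        have e4 : u * ((ψ x : ℂ) * trig c x) = (ψ x : ℂ) * (u * trig c x) := by ring
        rw [e4, Complex.re_ofReal_mul]
      have i1 : Integrable (fun x => ψ x * dens Φ x) (vol J) :=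
        integrable_cont_real _ (hψc.mul hcd)
      have i2 : Integrable (fun x => ψ x * (u * trig c x).re) (vol J) :=
        integrable_cont_real _ (hψc.mul (Complex.continuous_re.comp (continuous_const.mul hct)))
      rw [e1, ← integral_sub i1 i2]
      refine integral_congr_ae (Eventually.of_forall fun x => ?_)
      simp only [hF]
      ring
    have h5 : (u * ∫ x, (ψ x : ℂ) * trig c x ∂(vol J)).re ≤ ∫ x, ψ x * dens Φ x ∂(vol J) := by
      refine (Complex.re_le_norm _).trans ?_
      rw [norm_mul, hu, one_mul]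
      exact h1
    simp only [h2] at h4
    rw [integral_neg] at h4
    have h6 : ∫ x, ψ x ^ 2 ∂(vol J) = 0 :=
      le_antisymm (by linarith) (integral_nonneg fun x => by positivity)
    have h7 := (integral_eq_zero_iff_of_nonneg (f := fun x => ψ x ^ 2) (fun x => sq_nonneg (ψ x))
      (integrable_cont_real _ (hψc.pow 2))).1 h6
    have h8 : (fun x => ψ x ^ 2) = fun _ => (0 : ℝ) :=
      Continuous.ae_eq_iff_eq (vol J) (hψc.pow 2) continuous_const |>.1 h7
    intro x
    have h9 := congrFun h8 x
    have h10 : ψ x = 0 := by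
      have : ψ x ^ 2 = 0 := h9
      exact pow_eq_zero_iff two_ne_zero |>.1 this
    have h11 : -F x ≤ 0 := by
      rw [← h10]
      exact le_max_left _ _
    simp only [hF] at h11
    linarith
  by_cases hz : trig c x = 0
  · rw [hz, norm_zero]
    exact dens_nonneg _ _
  · have hn : ‖trig c x‖ ≠ 0 := norm_ne_zero_iff.2 hz
    have h1 := key (conj (trig c x) / ‖trig c x‖) (by
      rw [norm_div, Complex.norm_conj, Complex.norm_real, norm_norm, div_self hn]) x
    have h2 : conj (trig c x) / (‖trig c x‖ : ℂ) * trig c x = (‖trig c x‖ : ℂ) := by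
      rw [div_mul_eq_mul_div, ← Complex.normSq_eq_conj_mul_self, Complex.normSq_eq_norm_sq]
      push_cast
      field_simp
    rw [h2, Complex.ofReal_re] at h1
    exact h1

/-- a bounded net has limits along ultrafilters -/
theorem ulim {ι : Type*} (U : Ultrafilter ι) {a : ι → ℂ} {R : ℝ}
    (h : ∀ᶠ i in (U : Filter ι), ‖a i‖ ≤ R) : ∃ z, Tendsto a U (𝓝 z) := by
  obtain ⟨z, -, hz⟩ := (isCompact_closedBall (0 : ℂ) R).ultrafilter_le_nhds (U.map a) (by
    rw [Filter.le_principal_iff]
    change ∀ᶠ i in (U : Filter ι), a i ∈ Metric.closedBall 0 R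
    filter_upwards [h] with i hi
    simpa using hi)
  exact ⟨z, hz⟩

theorem prod_roots (Φ : Finset (J → ℤ)) (x : UnitAddTorus J) :
    ((Φ.toList ++ Φ.toList.map fun α => -α).map fun α => ‖1 - mFourier α x‖).prod = dens Φ x := by
  have h1 : ∀ α : J → ℤ, ‖1 - mFourier (-α) x‖ = ‖1 - mFourier α x‖ := by
    intro α
    rw [mFourier_neg, ← map_one conj, ← map_sub, Complex.norm_conj]
    simp
  rw [List.map_append, List.prod_append, List.map_map]
  have h2 : ((fun α : J → ℤ => ‖1 - mFourier α x‖) ∘ fun α => -α) =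
      fun α => ‖1 - mFourier α x‖ := by
    funext α
    exact h1 α
  rw [h2, Finset.prod_map_toList]
  unfold dens
  rw [← Finset.prod_mul_distrib]
  exact Finset.prod_congr rfl fun α _ => by ring

theorem prod_roots' (Φ : Finset (J → ℤ)) (x : UnitAddTorus J) :
    ((Φ.toList ++ Φ.toList.map fun α => -α).map fun α => 1 - mFourier α x).prod =
      (dens Φ x : ℂ) := by
  rw [List.map_append, List.prod_append, List.map_map, Finset.prod_map_toList]
  have h2 : (Φ.toList.map ((fun α : J → ℤ => 1 - mFourier α x) ∘ fun α => -α)).prod =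
      ∏ α ∈ Φ, (1 - mFourier (-α) x) := by
    rw [← Finset.prod_map_toList]
    rfl
  rw [h2, ← Finset.prod_mul_distrib]
  unfold dens
  push_cast
  refine Finset.prod_congr rfl fun α _ => ?_
  rw [mFourier_neg]
  have h3 : (1 : ℂ) - conj (mFourier α x) = conj (1 - mFourier α x) := by
    rw [map_sub, map_one]
  rw [h3, Complex.mul_conj, Complex.normSq_eq_norm_sq]
  push_cast
  rfl

end Pool.Agent.Y798.FC
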