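import Pool.Agent.Y139.ID.Tor2

/-!
# Weyl data: definitions

`J → ℤ` is the lattice of characters of a torus `T`, and the points of the torus are the points of
`UnitAddTorus J`; `mFourier μ x = e(⟨μ, x⟩)`.
-/

set_option autoImplicit false

namespace Pool.Agent.Y798.FC

open MeasureTheory UnitAddTorus

/-- the automorphisms of the lattice of characters -/
abbrev Auts (J : Type) : Type := (J → ℤ) ≃ₗ[ℤ] (J → ℤ)

section
variable {J : Type} [Fintype J]

/-- the Haar probability measure of the torus -/
noncomputable def vol (J : Type) [Fintype J] : Measure (UnitAddTorus J) :=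
  Measure.pi fun _ => (AddCircle.haarAddCircle : Measure UnitAddCircle)

open Classical in
/-- the automorphism of the torus which is dual to the automorphism `w` of the lattice of characters:
`⟨μ, act w x⟩ = ⟨w μ, x⟩` -/
noncomputable def act (w : Auts J) (x : UnitAddTorus J) : UnitAddTorus J :=
  fun j => ∑ i, (w (Pi.single j 1) i) • x i

/-- `∏_{α ∈ Φ} |1 - e_α|²` -/
noncomputable def dens (Φ : Finset (J → ℤ)) (x : UnitAddTorus J) : ℝ :=
  ∏ α ∈ Φ, ‖1 - mFourier α x‖ ^ 2

/-- `W` is a finite group of automorphisms of the lattice of characters and `Φ` a finite set of nonzero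
characters (the positive roots) such that `∏_{α ∈ Φ} |1 - e_α|²` is invariant under `W` and has the mean value
`|W|` on the torus. -/
structure IsWeylDatum (W : Subgroup (Auts J)) (Φ : Finset (J → ℤ)) : Prop where
  fin : Finite W
  ne_zero : ∀ α ∈ Φ, α ≠ 0
  inv : ∀ w ∈ W, ∀ x, dens Φ (act w x) = dens Φ x
  mass : ∫ x, dens Φ x ∂(vol J) = Nat.card W

end

/-- The signed permutations of `ℤ^g`: the Weyl group of the symplectic group `USp(2g)`. -/
def sympW (g : ℕ) : Subgroup (Auts (Fin g)) where
  carrier := {w | ∃ (σ : Equiv.Perm (Fin g)) (s : Fin g → ℤˣ), ∀ (x : Fin g → ℤ) (j : Fin g),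
    w x j = s j * x (σ j)}
  one_mem' := ⟨1, 1, fun x j => by simp⟩
  mul_mem' := by
    rintro w w' ⟨σ, s, h⟩ ⟨σ', s', h'⟩
    refine ⟨σ' * σ, fun j => s j * s' (σ j), fun x j => ?_⟩
    change w (w' x) j = _
    rw [h, h']
    push_cast
    simp [mul_assoc]
  inv_mem' := by
    rintro w ⟨σ, s, h⟩
    refine ⟨σ⁻¹, fun j => s (σ⁻¹ j), fun x j => ?_⟩
    have h1 := h (w⁻¹ x) (σ⁻¹ j)
    have h2 : w (w⁻¹ x) = x := by
      change (w * w⁻¹) x = x
      rw [mul_inv_cancel]
      rfl
    rw [h2] at h1
    have h3 : σ (σ⁻¹ j) = j := by simp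
    rw [h3] at h1
    rw [h1, ← mul_assoc, ← Units.val_mul, Int.units_mul_self]
    simp

/-- The positive roots `2e_i`, `e_i - e_j`, `e_i + e_j` (`i < j`) of the symplectic group `USp(2g)`. -/
def sympRoots (g : ℕ) : Finset (Fin g → ℤ) :=
  (Finset.univ.image fun i : Fin g => Pi.single i 2) ∪
    ((Finset.univ.filter fun p : Fin g × Fin g => p.1 < p.2).image
      fun p => Pi.single p.1 1 - Pi.single p.2 1) ∪
    ((Finset.univ.filter fun p : Fin g × Fin g => p.1 < p.2).image
      fun p => Pi.single p.1 1 + Pi.single p.2 1)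

end Pool.Agent.Y798.FC
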