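import Pool.Agent.Y798.FC.Isol2
import Pool.Agent.Y495.FC.Div

/-! The density is a trigonometric polynomial. -/

set_option autoImplicit false

namespace Pool.Agent.Y798.FC

open MeasureTheory UnitAddTorus Pool.Agent.Y139.ID Filter Topology ComplexConjugate

variable {J : Type} [Fintype J]

theorem trig_neg' (c : (J → ℤ) →₀ ℤ) (x : UnitAddTorus J) : trig (-c) x = -trig c x := by
  have h := trig_add c (-c) x
  rw [add_neg_cancel, trig_zero] at h
  linear_combination -h

theorem one_factor (α : J → ℤ) (x : UnitAddTorus J) :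
    ((‖1 - mFourier α x‖ ^ 2 : ℝ) : ℂ) = 2 - mFourier α x - mFourier (-α) x := by
  rw [← Complex.normSq_eq_norm_sq, ← Complex.mul_conj, map_sub, map_one, ← mFourier_neg]
  have h1 : mFourier α x * mFourier (-α) x = 1 := by
    rw [← mFourier_add, add_neg_cancel, mFourier_zero]
    rfl
  linear_combination h1

theorem dens_trig (Φ : Finset (J → ℤ)) :
    ∃ c : (J → ℤ) →₀ ℤ, ∀ x, (dens Φ x : ℂ) = trig c x := by
  classical
  induction Φ using Finset.induction_on with
  | empty =>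
    refine ⟨Finsupp.single 0 1, fun x => ?_⟩
    rw [trig_single, mFourier_zero]
    simp [dens]
  | insert α Φ hα ih =>
    obtain ⟨c, hc⟩ := ih
    refine ⟨(c + c) + (-(Pool.Agent.Y495.FC.Div.shift α c) + -(Pool.Agent.Y495.FC.Div.shift (-α) c)),
      fun x => ?_⟩
    rw [trig_add, trig_add, trig_add, trig_neg', trig_neg', Pool.Agent.Y495.FC.Div.trig_shift,
      Pool.Agent.Y495.FC.Div.trig_shift, ← hc x]
    unfold dens
    rw [Finset.prod_insert hα]
    push_cast
    have h := one_factor α x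
    push_cast at h
    rw [h]
    ring

theorem dC_eq (Φ : Finset (J → ℤ)) :
    ∃ c : (J → ℤ) →₀ ℤ, (∀ x, (dens Φ x : ℂ) = trig c x) ∧ ∀ μ, dC Φ μ = (c (-μ) : ℂ) := by
  obtain ⟨c, hc⟩ := dens_trig Φ
  refine ⟨c, hc, fun μ => ?_⟩
  unfold dC
  simp only [hc]
  exact int_trig c μ

theorem finite_dC (Φ : Finset (J → ℤ)) : {μ : J → ℤ | dC Φ μ ≠ 0}.Finite := by
  obtain ⟨c, -, h⟩ := dC_eq Φ
  have h1 : {μ : J → ℤ | dC Φ μ ≠ 0} = Neg.neg ⁻¹' (c.support : Set (J → ℤ)) := by
    ext μ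
    simp [h]
  rw [h1]
  exact (Finset.finite_toSet _).preimage neg_injective.injOn

theorem dC_int (Φ : Finset (J → ℤ)) (μ : J → ℤ) : ∃ n : ℤ, dC Φ μ = n := by
  obtain ⟨c, -, h⟩ := dC_eq Φ
  exact ⟨_, h μ⟩

end Pool.Agent.Y798.FC
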