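import Pool.Agent.Y798.FC.Grid

/-! The symplectic group: the final form of the quantitative statement. -/

set_option autoImplicit false

namespace Pool.Agent.Y798.FC

open MeasureTheory UnitAddTorus Filter Topology NumberField IsDedekindDomain
  Pool.Agent.W540.BE Pool.Agent.TH553.RS Pool.Agent.TH553.ST Pool.Agent.Y798.JL
open Pool.Agent.Y139.ID (Good good_ev integrable_cont integrable_cont_real intL IsHaarOn annih
  measure_ext_fourier mFourier_apply_add exists_haarOn isClosed_annih mem_annih ev es chiW wordFun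
  idx chiW_eq_sum norm_term norm_chiW_le continuous_chiW continuous_es SD im_chiW mFourier_ev
  norm_ev ev_ne ev_neg continuous_span avg_le avg avg_sub avg_eq)

section
variable {K : Type} [Field K] [NumberField K] {g : ℕ}

/-- `log |L(1 + ε)| / log(1/ε)` -/
noncomputable def sz (L : ℂ → ℂ) (ε : ℝ) : ℝ := Real.log ‖L (1 + ε)‖ / Real.log (1 / ε)

theorem euler_sz {κ : Type} {S : Finset κ} {β : HeightOneSpectrum (𝓞 K) → κ → ℂ}
    (hβ : ∀ v, ∀ k ∈ S, ‖β v k‖ = 1) :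
    Tendsto (fun ε : ℝ => avg (fun v => (∑ k ∈ S, β v k).re) ε - sz (eulerL S β) ε) (𝓝[>] 0)
      (𝓝 0) := by
  classical
  have h1 := (size_LU (dm_mem hβ) 0).2
  refine avg_sub (C := S.card)
    (fun v => (Complex.abs_re_le_norm _).trans (norm_tr_le hβ v)) (h1.congr fun ε => ?_)
  have e1 : (1 : ℂ) + ((0 : ℝ) : ℂ) * Complex.I + (ε : ℂ) = 1 + ε := by simp
  rw [e1, dm_LU]
  unfold sz
  congr 1
  unfold qt Pool.Agent.Y139.IM.mean
  congr 2
  funext v
  rw [dm_trace]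
  simp

theorem word_sz (θ : HeightOneSpectrum (𝓞 K) → UnitAddTorus (Fin g)) {r : ℕ} (k : Fin r → ℕ) :
    Tendsto (fun ε : ℝ => avg (fun v => (chiW k (dbl (θ v))).re) ε - sz (wordL θ k) ε) (𝓝[>] 0)
      (𝓝 0) := by
  have h1 := euler_sz (norm_word (θ := θ) k)
  simp only [chiW_eq_sum]
  exact h1

/-- **Finite level, without hypothesis.** -/
theorem finite_level (hC : StmC) (hirr : StmIrr) {F : Finset (Fin g → ℤ)}
    (hF : ∀ ρ : Measure (UnitAddTorus (Fin g)), IsFiniteMeasure ρ →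
      (∀ μ : Fin g → ℤ, ∃ n : ℤ, ∫ x, mFourier μ x ∂ρ = n) →
      (∀ μ ∈ F, ∫ x, mFourier μ x ∂ρ = dC (sympRoots g) μ) →
      ∃ (Γ : AddSubgroup (Fin g → ℤ)) (a : UnitAddTorus (Fin g)), IsCosetLaw (sympRoots g) Γ a ρ)
    {G : (Fin g → ℤ) → UnitAddTorus (Fin (g + g)) → ℂ}
    (hG : ∀ μ, G μ ∈ Submodule.span ℤ (wordFun (g + g)))
    (hGorb : ∀ μ x, orb (sympW g) μ x = G μ (dbl x)) {R : ℕ}
    (hR : ∀ μ ∈ F, G μ ∈ Submodule.span ℤ (wordFunR (g + g) R))
    {m : ℕ} (f : Fin m → UnitAddTorus (Fin g) → ℝ) (hf : ∀ i, Continuous (f i))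
    (hfW : ∀ i, ∀ w ∈ sympW g, ∀ x, f i (act w x) = f i x) {δ : ℝ} (hδ : 0 < δ) :
    ∃ (η : ℝ) (R' : ℕ), 0 < η ∧ ∀ (K : Type) [Field K] [NumberField K]
      (θ : HeightOneSpectrum (𝓞 K) → UnitAddTorus (Fin g)), ∀ᶠ ε : ℝ in 𝓝[>] 0,
        (∃ (r : ℕ) (k : Fin r → ℕ), r ≤ R' ∧ (∀ j, k j ≤ g + g) ∧
          ∀ n : ℤ, η < |sz (wordL θ k) ε - n|) ∨
        (∃ (r : ℕ) (k : Fin r → ℕ), r ≤ R ∧ (∀ j, k j ≤ g + g) ∧
          η < |sz (wordL θ k) ε - stM g k|) ∨
        ∃ (Γ : AddSubgroup (Fin g → ℤ)) (a : UnitAddTorus (Fin g)), Adm g Γ a ∧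
          ∀ σ : Measure (UnitAddTorus (Fin g)), IsHaarOn (annih Γ) σ → ∀ i,
            |avg (fun v => f i (θ v)) ε - cosetMean (sympW g) (sympRoots g) σ a (f i)| ≤ δ := by
  obtain ⟨η, R', hη, hmain⟩ := near hC hirr hF hG hGorb hR f hf hfW hδ
  refine ⟨η / 2, R', half_pos hη, fun K _ _ θ => ?_⟩
  have hev : ∀ M : ℕ, ∀ᶠ ε : ℝ in 𝓝[>] 0, ∀ (r : Fin (M + 1)) (k : Fin r → Fin (g + g + 1)),
      |avg (fun v => (chiW (fun j => (k j : ℕ)) (dbl (θ v))).re) ε -
        sz (wordL θ fun j => (k j : ℕ)) ε| < η / 2 := by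
    intro M
    rw [Filter.eventually_all]
    intro r
    rw [Filter.eventually_all]
    intro k
    have h2 := (word_sz θ (fun j => (k j : ℕ))).abs
    rw [abs_zero] at h2
    exact h2.eventually_lt_const (half_pos hη)
  filter_upwards [hev R', hev R, good_ev (K := K)] with ε h1 h2 h3
  have hint : ∀ (r : ℕ) (k : Fin r → ℕ),
      ∫ x, chiW k (dbl x) ∂(pm θ ε : Measure (UnitAddTorus (Fin g))) =
        ((avg (fun v => (chiW k (dbl (θ v))).re) ε : ℝ) : ℂ) := by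
    intro r k
    rw [pm_int θ h3 (continuous_word k)]
    have hb : ∀ v, ‖chiW k (dbl (θ v))‖ ≤ (idx (g + g) k).card := fun v => norm_chiW_le k _
    apply Complex.ext
    · rw [cE_re h3 hb, Complex.ofReal_re]
    · rw [cE_im h3 hb, Complex.ofReal_im]
      have h4 : (fun v => (chiW k (dbl (θ v))).im) = fun _ => 0 :=
        funext fun v => im_chiW k (dbl_SD _)
      rw [h4, avg_eq]
      simp
  by_cases hA : ∃ (r : ℕ) (k : Fin r → ℕ), r ≤ R' ∧ (∀ j, k j ≤ g + g) ∧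
      ∀ n : ℤ, η / 2 < |sz (wordL θ k) ε - n|
  · exact Or.inl hA
  by_cases hB : ∃ (r : ℕ) (k : Fin r → ℕ), r ≤ R ∧ (∀ j, k j ≤ g + g) ∧
      η / 2 < |sz (wordL θ k) ε - stM g k|
  · exact Or.inr (Or.inl hB)
  push Not at hA hB
  right
  right
  obtain ⟨Γ, a, hadm, hlaw⟩ := hmain (pm θ ε) (fun r k hr hk => by
    obtain ⟨n, hn⟩ := hA r k hr hk
    refine ⟨n, ?_⟩
    have h5 : |avg (fun v => (chiW k (dbl (θ v))).re) ε - sz (wordL θ k) ε| < η / 2 :=
      h1 ⟨r, by omega⟩ (fun j => ⟨k j, by have := hk j; omega⟩)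
    rw [hint, ← Complex.ofReal_intCast, ← Complex.ofReal_sub, Complex.norm_real, Real.norm_eq_abs]
    calc |avg (fun v => (chiW k (dbl (θ v))).re) ε - n|
        = |(avg (fun v => (chiW k (dbl (θ v))).re) ε - sz (wordL θ k) ε) +
          (sz (wordL θ k) ε - n)| := by congr 1; ring
      _ ≤ |avg (fun v => (chiW k (dbl (θ v))).re) ε - sz (wordL θ k) ε| +
          |sz (wordL θ k) ε - n| := abs_add_le _ _
      _ ≤ η := by linarith) (fun r k hr hk => by
    have hn := hB r k hr hk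
    have h5 : |avg (fun v => (chiW k (dbl (θ v))).re) ε - sz (wordL θ k) ε| < η / 2 :=
      h2 ⟨r, by omega⟩ (fun j => ⟨k j, by have := hk j; omega⟩)
    rw [hint, stMult_eq, ← Complex.ofReal_sub, Complex.norm_real, Real.norm_eq_abs]
    calc |avg (fun v => (chiW k (dbl (θ v))).re) ε - stM g k|
        = |(avg (fun v => (chiW k (dbl (θ v))).re) ε - sz (wordL θ k) ε) +
          (sz (wordL θ k) ε - stM g k)| := by congr 1; ring
      _ ≤ |avg (fun v => (chiW k (dbl (θ v))).re) ε - sz (wordL θ k) ε| +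
          |sz (wordL θ k) ε - stM g k| := abs_add_le _ _
      _ ≤ η := by linarith)
  refine ⟨Γ, a, hadm, fun σ hσ i => ?_⟩
  have h6 := hlaw σ hσ i
  have h7 : ∫ x, f i x ∂(pm θ ε : Measure (UnitAddTorus (Fin g))) = avg (fun v => f i (θ v)) ε := by
    have h8 := pm_int θ h3 (f := fun x => (f i x : ℂ)) (Complex.continuous_ofReal.comp (hf i))
    rw [integral_complex_ofReal] at h8
    have h9 := congrArg Complex.re h8
    rw [Complex.ofReal_re] at h9
    obtain ⟨C, hC'⟩ := isCompact_univ.exists_bound_of_continuousOn (f := f i) (hf i).continuousOn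
    rw [cE_re h3 (B := C) (fun v => by
      rw [Complex.norm_real]
      exact hC' _ (Set.mem_univ _))] at h9
    simpa only [Complex.ofReal_re] using h9
  rwa [h7] at h6

end

end Pool.Agent.Y798.FC
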