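import Pool.Agent.Y798.FC.Struct

/-! The finite criterion for an arbitrary Weyl datum. -/

set_option autoImplicit false

namespace Pool.Agent.Y798.FC

open MeasureTheory UnitAddTorus Filter Topology NumberField IsDedekindDomain
  Pool.Agent.W540.BE Pool.Agent.TH553.RS Pool.Agent.TH553.ST Pool.Agent.Y798.JL
open Pool.Agent.Y139.ID (Good good_ev integrable_cont integrable_cont_real intL IsHaarOn annih
  measure_ext_fourier mFourier_apply_add exists_haarOn isClosed_annih mem_annih)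

section
variable {K : Type} [Field K] [NumberField K] {r : ℕ}

/-- the Euler product of an orbit -/
noncomputable def orbitL (W : Subgroup (Auts (Fin r)))
    (θ : HeightOneSpectrum (𝓞 K) → UnitAddTorus (Fin r)) (μ : Fin r → ℤ) (s : ℂ) : ℂ :=
  ∏' v : HeightOneSpectrum (𝓞 K), (∏ᶠ w : W, (1 - mFourier ((w : Auts (Fin r)) μ) (θ v) *
    (Ideal.absNorm v.asIdeal : ℂ) ^ (-s)))⁻¹

theorem orbitL_eq (W : Subgroup (Auts (Fin r))) [Fintype W]
    (θ : HeightOneSpectrum (𝓞 K) → UnitAddTorus (Fin r)) (μ : Fin r → ℤ) :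
    orbitL W θ μ = eulerL (Finset.univ : Finset W)
      (fun v w => mFourier ((w : Auts (Fin r)) μ) (θ v)) := by
  funext s
  unfold orbitL eulerL
  refine tprod_congr fun v => ?_
  rw [finprod_eq_prod_of_fintype]

theorem norm_orbit {W : Subgroup (Auts (Fin r))} [Fintype W]
    (θ : HeightOneSpectrum (𝓞 K) → UnitAddTorus (Fin r)) (μ : Fin r → ℤ)
    (v : HeightOneSpectrum (𝓞 K)) : ∀ w ∈ (Finset.univ : Finset W),
    ‖(fun v (w : W) => mFourier ((w : Auts (Fin r)) μ) (θ v)) v w‖ = 1 := fun _ _ => norm_mF _ _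

theorem one_add_zero : (1 : ℂ) + ((0 : ℝ) : ℂ) * Complex.I = 1 := by simp

/-- the moments of the law from the orders -/
theorem orbit_mean (him : StmIm) {W : Subgroup (Auts (Fin r))} (hW : Finite W)
    {θ : HeightOneSpectrum (𝓞 K) → UnitAddTorus (Fin r)} {μ : Fin r → ℤ} {τ : ℝ}
    (h : ContAt (orbitL W θ μ) (1 + τ * Complex.I)) :
    ∃ m : ℤ, PoleAt (orbitL W θ μ) (1 + τ * Complex.I) m ∧
      Tendsto (cE fun v => orb W μ (θ v) * ht τ v) (𝓝[>] 0) (𝓝 (m : ℂ)) := by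
  let _ : Fintype W := Fintype.ofFinite W
  rw [orbitL_eq] at h ⊢
  obtain ⟨m, h1, h2⟩ := cont_mean (norm_orbit θ μ) him h
  refine ⟨m, h1, ?_⟩
  simpa only [orb_eq] using h2

theorem orbit_mean_one (him : StmIm) {W : Subgroup (Auts (Fin r))} (hW : Finite W)
    {θ : HeightOneSpectrum (𝓞 K) → UnitAddTorus (Fin r)} {μ : Fin r → ℤ}
    (h : ContAt (orbitL W θ μ) 1) :
    ∃ m : ℤ, PoleAt (orbitL W θ μ) 1 m ∧
      Tendsto (cE fun v => orb W μ (θ v)) (𝓝[>] 0) (𝓝 (m : ℂ)) := by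
  obtain ⟨m, h1, h2⟩ := orbit_mean (τ := 0) him hW (by rw [one_add_zero]; exact h)
  rw [one_add_zero] at h1
  simp only [ht_zero, mul_one] at h2
  exact ⟨m, h1, h2⟩

theorem orbit_pole_one (him : StmIm) {W : Subgroup (Auts (Fin r))} (hW : Finite W)
    {θ : HeightOneSpectrum (𝓞 K) → UnitAddTorus (Fin r)} {μ : Fin r → ℤ} {n : ℤ}
    (h : PoleAt (orbitL W θ μ) 1 n) :
    Tendsto (cE fun v => orb W μ (θ v)) (𝓝[>] 0) (𝓝 (n : ℂ)) := by
  let _ : Fintype W := Fintype.ofFinite W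
  rw [orbitL_eq] at h
  have h2 := pole_mean' (norm_orbit θ μ) him (τ := 0) (by rw [one_add_zero]; exact h)
  simp only [ht_zero, mul_one] at h2
  simpa only [orb_eq] using h2

theorem orbit_nat (him : StmIm) (htaub : StmTaub) {W : Subgroup (Auts (Fin r))} (hW : Finite W)
    {θ : HeightOneSpectrum (𝓞 K) → UnitAddTorus (Fin r)} {μ : Fin r → ℤ} {c : ℤ}
    (hc : Tendsto (cE fun v => orb W μ (θ v)) (𝓝[>] 0) (𝓝 (c : ℂ)))
    (h0 : ∀ τ : ℝ, τ ≠ 0 → Tendsto (cE fun v => orb W μ (θ v) * ht τ v) (𝓝[>] 0) (𝓝 0))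
    (h : ∀ τ : ℝ, ContAt (orbitL W θ μ) (1 + τ * Complex.I)) :
    Tendsto (mn fun v => orb W μ (θ v)) atTop (𝓝 (c : ℂ)) := by
  let _ : Fintype W := Fintype.ofFinite W
  rw [orbitL_eq] at h
  simp only [orb_eq] at hc h0 ⊢
  exact nat_mean (norm_orbit θ μ) him htaub hc h0 h

/-- the mean of a real function for the law `|W|⁻¹ |D|²` times the Haar measure of the coset -/
noncomputable def cosetMean (W : Subgroup (Auts (Fin r))) (Φ : Finset (Fin r → ℤ))
    (σ : Measure (UnitAddTorus (Fin r))) (a : UnitAddTorus (Fin r))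
    (f : UnitAddTorus (Fin r) → ℝ) : ℝ :=
  (Nat.card W : ℝ)⁻¹ * ∫ x, f (a + x) * dens Φ (a + x) ∂σ

theorem cosetMean_eq {W : Subgroup (Auts (Fin r))} {Φ : Finset (Fin r → ℤ)}
    {Γ : AddSubgroup (Fin r → ℤ)} {a : UnitAddTorus (Fin r)}
    {ρ σ : Measure (UnitAddTorus (Fin r))} (h : IsCosetLaw Φ Γ a ρ) (hσ : IsHaarOn (annih Γ) σ)
    {f : UnitAddTorus (Fin r) → ℝ} (hf : Continuous f) :
    (Nat.card W : ℂ)⁻¹ * ∫ x, (f x : ℂ) ∂ρ = ((cosetMean W Φ σ a f : ℝ) : ℂ) := by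
  rw [h.2.2 σ hσ (fun x => (f x : ℂ)) (Complex.continuous_ofReal.comp hf)]
  unfold cosetMean
  push_cast
  rw [← integral_complex_ofReal]
  congr 1
  refine integral_congr_ae (Eventually.of_forall fun x => ?_)
  simp

/-- **The criterion for a Weyl datum.** -/
theorem gen (hdiv : StmDiv) (hstr : StmStr) (him : StmIm) (htaub : StmTaub) {r : ℕ}
    {W : Subgroup (Auts (Fin r))} {Φ : Finset (Fin r → ℤ)} (hΦ : IsWeylDatum W Φ) :
    ∃ F : Finset (Fin r → ℤ), ∀ (K : Type) [Field K] [NumberField K]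
      (θ : HeightOneSpectrum (𝓞 K) → UnitAddTorus (Fin r)),
      (∀ μ, ContAt (orbitL W θ μ) 1) →
      (∀ μ ∈ F, ∃ m : ℤ, (m : ℂ) = dC Φ μ ∧ PoleAt (orbitL W θ μ) 1 m) →
      ∃ (Γ : AddSubgroup (Fin r → ℤ)) (a : UnitAddTorus (Fin r)),
        (∀ γ, γ ∈ Γ ↔ (PoleAt (orbitL W θ γ) 1 (Nat.card W) ∨
          PoleAt (orbitL W θ γ) 1 (-(Nat.card W)))) ∧
        (∀ γ ∈ Γ, mFourier γ a = 1 ∨ mFourier γ a = -1) ∧
        (∀ w ∈ W, ∀ γ ∈ Γ, w γ ∈ Γ ∧ mFourier (w γ) a = mFourier γ a) ∧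
        ∀ σ : Measure (UnitAddTorus (Fin r)), IsHaarOn (annih Γ) σ →
          ∀ f : UnitAddTorus (Fin r) → ℝ, Continuous f → (∀ w ∈ W, ∀ x, f (act w x) = f x) →
            Tendsto (Pool.Agent.Y139.ID.avg fun v => f (θ v)) (𝓝[>] 0)
              (𝓝 (cosetMean W Φ σ a f)) ∧
            (NoInv W → (∀ μ (τ : ℝ), ContAt (orbitL W θ μ) (1 + τ * Complex.I)) →
              Tendsto (mn fun v => f (θ v)) atTop (𝓝 (cosetMean W Φ σ a f))) := by
  obtain ⟨F, hF⟩ := dir_law hdiv hstr hΦ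
  refine ⟨F, fun K _ _ θ hcont hFm => ?_⟩
  have hWfin := hΦ.fin
  let _ : Fintype W := Fintype.ofFinite W
  choose c hpole hc using fun μ => orbit_mean_one him hWfin (hcont μ)
  have hFc : ∀ μ ∈ F, (c μ : ℂ) = dC Φ μ := by
    intro μ hμ
    obtain ⟨m, h1, h2⟩ := hFm μ hμ
    rw [← h1]
    exact tendsto_nhds_unique (hc μ) (orbit_pole_one him hWfin h2)
  obtain ⟨ρ, Γ, a, hfin, hco, hlaw, hdir, htau⟩ := hF K θ c hc hFc
  have hinvW : ∀ w ∈ W, ∀ μ : Fin r → ℤ, ∫ x, mFourier (w μ) x ∂ρ = ∫ x, mFourier μ x ∂ρ := by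
    intro w hw μ
    rw [hco, hco]
    have h1 : (fun v => orb W (w μ) (θ v)) = fun v => orb W μ (θ v) := by
      funext v
      rw [orb_eq, orb_eq]
      refine Fintype.sum_equiv (Equiv.mulRight (⟨w, hw⟩ : W)) _ _ fun w' => rfl
    have h2 := hc (w μ)
    rw [h1] at h2
    exact tendsto_nhds_unique h2 (hc μ)
  have hmass : (ρ.real Set.univ : ℂ) = Nat.card W := by
    rw [← mass_eq, hco]
    have h1 : Tendsto (cE fun v => orb W 0 (θ v)) (𝓝[>] 0) (𝓝 (Nat.card W : ℂ)) := by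
      refine tendsto_const_nhds.congr' ?_
      filter_upwards [good_ev (K := K)] with ε hε
      have h2 : (fun v => orb W 0 (θ v)) = fun _ => (Nat.card W : ℂ) * 1 := by
        funext v
        rw [orb_eq]
        simp [mFourier_zero, Nat.card_eq_fintype_card]
      rw [h2, cE_const_mul, cE_one hε, mul_one]
    exact tendsto_nhds_unique (hc 0) h1
  have hcard0 : (Nat.card W : ℂ) ≠ 0 := by
    have : Nat.card W ≠ 0 := Nat.card_pos.ne'
    exact_mod_cast this
  have hst := coset_stable hlaw hinvW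
  refine ⟨Γ, a, fun γ => ?_, hlaw.2.1, fun w hw γ hγ => ⟨hst w hw γ hγ, ?_⟩, fun σ hσ f hf hfW => ?_⟩
  · rw [hlaw.1, hmass, hco]
    constructor
    · rintro (h | h)
      · left
        have h1 : c γ = Nat.card W := by exact_mod_cast h
        rw [← h1]
        exact hpole γ
      · right
        have h1 : c γ = -(Nat.card W) := by exact_mod_cast h
        rw [← h1]
        exact hpole γ
    · rintro (h | h)
      · left
        have h1 := tendsto_nhds_unique (hc γ) (orbit_pole_one him hWfin h)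
        exact_mod_cast h1
      · right
        have h1 := tendsto_nhds_unique (hc γ) (orbit_pole_one him hWfin h)
        exact_mod_cast h1
  · have h1 := coset_value hlaw (hst w hw γ hγ)
    rw [hinvW w hw, coset_value hlaw hγ, hmass] at h1
    exact (mul_right_cancel₀ hcard0 h1).symm
  · have hfC : Continuous fun x => (f x : ℂ) := Complex.continuous_ofReal.comp hf
    have hfCW : ∀ w ∈ W, ∀ x, ((f (act w x) : ℝ) : ℂ) = ((f x : ℝ) : ℂ) := fun w hw x => by
      rw [hfW w hw]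
    constructor
    · have h1 := hdir (fun x => (f x : ℂ)) hfC hfCW
      rw [cosetMean_eq hlaw hσ hf] at h1
      have h2 := (Complex.continuous_re.tendsto _).comp h1
      rw [Complex.ofReal_re] at h2
      obtain ⟨C, hC⟩ := isCompact_univ.exists_bound_of_continuousOn (f := f) hf.continuousOn
      refine h2.congr' ?_
      filter_upwards [good_ev (K := K)] with ε hε
      simp only [Function.comp]
      rw [cE_re hε (B := C) (fun v => by
        rw [Complex.norm_real]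
        exact hC _ (Set.mem_univ _))]
      simp only [Complex.ofReal_re]
    · intro hNI hline
      have h0 : ∀ (μ : Fin r → ℤ) (τ : ℝ), τ ≠ 0 →
          Tendsto (cE fun v => orb W μ (θ v) * ht τ v) (𝓝[>] 0) (𝓝 0) := by
        intro μ τ hτ
        refine htau hNI τ hτ (fun μ => ?_) μ
        obtain ⟨m, -, h2⟩ := orbit_mean him hWfin (hline μ τ)
        exact ⟨m, h2⟩
      have hmn : ∀ μ, Tendsto (mn fun v => orb W μ (θ v)) atTop (𝓝 (c μ : ℂ)) := fun μ =>
        orbit_nat him htaub hWfin (hc μ) (h0 μ) (hline μ)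
      have h1 := nat_law hWfin hmn hco hfC hfCW
      rw [cosetMean_eq hlaw hσ hf] at h1
      have h2 := (Complex.continuous_re.tendsto _).comp h1
      rw [Complex.ofReal_re] at h2
      refine h2.congr fun n => ?_
      simp only [Function.comp]
      rw [re_mn]
      simp only [Complex.ofReal_re]

end

end Pool.Agent.Y798.FC
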