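import Pool.Agent.Y798.FC.Near

/-! Finite cosets. -/

set_option autoImplicit false

namespace Pool.Agent.Y798.FC

open MeasureTheory UnitAddTorus Filter Topology
open Pool.Agent.Y139.ID (integrable_cont integrable_cont_real IsHaarOn annih
  measure_ext_fourier mFourier_apply_add mFourier_apply_neg exists_haarOn isClosed_annih mem_annih)

section
variable {J : Type} [Fintype J]

theorem haar_top : IsHaarOn (annih (⊥ : AddSubgroup (J → ℤ))) (vol J) where
  closed := isClosed_annih _
  mass := measure_univ
  supp := by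
    have h1 : (annih (⊥ : AddSubgroup (J → ℤ)) : Set (UnitAddTorus J)) = Set.univ := by
      rw [Set.eq_univ_iff_forall]
      intro x
      refine mem_annih.2 fun γ hγ => ?_
      rw [AddSubgroup.mem_bot.1 hγ, mFourier_zero]
      rfl
    rw [h1, Set.compl_univ, measure_empty]
  inv := fun h _ => by
    have hm : Measurable fun x : UnitAddTorus J => h + x := (continuous_const.add continuous_id).measurable
    have : IsFiniteMeasure ((vol J).map fun x => h + x) := Measure.isFiniteMeasure_map _ _
    refine measure_ext_fourier fun n => ?_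
    rw [integral_map hm.aemeasurable (mFourier n).continuous.aestronglyMeasurable]
    simp only [mFourier_apply_add]
    rw [integral_const_mul, int_mFourier]
    by_cases hn : n = 0
    · rw [hn, mFourier_zero]
      simp
    · rw [if_neg hn, mul_zero]

theorem vol_add (a : UnitAddTorus J) {F : UnitAddTorus J → ℝ} (hF : Continuous F) :
    ∫ x, F (a + x) ∂(vol J) = ∫ x, F x ∂(vol J) := by
  have h := haar_top (J := J)
  have hm : Measurable fun x : UnitAddTorus J => a + x := (continuous_const.add continuous_id).measurable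
  have h1 := h.inv a (mem_annih.2 fun γ hγ => by
    rw [AddSubgroup.mem_bot.1 hγ, mFourier_zero]
    rfl)
  conv_rhs => rw [← h1]
  rw [integral_map hm.aemeasurable hF.aestronglyMeasurable]

theorem finite_annih {Γ : AddSubgroup (J → ℤ)} {N : ℕ} (hN : 0 < N)
    (h : ∀ μ : J → ℤ, N • μ ∈ Γ) : Finite (annih Γ) := by
  classical
  have h1 : (annih Γ : Set (UnitAddTorus J)) ⊆
      Set.pi Set.univ fun _ : J => {u : UnitAddCircle | N • u = 0} := by
    intro x hx j _
    have h2 := mem_annih.1 hx _ (h (Pi.single j 1))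
    simp only [Set.mem_ofPred_eq]
    have h3 : mFourier (N • (Pi.single j 1 : J → ℤ)) x = fourier (N : ℤ) (x j) := by
      simp only [mFourier, ContinuousMap.coe_mk]
      rw [Finset.prod_eq_single j]
      · simp
      · intro i _ hi
        simp [Pi.single_eq_of_ne hi]
      · simp
    rw [h3, fourier_apply] at h2
    have h4 : AddCircle.toCircle ((N : ℤ) • x j) = AddCircle.toCircle (0 : UnitAddCircle) := by
      apply Circle.coe_injective
      rw [h2, AddCircle.toCircle_zero]
      rfl
    have h5 := AddCircle.injective_toCircle one_ne_zero h4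
    rw [natCast_zsmul] at h5
    exact h5
  have h6 : (Set.pi Set.univ fun _ : J => {u : UnitAddCircle | N • u = 0}).Finite :=
    Set.Finite.pi fun _ => AddCircle.finite_torsion (1 : ℝ) hN
  exact (h6.subset h1).to_subtype

open Classical in
/-- the uniform measure on a finite subgroup -/
noncomputable def unifM (H : AddSubgroup (UnitAddTorus J)) [Fintype H] :
    Measure (UnitAddTorus J) :=
  ((Fintype.card H : ENNReal)⁻¹) • ∑ h : H, Measure.dirac (h : UnitAddTorus J)

theorem haar_unif (H : AddSubgroup (UnitAddTorus J)) [Fintype H] : IsHaarOn H (unifM H) where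
  closed := (Set.toFinite (H : Set (UnitAddTorus J))).isClosed
  mass := by
    unfold unifM
    rw [Measure.smul_apply, Measure.finsetSum_apply, smul_eq_mul]
    simp only [measure_univ, Finset.sum_const, Finset.card_univ, nsmul_eq_mul, mul_one]
    exact ENNReal.inv_mul_cancel (by exact_mod_cast Fintype.card_ne_zero) (ENNReal.natCast_ne_top _)
  supp := by
    have hc : MeasurableSet ((H : Set (UnitAddTorus J))ᶜ) :=
      (Set.toFinite (H : Set (UnitAddTorus J))).isClosed.measurableSet.compl
    unfold unifM
    rw [Measure.smul_apply, Measure.finsetSum_apply, smul_eq_mul, mul_eq_zero]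
    right
    refine Finset.sum_eq_zero fun h _ => ?_
    rw [Measure.dirac_apply' _ hc]
    simp
  inv := fun k hk => by
    have hm : Measurable fun x : UnitAddTorus J => k + x :=
      (continuous_const.add continuous_id).measurable
    refine Measure.ext fun s hs => ?_
    rw [Measure.map_apply hm hs]
    unfold unifM
    rw [Measure.smul_apply, Measure.smul_apply, Measure.finsetSum_apply, Measure.finsetSum_apply]
    congr 1
    refine Fintype.sum_equiv (Equiv.addLeft (⟨k, hk⟩ : H)) _ _ fun h => ?_
    rw [Measure.dirac_apply' _ (hm hs), Measure.dirac_apply' _ hs]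
    rfl

theorem int_unifM (H : AddSubgroup (UnitAddTorus J)) [Fintype H] {F : UnitAddTorus J → ℝ}
    (hF : Continuous F) : ∫ x, F x ∂(unifM H) = (Fintype.card H : ℝ)⁻¹ * ∑ h : H, F h := by
  unfold unifM
  rw [integral_smul_measure, integral_finsetSum_measure fun h _ => integrable_cont_real _ hF]
  simp only [integral_dirac, ENNReal.toReal_inv, ENNReal.toReal_natCast, smul_eq_mul]

end

section
variable {r : ℕ}

theorem cosetMean_bot (W : Subgroup (Auts (Fin r))) (Φ : Finset (Fin r → ℤ))
    (a : UnitAddTorus (Fin r)) {f : UnitAddTorus (Fin r) → ℝ} (hf : Continuous f) :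
    cosetMean W Φ (vol (Fin r)) a f = (Nat.card W : ℝ)⁻¹ * ∫ x, f x * dens Φ x ∂(vol (Fin r)) := by
  unfold cosetMean
  rw [vol_add a (F := fun x => f x * dens Φ x) (hf.mul (continuous_dens Φ))]

/-- the mean for the discretised law -/
noncomputable def gridM (W : Subgroup (Auts (Fin r))) (Φ : Finset (Fin r → ℤ))
    (A : Finset (UnitAddTorus (Fin r))) (f : UnitAddTorus (Fin r) → ℝ) : ℝ :=
  (Nat.card W : ℝ)⁻¹ * ((A.card : ℝ)⁻¹ * ∑ x ∈ A, f x * dens Φ x)

theorem exists_grid {W : Subgroup (Auts (Fin r))} {Φ : Finset (Fin r → ℤ)}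
    {Γ : AddSubgroup (Fin r → ℤ)} {a : UnitAddTorus (Fin r)} {N : ℕ} (hN : 0 < N)
    (h : ∀ μ : Fin r → ℤ, N • μ ∈ Γ)
    (hW : ∀ w ∈ W, ∀ γ ∈ Γ, w γ ∈ Γ ∧ mFourier (w γ) a = mFourier γ a) :
    ∃ (A : Finset (UnitAddTorus (Fin r))) (σ : Measure (UnitAddTorus (Fin r))),
      IsHaarOn (annih Γ) σ ∧ a ∈ A ∧ (∀ x ∈ A, ∀ y ∈ A, ∀ z ∈ A, x - y + z ∈ A) ∧
      (∀ w ∈ W, ∀ x ∈ A, act w x ∈ A) ∧
      ∀ f : UnitAddTorus (Fin r) → ℝ, Continuous f → cosetMean W Φ σ a f = gridM W Φ A f := by
  classical
  have hfin := finite_annih hN h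
  let _ : Fintype (annih Γ) := Fintype.ofFinite _
  have hmem : ∀ x, x ∈ Finset.univ.image (fun u : annih Γ => a + (u : UnitAddTorus (Fin r))) ↔
      x - a ∈ annih Γ := by
    intro x
    rw [Finset.mem_image]
    constructor
    · rintro ⟨u, -, rfl⟩
      rw [add_sub_cancel_left]
      exact u.2
    · intro hx
      exact ⟨⟨x - a, hx⟩, Finset.mem_univ _, by simp⟩
  refine ⟨Finset.univ.image (fun u : annih Γ => a + (u : UnitAddTorus (Fin r))),
    unifM (annih Γ), haar_unif _, ?_, ?_, ?_, ?_⟩
  · rw [hmem, sub_self]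
    exact zero_mem _
  · intro x hx y hy z hz
    rw [hmem] at *
    have e : x - y + z - a = (x - a) - (y - a) + (z - a) := by abel
    rw [e]
    exact add_mem (sub_mem hx hy) hz
  · intro w hw x hx
    rw [hmem] at *
    refine mem_annih.2 fun γ hγ => ?_
    have h1 := mem_annih.1 hx (w γ) (hW w hw γ hγ).1
    rw [sub_eq_add_neg, mFourier_apply_add, mFourier_apply_neg, (hW w hw γ hγ).2] at h1
    rw [sub_eq_add_neg, mFourier_apply_add, mFourier_apply_neg, mF_act]
    exact h1
  · intro f hf
    have hinj : Function.Injective fun u : annih Γ => a + (u : UnitAddTorus (Fin r)) :=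
      fun u v huv => Subtype.ext (add_left_cancel huv)
    have hF : Continuous fun x => f (a + x) * dens Φ (a + x) := by
      have h1 := continuous_dens Φ
      have h2 : Continuous fun x : UnitAddTorus (Fin r) => a + x := by fun_prop
      exact (hf.comp h2).mul (h1.comp h2)
    unfold cosetMean gridM
    rw [int_unifM _ hF, Finset.sum_image fun u _ v _ huv => hinj huv,
      Finset.card_image_of_injective _ hinj, Finset.card_univ]

end

end Pool.Agent.Y798.FC
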