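import Pool.Agent.Y798.FC.Core

/-! The isolation theorem. -/

set_option autoImplicit false

namespace Pool.Agent.Y798.FC

open MeasureTheory UnitAddTorus Pool.Agent.Y139.ID Filter Topology ComplexConjugate

variable {J : Type} [Fintype J]

theorem intL_apply (ρ : Measure (UnitAddTorus J)) [IsFiniteMeasure ρ]
    (p f : C(UnitAddTorus J, ℂ)) : intL ρ p f = ∫ x, f x * p x ∂ρ := rfl

/-- the density as a continuous function -/
noncomputable def densC (Φ : Finset (J → ℤ)) : C(UnitAddTorus J, ℂ) :=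
  ⟨fun x => (dens Φ x : ℂ), Complex.continuous_ofReal.comp (continuous_dens Φ)⟩

theorem int_norm_sq (ρ : Measure (UnitAddTorus J)) [IsFiniteMeasure ρ] (f : C(UnitAddTorus J, ℂ)) :
    intL ρ 1 (f * star f) = ((∫ x, ‖f x‖ ^ 2 ∂ρ : ℝ) : ℂ) := by
  rw [intL_apply, ← integral_complex_ofReal]
  refine integral_congr_ae (Eventually.of_forall fun x => ?_)
  simp only [ContinuousMap.mul_apply, ContinuousMap.star_apply, ContinuousMap.one_apply, mul_one,
    RCLike.star_def]
  rw [Complex.mul_conj, Complex.normSq_eq_norm_sq]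

theorem dens_norm_sq (Φ : Finset (J → ℤ)) (f : C(UnitAddTorus J, ℂ)) :
    intL (vol J) (densC Φ) (f * star f) = ((∫ x, ‖f x‖ ^ 2 * dens Φ x ∂(vol J) : ℝ) : ℂ) := by
  rw [intL_apply, ← integral_complex_ofReal]
  refine integral_congr_ae (Eventually.of_forall fun x => ?_)
  simp only [ContinuousMap.mul_apply, ContinuousMap.star_apply, RCLike.star_def, densC,
    ContinuousMap.coe_mk]
  rw [Complex.mul_conj, Complex.normSq_eq_norm_sq]
  push_cast
  rfl

theorem dC_zero (Φ : Finset (J → ℤ)) : dC Φ 0 = ((∫ x, dens Φ x ∂(vol J) : ℝ) : ℂ) := by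
  unfold dC
  rw [← integral_complex_ofReal]
  refine integral_congr_ae (Eventually.of_forall fun x => ?_)
  simp [mFourier_zero]

theorem mass_eq (ρ : Measure (UnitAddTorus J)) [IsFiniteMeasure ρ] :
    ∫ x, mFourier 0 x ∂ρ = (ρ.real Set.univ : ℂ) := by
  simp [mFourier_zero]

/-- the limit functional is given by a trigonometric polynomial -/
theorem finite_of_bound {ξ : (J → ℤ) → ℤ} {A : ℝ}
    (h : ∀ S : Finset (J → ℤ), ∑ μ ∈ S, (ξ μ : ℝ) ^ 2 ≤ A) : (Function.support ξ).Finite := by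
  by_contra hinf
  obtain ⟨k, hk⟩ := exists_nat_gt A
  obtain ⟨S, hS, hcard⟩ := Set.Infinite.exists_subset_card_eq hinf k
  have h1 := h S
  have h2 : (S.card : ℝ) ≤ ∑ μ ∈ S, (ξ μ : ℝ) ^ 2 := by
    have h3 : ∑ μ ∈ S, (1 : ℝ) ≤ ∑ μ ∈ S, (ξ μ : ℝ) ^ 2 := by
      refine Finset.sum_le_sum fun μ hμ => ?_
      have h4 : ξ μ ≠ 0 := hS hμ
      have h5 : 1 ≤ |ξ μ| := Int.one_le_abs h4
      have h6 : (1 : ℝ) ≤ |(ξ μ : ℝ)| := by exact_mod_cast h5
      rw [← sq_abs]
      nlinarith
    simpa using h3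
  rw [hcard] at h2
  linarith

theorem isolate_lim (hdiv : StmDiv) {Φ : Finset (J → ℤ)} (h0 : ∀ α ∈ Φ, α ≠ 0) {ι : Type*}
    (U : Ultrafilter ι) (ρ : ι → Measure (UnitAddTorus J)) [∀ i, IsFiniteMeasure (ρ i)]
    (hint : ∀ i (μ : J → ℤ), ∃ n : ℤ, ∫ x, mFourier μ x ∂(ρ i) = n)
    (hconv : ∀ μ : J → ℤ, Tendsto (fun i => ∫ x, mFourier μ x ∂(ρ i)) (U : Filter ι) (𝓝 (dC Φ μ)))
    (κ : ι → (J → ℤ)) (hne : ∀ i, ∫ x, mFourier (κ i) x ∂(ρ i) ≠ 0) :
    ∃ γ : J → ℤ, dC Φ γ ≠ 0 ∧ ∀ᶠ i in (U : Filter ι),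
      (∫ x, mFourier (κ i - γ) x ∂(ρ i) = (ρ i).real Set.univ ∨
        ∫ x, mFourier (κ i - γ) x ∂(ρ i) = -((ρ i).real Set.univ : ℂ)) := by
  set m : ℝ := ∫ x, dens Φ x ∂(vol J) with hm
  have hm0 : 0 ≤ m := integral_nonneg fun x => dens_nonneg _ _
  -- the masses
  have hmass : ∀ᶠ i in (U : Filter ι), ((ρ i).real Set.univ : ℂ) = (m : ℂ) := by
    have h1 := (int_limit (Eventually.of_forall fun i => hint i 0) (hconv 0)).2
    filter_upwards [h1] with i hi
    rw [mass_eq, dC_zero] at hi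
    exact hi
  have hmass' : ∀ᶠ i in (U : Filter ι), (ρ i).real Set.univ = m :=
    hmass.mono fun i hi => by exact_mod_cast hi
  -- weak convergence
  have hweak : ∀ f : C(UnitAddTorus J, ℂ),
      Tendsto (fun i => intL (ρ i) 1 f) (U : Filter ι) (𝓝 (intL (vol J) (densC Φ) f)) := by
    refine tendsto_of_fourier (fun i => intL (ρ i) 1) (intL (vol J) (densC Φ)) (C := m)
      (D := ‖densC Φ‖ * (vol J).real Set.univ) ?_ (intL_bound _ _) ?_
    · filter_upwards [hmass'] with i hi f
      rw [← hi]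
      exact intL_le _ _ _ (by simp)
    · intro n
      refine (hconv n).congr fun i => ?_
      rw [intL_apply]
      simp
  -- the twisted functionals
  set N : ι → C(UnitAddTorus J, ℂ) →ₗ[ℂ] ℂ := fun i => intL (ρ i) (mFourier (κ i)) with hN
  have hNle : ∀ᶠ i in (U : Filter ι), ∀ f : C(UnitAddTorus J, ℂ), ‖N i f‖ ≤ m * ‖f‖ := by
    filter_upwards [hmass'] with i hi f
    rw [← hi]
    exact intL_le _ _ _ (by rw [mFourier_norm])
  have hex : ∀ f : C(UnitAddTorus J, ℂ), ∃ z, Tendsto (fun i => N i f) (U : Filter ι) (𝓝 z) :=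
    fun f => ulim U (R := m * ‖f‖) (hNle.mono fun i hi => hi f)
  choose ℓ hℓ using hex
  set L : C(UnitAddTorus J, ℂ) →ₗ[ℂ] ℂ :=
    { toFun := ℓ
      map_add' := fun f g => by
        have h1 := (hℓ f).add (hℓ g)
        refine tendsto_nhds_unique (hℓ (f + g)) (h1.congr fun i => ?_)
        rw [map_add]
      map_smul' := fun a f => by
        have h1 := (hℓ f).const_mul a
        refine tendsto_nhds_unique (hℓ (a • f)) (h1.congr fun i => ?_)
        rw [map_smul]
        rfl } with hL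
  have hLle : ∀ f, ‖L f‖ ≤ m * ‖f‖ := fun f =>
    le_of_tendsto (hℓ f).norm (hNle.mono fun i hi => hi f)
  -- integrality
  have hNint : ∀ i (μ : J → ℤ), N i (mFourier μ) = ∫ x, mFourier (μ + κ i) x ∂(ρ i) := by
    intro i μ
    rw [hN]
    simp only [intL_apply, mFourier_add]
  have hLint : ∀ μ : J → ℤ, (∃ n : ℤ, ℓ (mFourier μ) = n) ∧
      ∀ᶠ i in (U : Filter ι), N i (mFourier μ) = ℓ (mFourier μ) := by
    intro μ
    refine int_limit (Eventually.of_forall fun i => ?_) (hℓ (mFourier μ))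
    rw [hNint]
    exact hint _ _
  choose ξ hξ using fun μ => (hLint μ).1
  -- the first inequality
  have hI : ∀ f : C(UnitAddTorus J, ℂ),
      ‖ℓ f‖ ^ 2 ≤ m * ∫ x, ‖f x‖ ^ 2 * dens Φ x ∂(vol J) := by
    intro f
    have h1 : Tendsto (fun i => ∫ x, ‖f x‖ ^ 2 ∂(ρ i)) (U : Filter ι)
        (𝓝 (∫ x, ‖f x‖ ^ 2 * dens Φ x ∂(vol J))) := by
      have h2 := hweak (f * star f)
      rw [dens_norm_sq] at h2
      simp only [int_norm_sq] at h2
      have h3 := (Complex.continuous_re.tendsto _).comp h2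
      simpa [Function.comp_def] using h3
    refine le_of_tendsto_of_tendsto ((hℓ f).norm.pow 2) (h1.const_mul m) ?_
    filter_upwards [hmass'] with i hi
    have h4 := cauchy (ρ i) f.continuous
    rw [hi] at h4
    refine le_trans ?_ h4
    have h5 : ‖N i f‖ ≤ ∫ x, ‖f x‖ ∂(ρ i) := by
      rw [hN]
      simp only [intL_apply]
      refine (norm_integral_le_integral_norm _).trans (le_of_eq ?_)
      refine integral_congr_ae (Eventually.of_forall fun x => ?_)
      simp only [norm_mul, norm_mF, mul_one]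
    exact pow_le_pow_left₀ (norm_nonneg _) h5 2
  -- finite support
  have hfin : (Function.support ξ).Finite := by
    refine finite_of_bound (A := m * 4 ^ Φ.card) fun S => ?_
    classical
    set b : (J → ℤ) →₀ ℤ := Finsupp.onFinset S (fun μ => if μ ∈ S then ξ μ else 0)
      (fun μ hμ => by
        by_contra h
        exact hμ (if_neg h)) with hb
    set s := ∑ μ ∈ S, (ξ μ : ℝ) ^ 2 with hs
    have hs0 : 0 ≤ s := Finset.sum_nonneg fun μ _ => sq_nonneg _
    set f : C(UnitAddTorus J, ℂ) := ⟨trig b, continuous_trig b⟩ with hf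
    have hf' : f = ∑ μ ∈ S, (ξ μ : ℂ) • mFourier μ := by
      ext x
      rw [hf]
      simp only [ContinuousMap.coe_mk, ContinuousMap.coe_sum, Finset.sum_apply,
        ContinuousMap.coe_smul, Pi.smul_apply, smul_eq_mul]
      unfold trig
      rw [hb, Finsupp.onFinset_sum _ (fun a => by simp)]
      exact Finset.sum_congr rfl fun μ hμ => by rw [if_pos hμ]
    have h1 : ℓ f = (s : ℂ) := by
      have h2 : ℓ f = L f := rfl
      rw [h2, hf', map_sum, hs]
      push_cast
      refine Finset.sum_congr rfl fun μ _ => ?_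
      rw [map_smul]
      have h3 : L (mFourier μ) = (ξ μ : ℂ) := hξ μ
      rw [h3, smul_eq_mul]
      ring
    have h4 : ∫ x, ‖f x‖ ^ 2 ∂(vol J) = s := by
      have h5 := int_sq_trig b
      rw [show (∫ x, ‖f x‖ ^ 2 ∂(vol J)) = ∫ x, ‖trig b x‖ ^ 2 ∂(vol J) from rfl, h5]
      have h6 : ∑ μ ∈ b.support, (b μ : ℝ) ^ 2 = b.sum fun _ a => (a : ℝ) ^ 2 := rfl
      rw [h6, hb, Finsupp.onFinset_sum _ (fun a => by simp)]
      exact Finset.sum_congr rfl fun μ hμ => by rw [if_pos hμ]
    have h7 : ∫ x, ‖f x‖ ^ 2 * dens Φ x ∂(vol J) ≤ 4 ^ Φ.card * s := by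
      rw [← h4, ← integral_const_mul]
      refine integral_mono (integrable_cont_real _ ?_) (integrable_cont_real _ ?_) fun x => ?_
      · have := continuous_dens Φ
        fun_prop
      · fun_prop
      · have := dens_le Φ x
        have h8 : (0 : ℝ) ≤ ‖f x‖ ^ 2 := by positivity
        calc ‖f x‖ ^ 2 * dens Φ x ≤ ‖f x‖ ^ 2 * 4 ^ Φ.card := mul_le_mul_of_nonneg_left this h8
          _ = _ := by ring
    have h9 := hI f
    rw [h1, Complex.norm_real, Real.norm_eq_abs, sq_abs] at h9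
    have h10 : s ^ 2 ≤ (m * 4 ^ Φ.card) * s := by
      refine h9.trans ?_
      rw [mul_assoc]
      exact mul_le_mul_of_nonneg_left h7 hm0
    by_contra hcon
    push Not at hcon
    have h11 : 0 < s := lt_of_le_of_lt (by positivity) hcon
    nlinarith
  -- the trigonometric polynomial
  have hfin' : (Function.support fun μ => ξ (-μ)).Finite := by
    have h1 : (Function.support fun μ => ξ (-μ)) = Neg.neg ⁻¹' (Function.support ξ) := rfl
    rw [h1]
    exact hfin.preimage neg_injective.injOn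
  set c : (J → ℤ) →₀ ℤ := Finsupp.ofSupportFinite (fun μ => ξ (-μ)) hfin' with hc
  have hcval : ∀ μ, c μ = ξ (-μ) := fun μ => rfl
  have hLc : L = intL (vol J) ⟨trig c, continuous_trig c⟩ := by
    refine eq_of_fourier _ _ _ _ hLle (intL_bound _ _) fun n => ?_
    rw [intL_apply]
    have h1 : L (mFourier n) = (ξ n : ℂ) := hξ n
    rw [h1]
    have h2 := int_trig c n
    rw [hcval, neg_neg] at h2
    exact h2.symm
  have hLc' : ∀ f : C(UnitAddTorus J, ℂ), ℓ f = ∫ x, f x * trig c x ∂(vol J) := fun f =>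
    congrArg (fun T => T f) hLc
  -- the pointwise bound
  have hpt : ∀ x, ‖trig c x‖ ≤ dens Φ x := by
    refine pointwise Φ c fun ψ hψ hψ0 => ?_
    set f : C(UnitAddTorus J, ℂ) := ⟨fun x => (ψ x : ℂ), Complex.continuous_ofReal.comp hψ⟩ with hf
    have h1 : ∫ x, (ψ x : ℂ) * trig c x ∂(vol J) = ℓ f := (hLc' f).symm
    rw [h1]
    have h2 : Tendsto (fun i => ∫ x, ψ x ∂(ρ i)) (U : Filter ι)
        (𝓝 (∫ x, ψ x * dens Φ x ∂(vol J))) := by
      have h3 := (Complex.continuous_re.tendsto _).comp (hweak f)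
      have h4 : ∀ i, (intL (ρ i) 1 f).re = ∫ x, ψ x ∂(ρ i) := by
        intro i
        rw [intL_apply]
        have h5 : ∀ x, f x * (1 : C(UnitAddTorus J, ℂ)) x = ((ψ x : ℝ) : ℂ) := fun x => by
          rw [hf]; simp
        simp only [h5]
        rw [integral_complex_ofReal, Complex.ofReal_re]
      have h6 : (intL (vol J) (densC Φ) f).re = ∫ x, ψ x * dens Φ x ∂(vol J) := by
        rw [intL_apply]
        have h5 : ∀ x, f x * densC Φ x = ((ψ x * dens Φ x : ℝ) : ℂ) := fun x => by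
          rw [hf]
          push_cast
          rfl
        simp only [h5]
        rw [integral_complex_ofReal, Complex.ofReal_re]
      rw [h6] at h3
      exact h3.congr fun i => h4 i
    refine le_of_tendsto_of_tendsto (hℓ f).norm h2 (Eventually.of_forall fun i => ?_)
    rw [hN]
    simp only [intL_apply]
    refine (norm_integral_le_integral_norm _).trans (le_of_eq ?_)
    refine integral_congr_ae (Eventually.of_forall fun x => ?_)
    simp only [norm_mul, norm_mF, mul_one]
    rw [hf]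
    simp only [ContinuousMap.coe_mk]
    rw [Complex.norm_real, Real.norm_eq_abs, abs_of_nonneg (hψ0 x)]
  -- division
  obtain ⟨d, hd⟩ := hdiv J (Φ.toList ++ Φ.toList.map fun α => -α) (by
    intro α hα
    rw [List.mem_append, List.mem_map] at hα
    rcases hα with hα | ⟨β, hβ, rfl⟩
    · exact h0 α (Finset.mem_toList.1 hα)
    · exact neg_ne_zero.2 (h0 β (Finset.mem_toList.1 hβ))) 1 c
    (Eventually.of_forall fun x => by rw [prod_roots, one_mul]; exact hpt x)
  simp only [prod_roots'] at hd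
  have hd1 : ∑ μ ∈ d.support, (d μ : ℝ) ^ 2 ≤ 1 := by
    rw [← int_sq_trig]
    have h1 : ∫ x, ‖trig d x‖ ^ 2 ∂(vol J) ≤ ∫ _x, (1 : ℝ) ∂(vol J) := by
      refine integral_mono_ae (integrable_cont_real _ ?_) (integrable_const _) ?_
      · have := continuous_trig d
        fun_prop
      · filter_upwards [null_dens h0] with x hx
        have h2 := hpt x
        rw [hd x, norm_mul, Complex.norm_real, Real.norm_eq_abs, abs_of_pos hx] at h2
        have h3 : ‖trig d x‖ ≤ 1 := by
          by_contra h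
          push Not at h
          nlinarith
        nlinarith [norm_nonneg (trig d x)]
    simpa using h1
  have hc0 : ξ 0 ≠ 0 := by
    intro h1
    have h2 := (hLint 0).2
    rw [hξ 0, h1] at h2
    obtain ⟨i, hi⟩ := h2.exists
    rw [hNint, zero_add] at hi
    exact hne i (by simpa using hi)
  have hdne : d ≠ 0 := by
    intro h1
    apply hc0
    have h2 := int_trig c 0
    rw [neg_zero, hcval, neg_zero] at h2
    have h3 : ∀ x, mFourier 0 x * trig c x = 0 := fun x => by rw [hd x, h1, trig_zero]; ring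
    simp only [h3, integral_zero] at h2
    exact_mod_cast h2.symm
  obtain ⟨γ, hγ⟩ := Finsupp.support_nonempty_iff.2 hdne
  have hsq : ∀ μ ∈ d.support, (1 : ℝ) ≤ (d μ : ℝ) ^ 2 := by
    intro μ hμ
    have h4 : d μ ≠ 0 := Finsupp.mem_support_iff.1 hμ
    have h6 : (1 : ℝ) ≤ |(d μ : ℝ)| := by exact_mod_cast Int.one_le_abs h4
    rw [← sq_abs]
    nlinarith
  have hsupp : d.support = {γ} := by
    refine Finset.eq_singleton_iff_unique_mem.2 ⟨hγ, fun μ hμ => ?_⟩
    by_contra hne'
    have h1 : ∑ ν ∈ ({γ, μ} : Finset (J → ℤ)), (d ν : ℝ) ^ 2 ≤ ∑ ν ∈ d.support, (d ν : ℝ) ^ 2 :=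
      Finset.sum_le_sum_of_subset_of_nonneg (by
        intro ν hν
        rcases Finset.mem_insert.1 hν with h | h
        · rw [h]; exact hγ
        · rw [Finset.mem_singleton.1 h]; exact hμ) fun ν _ _ => sq_nonneg _
    rw [Finset.sum_pair (fun h => hne' h.symm)] at h1
    have := hsq γ hγ
    have := hsq μ hμ
    linarith
  have hval : (d γ : ℝ) ^ 2 = 1 := by
    rw [hsupp, Finset.sum_singleton] at hd1
    exact le_antisymm hd1 (hsq γ hγ)
  have hpm : d γ = 1 ∨ d γ = -1 := by
    have h1 : (d γ) * (d γ) = 1 := by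
      have : (d γ) ^ 2 = 1 := by exact_mod_cast hval
      rwa [pow_two] at this
    exact mul_self_eq_one_iff.1 h1
  have hdt : ∀ x, trig d x = (d γ : ℂ) * mFourier γ x := by
    intro x
    unfold trig Finsupp.sum
    rw [hsupp, Finset.sum_singleton]
  have hℓval : ∀ μ : J → ℤ, ℓ (mFourier μ) = (d γ : ℂ) * dC Φ (μ + γ) := by
    intro μ
    rw [hLc']
    unfold dC
    rw [← integral_const_mul]
    refine integral_congr_ae (Eventually.of_forall fun x => ?_)
    simp only
    rw [hd x, hdt x, mFourier_add]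
    ring
  refine ⟨γ, ?_, ?_⟩
  · intro h1
    have h2 := hℓval 0
    rw [zero_add, h1, mul_zero, hξ 0] at h2
    exact hc0 (by exact_mod_cast h2)
  · have h1 := (hLint (-γ)).2
    rw [hℓval (-γ), neg_add_cancel, dC_zero] at h1
    filter_upwards [h1, hmass] with i h2 h3
    rw [hNint, neg_add_eq_sub] at h2
    rw [h2, h3]
    rcases hpm with h4 | h4
    · left
      rw [h4, hm]
      simp
    · right
      rw [h4, hm]
      simp

end Pool.Agent.Y798.FC
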