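import Pool.Agent.Y798.FC.Twist
import Pool.Agent.Y798.FC.Grid

/-! The criterion for the joint law. -/

set_option autoImplicit false
set_option linter.unusedSectionVars false

namespace Pool.Agent.Y798.FC

open Filter Topology MeasureTheory UnitAddTorus NumberField IsDedekindDomain
  Pool.Agent.W540.BE Pool.Agent.TH553.RS Pool.Agent.TH553.ST
  Pool.Agent.Y798.JL Pool.Agent.W401.Cheb ComplexConjugate
open Pool.Agent.Y139.ID (Good good_ev trig continuous_trig trig_single integrable_cont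
  integrable_cont_real intL avg avg_eq IsHaarOn annih exists_haarOn isClosed_annih mem_annih
  mFourier_apply_add)

section
variable {K : Type} [Field K] [NumberField K] {r : ℕ} {W : Subgroup (Auts (Fin r))}
  {Φ : Finset (Fin r → ℤ)} {θ : HeightOneSpectrum (𝓞 K) → UnitAddTorus (Fin r)}

/-- the Euler product of an orbit -/
noncomputable def LM (W : Subgroup (Auts (Fin r)))
    (θ : HeightOneSpectrum (𝓞 K) → UnitAddTorus (Fin r)) (μ : Fin r → ℤ) (s : ℂ) : ℂ :=
  ∏' v : HeightOneSpectrum (𝓞 K), (∏ᶠ ν ∈ orbS W μ, (1 - mFourier ν (θ v) *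
    (Ideal.absNorm v.asIdeal : ℂ) ^ (-s)))⁻¹

/-- the twisted Euler product of an orbit -/
noncomputable def LT (W : Subgroup (Auts (Fin r)))
    (θ : HeightOneSpectrum (𝓞 K) → UnitAddTorus (Fin r)) {n : ℕ}
    (A : HeightOneSpectrum (𝓞 K) → Matrix (Fin n) (Fin n) ℂ) (μ : Fin r → ℤ) (s : ℂ) : ℂ :=
  ∏' v : HeightOneSpectrum (𝓞 K), (∏ᶠ ν ∈ orbS W μ,
    Matrix.det (1 - ((Ideal.absNorm v.asIdeal : ℂ) ^ (-s) * mFourier ν (θ v)) • A v))⁻¹

theorem LM_eq (hW : Finite W) (θ : HeightOneSpectrum (𝓞 K) → UnitAddTorus (Fin r))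
    (μ : Fin r → ℤ) : LM W θ μ = eulerL (orbF hW μ) (fun v ν => mFourier ν (θ v)) := by
  funext s
  unfold LM eulerL orbF
  refine tprod_congr fun v => ?_
  rw [finprod_mem_eq_finite_toFinset_prod _ (orbS_finite hW μ)]

theorem LT_eq (hW : Finite W) (θ : HeightOneSpectrum (𝓞 K) → UnitAddTorus (Fin r)) {n : ℕ}
    (A : HeightOneSpectrum (𝓞 K) → Matrix (Fin n) (Fin n) ℂ) (μ : Fin r → ℤ) :
    LT W θ A μ = eulerT (orbF hW μ) (fun v ν => mFourier ν (θ v)) A := by
  funext s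
  unfold LT eulerT orbF
  refine tprod_congr fun v => ?_
  rw [finprod_mem_eq_finite_toFinset_prod _ (orbS_finite hW μ)]

/-- the mean value for the Weyl law -/
noncomputable def wm (W : Subgroup (Auts (Fin r))) (Φ : Finset (Fin r → ℤ))
    (f : UnitAddTorus (Fin r) → ℂ) : ℂ :=
  (Nat.card W : ℂ)⁻¹ * ∫ x, f x * (dens Φ x : ℂ) ∂(vol (Fin r))

theorem wm_msum (hΦ : IsWeylDatum W Φ) (μ : Fin r → ℤ) :
    (stab W μ : ℂ) * wm W Φ (msum W μ) = dC Φ μ := by
  have hWfin := hΦ.fin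
  have hcard : (Nat.card W : ℂ) ≠ 0 := by
    have : Nat.card W ≠ 0 := Nat.card_pos.ne'
    exact_mod_cast this
  have h1 := orb_mean hΦ μ
  unfold wm
  rw [mul_left_comm, ← integral_const_mul]
  have h2 : ∀ x, (stab W μ : ℂ) * (msum W μ x * (dens Φ x : ℂ)) = orb W μ x * (dens Φ x : ℂ) := by
    intro x
    rw [orb_msum hWfin]
    ring
  simp only [h2]
  rw [h1, inv_mul_cancel_left₀ hcard]

/-- the order of `LM` at a point -/
theorem lm_mean (him : StmIm) (hW : Finite W) {μ : Fin r → ℤ} {τ : ℝ}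
    (h : ContAt (LM W θ μ) (1 + τ * Complex.I)) :
    ∃ m : ℤ, PoleAt (LM W θ μ) (1 + τ * Complex.I) m ∧
      Tendsto (cE fun v => msum W μ (θ v) * ht τ v) (𝓝[>] 0) (𝓝 (m : ℂ)) := by
  rw [LM_eq hW] at h ⊢
  obtain ⟨m, h1, h2⟩ := cont_mean (fun _ _ _ => norm_mF _ _) him h
  refine ⟨m, h1, ?_⟩
  simp only [msum_eq hW]
  exact h2

theorem lm_one (him : StmIm) (hW : Finite W) {μ : Fin r → ℤ} (h : ContAt (LM W θ μ) 1) :
    ∃ m : ℤ, PoleAt (LM W θ μ) 1 m ∧
      Tendsto (cE fun v => msum W μ (θ v)) (𝓝[>] 0) (𝓝 (m : ℂ)) := by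
  obtain ⟨m, h1, h2⟩ := lm_mean (τ := 0) him hW (by rw [one_add_zero]; exact h)
  rw [one_add_zero] at h1
  simp only [ht_zero, mul_one] at h2
  exact ⟨m, h1, h2⟩

theorem lm_pole (him : StmIm) (hW : Finite W) {μ : Fin r → ℤ} {n : ℤ}
    (h : PoleAt (LM W θ μ) 1 n) :
    Tendsto (cE fun v => msum W μ (θ v)) (𝓝[>] 0) (𝓝 (n : ℂ)) := by
  rw [LM_eq hW] at h
  have h2 := pole_mean' (fun _ _ _ => norm_mF _ _) him (τ := 0) (by rw [one_add_zero]; exact h)
  simp only [ht_zero, mul_one] at h2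
  simp only [msum_eq hW]
  exact h2

theorem cE_orb (hW : Finite W) {μ : Fin r → ℤ} {h : HeightOneSpectrum (𝓞 K) → ℂ} {z : ℂ}
    (h1 : Tendsto (cE fun v => msum W μ (θ v) * h v) (𝓝[>] 0) (𝓝 z)) :
    Tendsto (cE fun v => orb W μ (θ v) * h v) (𝓝[>] 0) (𝓝 ((stab W μ : ℂ) * z)) := by
  refine (h1.const_mul (stab W μ : ℂ)).congr fun ε => ?_
  rw [← cE_const_mul]
  congr 1
  funext v
  rw [orb_msum hW, mul_assoc]

/-- the orders for the characters in `F` are those of the Weyl law -/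
def OrdersOK (W : Subgroup (Auts (Fin r))) (Φ : Finset (Fin r → ℤ))
    (θ : HeightOneSpectrum (𝓞 K) → UnitAddTorus (Fin r)) (F : Finset (Fin r → ℤ)) : Prop :=
  ∀ μ ∈ F, ∃ m : ℤ, (m : ℂ) = wm W Φ (msum W μ) ∧ PoleAt (LM W θ μ) 1 m

/-- the structure of the law -/
structure CL (W : Subgroup (Auts (Fin r))) (Φ : Finset (Fin r → ℤ))
    (θ : HeightOneSpectrum (𝓞 K) → UnitAddTorus (Fin r))
    (ρ : Measure (UnitAddTorus (Fin r))) (Γ : AddSubgroup (Fin r → ℤ))
    (a : UnitAddTorus (Fin r)) : Prop where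
  fin : IsFiniteMeasure ρ
  int : ∀ μ : Fin r → ℤ, ∃ n : ℤ, ∫ x, mFourier μ x ∂ρ = n
  law : IsCosetLaw Φ Γ a ρ
  stable : ∀ w ∈ W, ∀ γ ∈ Γ, w γ ∈ Γ ∧ mFourier (w γ) a = mFourier γ a
  dir : ∀ f : UnitAddTorus (Fin r) → ℂ, Continuous f → (∀ w ∈ W, ∀ x, f (act w x) = f x) →
    Tendsto (cE fun v => f (θ v)) (𝓝[>] 0) (𝓝 ((Nat.card W : ℂ)⁻¹ * ∫ x, f x ∂ρ))
  nat : NoInv W → (∀ μ (τ : ℝ), ContAt (LM W θ μ) (1 + τ * Complex.I)) → ∀ μ,
    Tendsto (mn fun v => orb W μ (θ v)) atTop (𝓝 (∫ x, mFourier μ x ∂ρ))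

theorem mlaw (hdiv : StmDiv) (hstr : StmStr) (him : StmIm) (htaub : StmTaub)
    (hΦ : IsWeylDatum W Φ) :
    ∃ F : Finset (Fin r → ℤ), ∀ (K : Type) [Field K] [NumberField K]
      (θ : HeightOneSpectrum (𝓞 K) → UnitAddTorus (Fin r)),
      (∀ μ, ContAt (LM W θ μ) 1) → OrdersOK W Φ θ F →
      ∃ (ρ : Measure (UnitAddTorus (Fin r))) (Γ : AddSubgroup (Fin r → ℤ))
        (a : UnitAddTorus (Fin r)), CL W Φ θ ρ Γ a := by
  obtain ⟨F, hF⟩ := dir_law hdiv hstr hΦ
  refine ⟨F, fun K _ _ θ hcont hFm => ?_⟩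
  have hWfin := hΦ.fin
  let _ : Fintype W := Fintype.ofFinite W
  choose m hpole hm using fun μ => lm_one him hWfin (hcont μ)
  have hc : ∀ μ, Tendsto (cE fun v => orb W μ (θ v)) (𝓝[>] 0) (𝓝 ((stab W μ * m μ : ℤ) : ℂ)) := by
    intro μ
    have h1 := cE_orb (h := fun _ => 1) hWfin (μ := μ) (θ := θ) (z := m μ) (by simpa using hm μ)
    push_cast
    simpa using h1
  have hFc : ∀ μ ∈ F, ((stab W μ * m μ : ℤ) : ℂ) = dC Φ μ := by
    intro μ hμ
    obtain ⟨m', h1, h2⟩ := hFm μ hμ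
    have h3 := tendsto_nhds_unique (hm μ) (lm_pole him hWfin h2)
    push_cast
    rw [h3, h1, wm_msum hΦ]
  obtain ⟨ρ, Γ, a, hfin, hco, hlaw, hdir, htau⟩ := hF K θ _ hc hFc
  have hinvW : ∀ w ∈ W, ∀ μ : Fin r → ℤ, ∫ x, mFourier (w μ) x ∂ρ = ∫ x, mFourier μ x ∂ρ := by
    intro w hw μ
    rw [hco, hco]
    have h1 : (fun v => orb W (w μ) (θ v)) = fun v => orb W μ (θ v) := by
      funext v
      rw [orb_eq, orb_eq]
      refine Fintype.sum_equiv (Equiv.mulRight (⟨w, hw⟩ : W)) _ _ fun w' => rfl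
    have h2 := hc (w μ)
    rw [h1] at h2
    exact tendsto_nhds_unique h2 (hc μ)
  have hmass : (ρ.real Set.univ : ℂ) = Nat.card W := by
    rw [← mass_eq, hco]
    have h1 : Tendsto (cE fun v => orb W 0 (θ v)) (𝓝[>] 0) (𝓝 (Nat.card W : ℂ)) := by
      refine tendsto_const_nhds.congr' ?_
      filter_upwards [good_ev (K := K)] with ε hε
      have h2 : (fun v => orb W 0 (θ v)) = fun _ => (Nat.card W : ℂ) * 1 := by
        funext v
        rw [orb_eq]
        simp [mFourier_zero, Nat.card_eq_fintype_card]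
      rw [h2, cE_const_mul, cE_one hε, mul_one]
    exact tendsto_nhds_unique (hc 0) h1
  have hcard0 : (Nat.card W : ℂ) ≠ 0 := by
    have : Nat.card W ≠ 0 := Nat.card_pos.ne'
    exact_mod_cast this
  have hst := coset_stable hlaw hinvW
  refine ⟨ρ, Γ, a, hfin, fun μ => ⟨_, hco μ⟩, hlaw, fun w hw γ hγ => ⟨hst w hw γ hγ, ?_⟩, hdir, fun hNI hline μ => ?_⟩
  · have h1 := coset_value hlaw (hst w hw γ hγ)
    rw [hinvW w hw, coset_value hlaw hγ, hmass] at h1
    exact (mul_right_cancel₀ hcard0 h1).symm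
  · -- natural density
    have h0 : ∀ (τ : ℝ), τ ≠ 0 → ∀ μ,
        Tendsto (cE fun v => msum W μ (θ v) * ht τ v) (𝓝[>] 0) (𝓝 0) := by
      intro τ hτ μ
      have h1 := htau hNI τ hτ (fun μ => by
        obtain ⟨m, -, h2⟩ := lm_mean him hWfin (hline μ τ)
        refine ⟨stab W μ * m, ?_⟩
        push_cast
        exact cE_orb hWfin h2) μ
      have hs : (stab W μ : ℂ) ≠ 0 := by
        have := stab_pos hWfin μ
        exact_mod_cast this.ne'
      have h2 := h1.const_mul (stab W μ : ℂ)⁻¹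
      rw [mul_zero] at h2
      refine h2.congr fun ε => ?_
      rw [← cE_const_mul]
      congr 1
      funext v
      rw [orb_msum hWfin, mul_assoc, inv_mul_cancel_left₀ hs]
    have h1 : Tendsto (mn fun v => msum W μ (θ v)) atTop (𝓝 (m μ : ℂ)) := by
      have h2 := nat_mean (S := orbF hWfin μ) (β := fun v ν => mFourier ν (θ v))
        (fun _ _ _ => norm_mF _ _) him htaub (c := m μ) (by
          have := hm μ
          simp only [msum_eq hWfin] at this
          exact this) (fun τ hτ => by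
          have := h0 τ hτ μ
          simp only [msum_eq hWfin] at this
          exact this) (fun τ => by
          rw [← LM_eq hWfin]
          exact hline μ τ)
      simp only [msum_eq hWfin]
      exact h2
    rw [hco]
    push_cast
    refine (h1.const_mul (stab W μ : ℂ)).congr fun N => ?_
    rw [← mn_const_mul]
    congr 1
    funext v
    rw [orb_msum hWfin]

/-! ### generic position -/

/-- the distance of the values of the characters in the orbit from one -/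
noncomputable def osum (W : Subgroup (Auts (Fin r))) (μ : Fin r → ℤ)
    (x : UnitAddTorus (Fin r)) : ℝ := ∑ᶠ ν ∈ orbS W μ, ‖1 - mFourier ν x‖

theorem osum_eq (hW : Finite W) (μ : Fin r → ℤ) (x : UnitAddTorus (Fin r)) :
    osum W μ x = ∑ ν ∈ orbF hW μ, ‖1 - mFourier ν x‖ := by
  unfold osum orbF
  exact finsum_mem_eq_finite_toFinset_sum _ _

theorem continuous_osum (hW : Finite W) (μ : Fin r → ℤ) : Continuous (osum W μ) := by
  have h : osum W μ = fun x => ∑ ν ∈ orbF hW μ, ‖1 - mFourier ν x‖ :=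
    funext fun x => osum_eq hW μ x
  rw [h]
  fun_prop

theorem osum_act (hW : Finite W) {w : Auts (Fin r)} (hw : w ∈ W) (μ : Fin r → ℤ)
    (x : UnitAddTorus (Fin r)) : osum W μ (act w x) = osum W μ x := by
  rw [osum_eq hW, osum_eq hW]
  refine Finset.sum_nbij' (fun ν => w ν) (fun ν => w⁻¹ ν) ?_ ?_ ?_ ?_ ?_
  · intro ν hν
    obtain ⟨w', h1, h2⟩ := (mem_orbF hW).1 hν
    exact (mem_orbF hW).2 ⟨w * w', W.mul_mem hw h1, by rw [← h2]; rfl⟩
  · intro ν hν
    obtain ⟨w', h1, h2⟩ := (mem_orbF hW).1 hν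
    exact (mem_orbF hW).2 ⟨w⁻¹ * w', W.mul_mem (W.inv_mem hw) h1, by rw [← h2]; rfl⟩
  · intro ν _
    change (w⁻¹ * w) ν = ν
    rw [inv_mul_cancel]
    rfl
  · intro ν _
    change (w * w⁻¹) ν = ν
    rw [mul_inv_cancel]
    rfl
  · intro ν _
    rw [mF_act]

/-- the classes are in generic position -/
def Generic (W : Subgroup (Auts (Fin r)))
    (θ : HeightOneSpectrum (𝓞 K) → UnitAddTorus (Fin r)) : Prop :=
  ∀ μ : Fin r → ℤ, μ ≠ 0 → ¬ Tendsto (avg fun v => osum W μ (θ v)) (𝓝[>] 0) (𝓝 0)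

theorem avg_of_cE {t : HeightOneSpectrum (𝓞 K) → ℝ} {B : ℝ} (hB : ∀ v, |t v| ≤ B) {c : ℝ}
    (h : Tendsto (cE fun v => (t v : ℂ)) (𝓝[>] 0) (𝓝 (c : ℂ))) :
    Tendsto (avg t) (𝓝[>] 0) (𝓝 c) := by
  have h1 := (Complex.continuous_re.tendsto _).comp h
  rw [Complex.ofReal_re] at h1
  refine h1.congr' ?_
  filter_upwards [good_ev (K := K)] with ε hε
  simp only [Function.comp]
  rw [cE_re hε (B := B) (fun v => by rw [Complex.norm_real]; exact hB v)]
  simp only [Complex.ofReal_re]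

theorem CL.bot {ρ : Measure (UnitAddTorus (Fin r))} {Γ : AddSubgroup (Fin r → ℤ)}
    {a : UnitAddTorus (Fin r)} (hΦ : IsWeylDatum W Φ) (h : CL W Φ θ ρ Γ a)
    (hg : Generic W θ) : Γ = ⊥ := by
  have hWfin := hΦ.fin
  rw [AddSubgroup.eq_bot_iff_forall]
  intro γ hγ
  by_contra hne
  have h2γ : (2 : ℕ) • γ ≠ 0 := by
    intro h0
    apply hne
    funext i
    have := congrFun h0 i
    simp at this
    simpa using this
  refine hg _ h2γ ?_
  obtain ⟨σ, hσ, -⟩ := exists_haarOn (annih Γ) (isClosed_annih Γ)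
  have hc := continuous_osum hWfin (2 • γ)
  have h1 := h.dir (fun x => (osum W (2 • γ) x : ℂ)) (Complex.continuous_ofReal.comp hc)
    (fun w hw x => by rw [osum_act hWfin hw])
  rw [h.law.2.2 σ hσ (fun x => (osum W (2 • γ) x : ℂ)) (Complex.continuous_ofReal.comp hc)] at h1
  have hae : ∀ᵐ x ∂σ, x ∈ annih Γ := by
    rw [ae_iff]
    exact hσ.supp
  have h2 : ∫ x, (osum W (2 • γ) (a + x) : ℂ) * (dens Φ (a + x) : ℂ) ∂σ = 0 := by
    refine integral_eq_zero_of_ae ?_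
    filter_upwards [hae] with x hx
    have h3 : osum W (2 • γ) (a + x) = 0 := by
      rw [osum_eq hWfin]
      refine Finset.sum_eq_zero fun ν hν => ?_
      obtain ⟨w, hw, rfl⟩ := (mem_orbF hWfin).1 hν
      have h4 := (h.stable w hw γ hγ).1
      have h5 := mem_annih.1 hx _ h4
      rw [map_nsmul, mFourier_nsmul, mFourier_apply_add, h5, mul_one]
      rcases h.law.2.1 _ h4 with h6 | h6 <;> rw [h6] <;> norm_num
    rw [h3]
    simp
  rw [h2, mul_zero] at h1
  obtain ⟨C, hC⟩ := isCompact_univ.exists_bound_of_continuousOn (f := osum W (2 • γ))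
    hc.continuousOn
  exact avg_of_cE (B := C) (fun v => hC _ (Set.mem_univ _)) (c := 0) (by
    rw [Complex.ofReal_zero]
    exact h1)

/-- the Weyl law -/
theorem CL.int_bot {ρ : Measure (UnitAddTorus (Fin r))} {Γ : AddSubgroup (Fin r → ℤ)}
    {a : UnitAddTorus (Fin r)} (h : CL W Φ θ ρ Γ a) (hb : Γ = ⊥)
    {f : UnitAddTorus (Fin r) → ℂ} (hf : Continuous f) :
    ∫ x, f x ∂ρ = ∫ x, f x * (dens Φ x : ℂ) ∂(vol (Fin r)) := by
  subst hb
  rw [h.law.2.2 (vol (Fin r)) haar_top f hf]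
  have hd := continuous_dens Φ
  have hm : Measurable fun x : UnitAddTorus (Fin r) => a + x :=
    (continuous_const.add continuous_id).measurable
  have h1 := (haar_top (J := Fin r)).inv a (mem_annih.2 fun γ hγ => by
    rw [AddSubgroup.mem_bot.1 hγ, mFourier_zero]
    rfl)
  conv_rhs => rw [← h1]
  rw [integral_map hm.aemeasurable (Continuous.aestronglyMeasurable (by fun_prop))]

theorem CL.dlaw {ρ : Measure (UnitAddTorus (Fin r))} {Γ : AddSubgroup (Fin r → ℤ)}
    {a : UnitAddTorus (Fin r)} (h : CL W Φ θ ρ Γ a) (hb : Γ = ⊥) : DLaw W Φ θ := by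
  intro f hf hfW
  have h1 := h.dir f hf hfW
  rwa [h.int_bot hb hf] at h1

end

section
variable {K : Type} [Field K] [NumberField K] {r : ℕ} {W : Subgroup (Auts (Fin r))}
  {Φ : Finset (Fin r → ℤ)} {θ : HeightOneSpectrum (𝓞 K) → UnitAddTorus (Fin r)}
  {σ : HeightOneSpectrum (𝓞 K) → GK K}

/-- continuations of the twists -/
def ContT (W : Subgroup (Auts (Fin r)))
    (θ : HeightOneSpectrum (𝓞 K) → UnitAddTorus (Fin r))
    (σ : HeightOneSpectrum (𝓞 K) → GK K) : Prop :=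
  ∀ (n : ℕ) (ψ : GK K →* Matrix.unitaryGroup (Fin n) ℂ), n ≠ 0 → Schur ψ → (∃ g, ψ g ≠ 1) →
    (∃ U : Subgroup (GK K), IsOpen (U : Set (GK K)) ∧ ∀ u ∈ U, ψ u = 1) →
    ∀ μ (τ : ℝ), ContAt (LT W θ (fun v => (ψ (σ v) : Matrix (Fin n) (Fin n) ℂ)) μ)
      (1 + τ * Complex.I)

/-- the joint law with the Frobenius elements -/
def JointLaw (W : Subgroup (Auts (Fin r))) (Φ : Finset (Fin r → ℤ))
    (θ : HeightOneSpectrum (𝓞 K) → UnitAddTorus (Fin r))
    (σ : HeightOneSpectrum (𝓞 K) → GK K) : Prop :=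
  ∀ (U : Subgroup (GK K)) [U.Normal], IsOpen (U : Set (GK K)) →
    ∀ f : UnitAddTorus (Fin r) → ℂ, Continuous f → (∀ w ∈ W, ∀ x, f (act w x) = f x) →
    ∀ e : GK K ⧸ U → ℂ, (∀ g k, e (k * g * k⁻¹) = e g) →
      Tendsto (mn fun v => f (θ v) * e (QuotientGroup.mk (σ v))) atTop
        (𝓝 (wm W Φ f * ((Nat.card (GK K ⧸ U) : ℂ)⁻¹ * ∑ᶠ q, e q)))

theorem joint_of (hfix : StmFix) (hfv : StmFV) (horb : StmOrb) (hfun : StmFun) (htr : StmTrans)
    (hblk : StmBlk) (hmix : StmMix) (hΦ : IsWeylDatum W Φ) (hNI : NoInv W)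
    (hσ : ∀ v, IsFrob v (σ v)) {ρ : Measure (UnitAddTorus (Fin r))}
    {Γ : AddSubgroup (Fin r → ℤ)} {a : UnitAddTorus (Fin r)} (h : CL W Φ θ ρ Γ a) (hb : Γ = ⊥)
    (h1 : ∀ μ (τ : ℝ), ContAt (LM W θ μ) (1 + τ * Complex.I)) (h2 : ContT W θ σ) :
    JointLaw W Φ θ σ := by
  intro U _ hU f hf hfW e he
  have hWfin := hΦ.fin
  have hfin : Finite (GK K ⧸ U) := Subgroup.quotient_finite_of_isOpen _ hU
  have h3 := hmix K r W hWfin θ (GK K ⧸ U) (fun v => QuotientGroup.mk (σ v)) ρ h.fin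
    (h.nat hNI h1) (fun μ n ψ hψ hnt => by
      refine twist_mn hfix hfv horb hfun htr hblk hΦ hNI (h.dlaw hb) hσ hU hψ hnt
        (fun μ τ => ?_) μ
      have hn : n ≠ 0 := by
        rintro rfl
        obtain ⟨g, hg⟩ := hnt
        exact hg (Subtype.ext (Subsingleton.elim _ _))
      have h4 := h2 n (ψ.comp (QuotientGroup.mk' U)) hn (fun A hA => hψ A fun g => by
          obtain ⟨g', rfl⟩ := QuotientGroup.mk'_surjective U g
          exact hA g') (by
          obtain ⟨g, hg⟩ := hnt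
          obtain ⟨g', rfl⟩ := QuotientGroup.mk'_surjective U g
          exact ⟨g', hg⟩) ⟨U, hU, fun u hu => by
          rw [MonoidHom.comp_apply, QuotientGroup.mk'_apply, (QuotientGroup.eq_one_iff u).2 hu,
            map_one]⟩ μ τ
      rw [LT_eq hWfin] at h4
      exact h4) f e hf hfW he
  rw [h.int_bot hb hf] at h3
  exact h3

/-- the real mean value for the Weyl law -/
noncomputable def rm (W : Subgroup (Auts (Fin r))) (Φ : Finset (Fin r → ℤ))
    (f : UnitAddTorus (Fin r) → ℝ) : ℝ :=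
  (Nat.card W : ℝ)⁻¹ * ∫ x, f x * dens Φ x ∂(vol (Fin r))

theorem wm_real (f : UnitAddTorus (Fin r) → ℝ) :
    wm W Φ (fun x => (f x : ℂ)) = ((rm W Φ f : ℝ) : ℂ) := by
  unfold wm rm
  push_cast
  rw [← integral_complex_ofReal]
  congr 1
  refine integral_congr_ae (Eventually.of_forall fun x => ?_)
  push_cast
  rfl

/-- the base change of the classes -/
def BCW (W : Subgroup (Auts (Fin r))) (θ : HeightOneSpectrum (𝓞 K) → UnitAddTorus (Fin r))
    {F : Type} [Field F] [NumberField F] [Algebra K F]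
    (y : HeightOneSpectrum (𝓞 F) → UnitAddTorus (Fin r)) : Prop :=
  ∃ S : Finset (HeightOneSpectrum (𝓞 F)), ∀ w, w ∉ S → ∀ v : HeightOneSpectrum (𝓞 K),
    w.asIdeal.comap (algebraMap (𝓞 K) (𝓞 F)) = v.asIdeal →
    Ideal.absNorm w.asIdeal = Ideal.absNorm v.asIdeal → ∃ g ∈ W, y w = act g (θ v)

/-- the law over all extensions -/
def ExtLaw (W : Subgroup (Auts (Fin r))) (Φ : Finset (Fin r → ℤ))
    (θ : HeightOneSpectrum (𝓞 K) → UnitAddTorus (Fin r)) : Prop :=
  ∀ (F : Type) [Field F] [NumberField F] [Algebra K F]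
    (y : HeightOneSpectrum (𝓞 F) → UnitAddTorus (Fin r)), BCW W θ y →
    ∀ f : UnitAddTorus (Fin r) → ℝ, Continuous f → (∀ w ∈ W, ∀ x, f (act w x) = f x) →
      Tendsto (mn fun w => f (y w)) atTop (𝓝 (rm W Φ f))

theorem rm_one (hΦ : IsWeylDatum W Φ) : rm W Φ (fun _ => 1) = 1 := by
  have hWfin := hΦ.fin
  have hcard : (Nat.card W : ℝ) ≠ 0 := by
    have : Nat.card W ≠ 0 := Nat.card_pos.ne'
    exact_mod_cast this
  unfold rm
  simp only [one_mul]
  rw [hΦ.mass, inv_mul_cancel₀ hcard]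

theorem ext_of_joint (hbc : StmBC) (hΦ : IsWeylDatum W Φ) (hσ : ∀ v, IsFrob v (σ v))
    (h : JointLaw W Φ θ σ) : ExtLaw W Φ θ := by
  intro F _ _ _ y hy f hf hfW
  refine hbc K σ hσ (UnitAddTorus (Fin r)) (fun a b => ∃ g ∈ W, a = act g b) θ (rm W Φ)
    (rm_one hΦ) (fun U _ hU f hf hfR e he => ?_) F y hy f hf (fun a b hab => ?_)
  · have h1 := h U hU (fun x => (f x : ℂ)) (Complex.continuous_ofReal.comp hf)
      (fun w hw x => by rw [hfR (act w x) x ⟨w, hw, rfl⟩]) e he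
    rwa [wm_real] at h1
  · obtain ⟨g, hg, rfl⟩ := hab
    exact hfW g hg b

theorem bcw_self (W : Subgroup (Auts (Fin r)))
    (θ : HeightOneSpectrum (𝓞 K) → UnitAddTorus (Fin r)) : BCW W θ θ := by
  refine ⟨∅, fun w _ v h _ => ⟨1, W.one_mem, ?_⟩⟩
  have h1 : w = v := by
    apply HeightOneSpectrum.ext
    rw [← h]
    exact (Ideal.comap_id _).symm
  rw [act_one, h1]

theorem orders_of_ext (him : StmIm) (hΦ : IsWeylDatum W Φ) (h : ExtLaw W Φ θ)
    (hcont : ∀ μ, ContAt (LM W θ μ) 1) (F : Finset (Fin r → ℤ)) : OrdersOK W Φ θ F := by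
  intro μ _
  have hWfin := hΦ.fin
  obtain ⟨m, h1, h2⟩ := lm_one him hWfin (hcont μ)
  refine ⟨m, ?_, h1⟩
  have hc := continuous_msum hWfin μ
  have hK := h K θ (bcw_self W θ)
  have hre := hK (fun x => (msum W μ x).re) (Complex.continuous_re.comp hc)
    (fun w hw x => by rw [msum_act hWfin hw])
  have himm := hK (fun x => (msum W μ x).im) (Complex.continuous_im.comp hc)
    (fun w hw x => by rw [msum_act hWfin hw])
  obtain ⟨C, hC⟩ := isCompact_univ.exists_bound_of_continuousOn (f := msum W μ) hc.continuousOn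
  have hre' := (Complex.continuous_ofReal.tendsto _).comp hre
  have him' := (Complex.continuous_ofReal.tendsto _).comp himm
  have h3 : Tendsto (mn fun v => msum W μ (θ v)) atTop
      (𝓝 (((rm W Φ fun x => (msum W μ x).re : ℝ) : ℂ) +
        ((rm W Φ fun x => (msum W μ x).im : ℝ) : ℂ) * Complex.I)) := by
    refine (hre'.add (him'.mul_const Complex.I)).congr fun n => ?_
    simp only [Function.comp]
    rw [← re_mn, ← im_mn, Complex.re_add_im]
  have h4 := cE_of_mn (B := C) (fun v => hC _ (Set.mem_univ _)) h3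
  have h5 := tendsto_nhds_unique h2 h4
  rw [h5, ← wm_real, ← wm_real]
  unfold wm
  have hd := continuous_dens Φ
  have i1 : Continuous fun x : UnitAddTorus (Fin r) => (((msum W μ x).re : ℝ) : ℂ) :=
    Complex.continuous_ofReal.comp (Complex.continuous_re.comp hc)
  have i2 : Continuous fun x : UnitAddTorus (Fin r) => (((msum W μ x).im : ℝ) : ℂ) :=
    Complex.continuous_ofReal.comp (Complex.continuous_im.comp hc)
  rw [mul_assoc, ← mul_add, ← integral_mul_const, ← integral_add (integrable_cont _ (by fun_prop))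
    (integrable_cont _ (by fun_prop))]
  congr 1
  refine integral_congr_ae (Eventually.of_forall fun x => ?_)
  simp only
  conv_rhs => rw [← Complex.re_add_im (msum W μ x)]
  ring

theorem generic_of_ext (hΦ : IsWeylDatum W Φ) (h : ExtLaw W Φ θ) : Generic W θ := by
  intro μ hμ hcon
  have hWfin := hΦ.fin
  have hcard : (0 : ℝ) < Nat.card W := by exact_mod_cast Nat.card_pos
  have hc := continuous_osum hWfin μ
  have hd := continuous_dens Φ
  have h1 := h K θ (bcw_self W θ) (osum W μ) hc (fun w hw x => osum_act hWfin hw μ x)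
  obtain ⟨C, hC⟩ := isCompact_univ.exists_bound_of_continuousOn (f := osum W μ) hc.continuousOn
  have h2 := cE_of_mn_real (t := fun v => osum W μ (θ v)) (B := C)
    (fun v => hC _ (Set.mem_univ _)) (c := rm W Φ (osum W μ)) (by
      refine ((Complex.continuous_ofReal.tendsto _).comp h1).congr fun n => ?_
      simp only [Function.comp]
      unfold mn
      simp [smul_eq_mul])
  have h3 := avg_of_cE (fun v => hC _ (Set.mem_univ _)) h2
  have h4 := tendsto_nhds_unique h3 hcon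
  have hnn : ∀ x, 0 ≤ osum W μ x * dens Φ x := fun x => by
    rw [osum_eq hWfin]
    exact mul_nonneg (Finset.sum_nonneg fun _ _ => norm_nonneg _) (dens_nonneg _ _)
  unfold rm at h4
  have h5 : ∫ x, osum W μ x * dens Φ x ∂(vol (Fin r)) = 0 := by
    rcases mul_eq_zero.1 h4 with h6 | h6
    · exact absurd h6 (inv_ne_zero hcard.ne')
    · exact h6
  have h6 := (integral_eq_zero_iff_of_nonneg (f := fun x => osum W μ x * dens Φ x) hnn
    (integrable_cont_real _ (by fun_prop))).1 h5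
  have h7 : ∀ᵐ x ∂(vol (Fin r)), mFourier μ x ≠ 1 := by
    rw [ae_iff]
    simpa using null_root hμ
  have h8 : ∀ᵐ _x ∂(vol (Fin r)), False := by
    filter_upwards [h6, h7, null_dens hΦ.ne_zero] with x k1 k2 k3
    have k4 : osum W μ x * dens Φ x = 0 := k1
    rcases mul_eq_zero.1 k4 with k5 | k5
    · rw [osum_eq hWfin] at k5
      have k6 := (Finset.sum_eq_zero_iff_of_nonneg fun _ _ => norm_nonneg _).1 k5 μ
        ((mem_orbF hWfin).2 ⟨1, W.one_mem, rfl⟩)
      exact k2 (sub_eq_zero.1 (norm_eq_zero.1 k6)).symm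
    · exact k3.ne' k5
  obtain ⟨x, hx⟩ := h8.exists
  exact hx

end

end Pool.Agent.Y798.FC
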