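import Pool.Agent.Y798.FC.Symp2

/-! The symplectic group: quantitative form without hypothesis. -/

set_option autoImplicit false

namespace Pool.Agent.Y798.FC

open MeasureTheory UnitAddTorus Filter Topology NumberField IsDedekindDomain
  Pool.Agent.W540.BE Pool.Agent.TH553.RS Pool.Agent.TH553.ST Pool.Agent.Y798.JL
open Pool.Agent.Y139.ID (Good good_ev integrable_cont integrable_cont_real intL IsHaarOn annih
  measure_ext_fourier mFourier_apply_add exists_haarOn isClosed_annih mem_annih ev es chiW wordFun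
  idx chiW_eq_sum norm_term norm_chiW_le continuous_chiW continuous_es SD im_chiW mFourier_ev
  norm_ev ev_ne ev_neg continuous_span avg_le)

section
variable {g : ℕ}

theorem dbl_SD (x : UnitAddTorus (Fin g)) : dbl x ∈ SD (g + g) := by
  refine ⟨finAddFlip, fun j => ?_⟩
  refine Fin.addCases (fun i => ?_) (fun i => ?_) j
  · rw [finAddFlip_apply_castAdd]
    simp only [dbl, Fin.append_left, Fin.append_right, Pi.neg_apply]
  · rw [finAddFlip_apply_natAdd]
    simp only [dbl, Fin.append_left, Fin.append_right, Pi.neg_apply, neg_neg]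

/-- the multiplicity of the trivial representation, as a real number -/
noncomputable def stM (g : ℕ) {r : ℕ} (k : Fin r → ℕ) : ℝ :=
  (Nat.card (sympW g) : ℝ)⁻¹ * ∫ x, (chiW k (dbl x)).re * dens (sympRoots g) x ∂(vol (Fin g))

theorem re_dbl {r : ℕ} (k : Fin r → ℕ) (x : UnitAddTorus (Fin g)) :
    (((chiW k (dbl x)).re : ℝ) : ℂ) = chiW k (dbl x) :=
  Pool.Agent.Y139.ID.re_chiW k (dbl_SD x)

theorem stMult_eq {r : ℕ} (k : Fin r → ℕ) : stMult g k = ((stM g k : ℝ) : ℂ) := by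
  unfold stMult stM
  push_cast
  rw [← integral_complex_ofReal]
  congr 1
  refine integral_congr_ae (Eventually.of_forall fun x => ?_)
  simp only
  rw [Complex.ofReal_mul, re_dbl]

theorem continuous_word {r : ℕ} (k : Fin r → ℕ) :
    Continuous fun x : UnitAddTorus (Fin g) => chiW k (dbl x) :=
  (continuous_chiW k).comp continuous_dbl

/-- integer combinations of functions with integral or prescribed means -/
theorem span_int' {S : Set (UnitAddTorus (Fin (g + g)) → ℂ)} (hS : ∀ f ∈ S, Continuous f)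
    (ν : Measure (UnitAddTorus (Fin g))) [IsFiniteMeasure ν]
    (h : ∀ f ∈ S, ∃ n : ℤ, ∫ x, f (dbl x) ∂ν = n)
    {G : UnitAddTorus (Fin (g + g)) → ℂ} (hG : G ∈ Submodule.span ℤ S) :
    Continuous G ∧ ∃ n : ℤ, ∫ x, G (dbl x) ∂ν = n := by
  induction hG using Submodule.span_induction with
  | mem f hf => exact ⟨hS f hf, h f hf⟩
  | zero => exact ⟨continuous_const, 0, by simp⟩
  | add f g' _ _ hf hg =>
    obtain ⟨hfc, n, hn⟩ := hf
    obtain ⟨hgc, m, hm⟩ := hg
    refine ⟨hfc.add hgc, n + m, ?_⟩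
    have i1 : Continuous fun x : UnitAddTorus (Fin g) => f (dbl x) := hfc.comp continuous_dbl
    have i2 : Continuous fun x : UnitAddTorus (Fin g) => g' (dbl x) := hgc.comp continuous_dbl
    push_cast
    rw [← hn, ← hm, ← integral_add (integrable_cont _ i1) (integrable_cont _ i2)]
    rfl
  | smul a f _ hf =>
    obtain ⟨hfc, n, hn⟩ := hf
    refine ⟨hfc.const_smul a, a * n, ?_⟩
    push_cast
    rw [← hn, ← integral_const_mul]
    refine integral_congr_ae (Eventually.of_forall fun x => ?_)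
    simp only [Pi.smul_apply, zsmul_eq_mul]

theorem span_match {S : Set (UnitAddTorus (Fin (g + g)) → ℂ)} (hS : ∀ f ∈ S, Continuous f)
    (ν : Measure (UnitAddTorus (Fin g))) [IsFiniteMeasure ν]
    (h : ∀ f ∈ S, ∫ x, f (dbl x) ∂ν = (Nat.card (sympW g) : ℂ)⁻¹ *
        ∫ x, f (dbl x) * (dens (sympRoots g) x : ℂ) ∂(vol (Fin g)))
    {G : UnitAddTorus (Fin (g + g)) → ℂ} (hG : G ∈ Submodule.span ℤ S) :
    Continuous G ∧ ∫ x, G (dbl x) ∂ν = (Nat.card (sympW g) : ℂ)⁻¹ *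
        ∫ x, G (dbl x) * (dens (sympRoots g) x : ℂ) ∂(vol (Fin g)) := by
  have hd := continuous_dens (sympRoots g)
  induction hG using Submodule.span_induction with
  | mem f hf => exact ⟨hS f hf, h f hf⟩
  | zero => exact ⟨continuous_const, by simp⟩
  | add f g' _ _ hf hg =>
    obtain ⟨hfc, h1⟩ := hf
    obtain ⟨hgc, h2⟩ := hg
    refine ⟨hfc.add hgc, ?_⟩
    have i1 : Continuous fun x : UnitAddTorus (Fin g) => f (dbl x) := hfc.comp continuous_dbl
    have i2 : Continuous fun x : UnitAddTorus (Fin g) => g' (dbl x) := hgc.comp continuous_dbl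
    have j1 : Continuous fun x : UnitAddTorus (Fin g) => f (dbl x) * (dens (sympRoots g) x : ℂ) :=
      i1.mul (Complex.continuous_ofReal.comp hd)
    have j2 : Continuous fun x : UnitAddTorus (Fin g) => g' (dbl x) * (dens (sympRoots g) x : ℂ) :=
      i2.mul (Complex.continuous_ofReal.comp hd)
    have e : ∫ x, (f + g') (dbl x) * (dens (sympRoots g) x : ℂ) ∂(vol (Fin g)) =
        ∫ x, f (dbl x) * (dens (sympRoots g) x : ℂ) ∂(vol (Fin g)) +
        ∫ x, g' (dbl x) * (dens (sympRoots g) x : ℂ) ∂(vol (Fin g)) := by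
      rw [← integral_add (integrable_cont _ j1) (integrable_cont _ j2)]
      refine integral_congr_ae (Eventually.of_forall fun x => ?_)
      simp only [Pi.add_apply]
      ring
    rw [e, mul_add, ← h1, ← h2, ← integral_add (integrable_cont _ i1) (integrable_cont _ i2)]
    rfl
  | smul a f _ hf =>
    obtain ⟨hfc, h1⟩ := hf
    refine ⟨hfc.const_smul a, ?_⟩
    have e : ∫ x, (a • f) (dbl x) * (dens (sympRoots g) x : ℂ) ∂(vol (Fin g)) =
        (a : ℂ) * ∫ x, f (dbl x) * (dens (sympRoots g) x : ℂ) ∂(vol (Fin g)) := by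
      rw [← integral_const_mul]
      refine integral_congr_ae (Eventually.of_forall fun x => ?_)
      simp only [Pi.smul_apply, zsmul_eq_mul]
      ring
    rw [e, ← mul_assoc, mul_comm ((Nat.card (sympW g) : ℂ)⁻¹) (a : ℂ), mul_assoc, ← h1,
      ← integral_const_mul]
    refine integral_congr_ae (Eventually.of_forall fun x => ?_)
    simp only [Pi.smul_apply, zsmul_eq_mul]

/-- admissible cosets -/
def Adm (g : ℕ) (Γ : AddSubgroup (Fin g → ℤ)) (a : UnitAddTorus (Fin g)) : Prop :=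
  (Γ = ⊥ ∨ ∃ N : ℕ, 0 < N ∧ ∀ μ : Fin g → ℤ, N • μ ∈ Γ) ∧
  (∀ γ ∈ Γ, mFourier γ a = 1 ∨ mFourier γ a = -1) ∧
  (∀ w ∈ sympW g, ∀ γ ∈ Γ, w γ ∈ Γ ∧ mFourier (w γ) a = mFourier γ a)

/-- the law of a probability measure with integral moments -/
theorem law_of_int (hC : StmC) (hirr : StmIrr) {F : Finset (Fin g → ℤ)}
    (hF : ∀ ρ : Measure (UnitAddTorus (Fin g)), IsFiniteMeasure ρ →
      (∀ μ : Fin g → ℤ, ∃ n : ℤ, ∫ x, mFourier μ x ∂ρ = n) →
      (∀ μ ∈ F, ∫ x, mFourier μ x ∂ρ = dC (sympRoots g) μ) →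
      ∃ (Γ : AddSubgroup (Fin g → ℤ)) (a : UnitAddTorus (Fin g)), IsCosetLaw (sympRoots g) Γ a ρ)
    {G : (Fin g → ℤ) → UnitAddTorus (Fin (g + g)) → ℂ}
    (hG : ∀ μ, G μ ∈ Submodule.span ℤ (wordFun (g + g)))
    (hGorb : ∀ μ x, orb (sympW g) μ x = G μ (dbl x)) {R : ℕ}
    (hR : ∀ μ ∈ F, G μ ∈ Submodule.span ℤ (wordFunR (g + g) R))
    (ν : Measure (UnitAddTorus (Fin g))) [IsProbabilityMeasure ν]
    (h1 : ∀ (r : ℕ) (k : Fin r → ℕ), (∀ j, k j ≤ g + g) → ∃ n : ℤ, ∫ x, chiW k (dbl x) ∂ν = n)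
    (h2 : ∀ (r : ℕ) (k : Fin r → ℕ), r ≤ R → (∀ j, k j ≤ g + g) →
      ∫ x, chiW k (dbl x) ∂ν = stMult g k) :
    ∃ (Γ : AddSubgroup (Fin g → ℤ)) (a : UnitAddTorus (Fin g)), Adm g Γ a ∧
      ∀ σ : Measure (UnitAddTorus (Fin g)), IsHaarOn (annih Γ) σ →
        ∀ f : UnitAddTorus (Fin g) → ℝ, Continuous f →
          (∀ w ∈ sympW g, ∀ x, f (act w x) = f x) →
          ∫ x, f x ∂ν = cosetMean (sympW g) (sympRoots g) σ a f := by
  have hΦ := hC g
  have hWfin := hΦ.fin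
  let _ : Fintype (sympW g) := Fintype.ofFinite (sympW g)
  have hcard0 : (Nat.card (sympW g) : ℂ) ≠ 0 := by
    have : Nat.card (sympW g) ≠ 0 := Nat.card_pos.ne'
    exact_mod_cast this
  set ρ := smeas (sympW g) ν with hρ
  have hfin : IsFiniteMeasure ρ := smeas_fin _ _
  have horb : ∀ μ, ∫ x, mFourier μ x ∂ρ = ∫ x, orb (sympW g) μ x ∂ν := by
    intro μ
    rw [hρ, smeas_sym _ _ (by fun_prop)]
    refine integral_congr_ae (Eventually.of_forall fun x => ?_)
    exact (orb_eq' μ x).symm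
  have hint : ∀ μ : Fin g → ℤ, ∃ n : ℤ, ∫ x, mFourier μ x ∂ρ = n := by
    intro μ
    rw [horb]
    simp only [hGorb]
    exact (span_int' (by
      rintro f ⟨r, k, -, rfl⟩
      exact continuous_chiW k) ν (by
      rintro f ⟨r, k, hk, rfl⟩
      exact h1 r k hk) (hG μ)).2
  have hmatch : ∀ μ ∈ F, ∫ x, mFourier μ x ∂ρ = dC (sympRoots g) μ := by
    intro μ hμ
    rw [horb]
    have h3 := (span_match (by
      rintro f ⟨r, k, -, -, rfl⟩
      exact continuous_chiW k) ν (by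
      rintro f ⟨r, k, hr, hk, rfl⟩
      exact h2 r k hr hk) (hR μ hμ)).2
    simp only [← hGorb] at h3
    rw [h3, orb_mean hΦ, inv_mul_cancel_left₀ hcard0]
  obtain ⟨Γ, a, hlaw⟩ := hF ρ hfin hint hmatch
  have hinvW : ∀ w ∈ sympW g, ∀ μ : Fin g → ℤ,
      ∫ x, mFourier (w μ) x ∂ρ = ∫ x, mFourier μ x ∂ρ := by
    intro w hw μ
    rw [horb, horb]
    refine integral_congr_ae (Eventually.of_forall fun x => ?_)
    change orb (sympW g) (w μ) x = orb (sympW g) μ x
    rw [orb_eq, orb_eq]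
    exact Fintype.sum_equiv (Equiv.mulRight (⟨w, hw⟩ : sympW g)) _ _ fun w' => rfl
  have hmass : (ρ.real Set.univ : ℂ) = Nat.card (sympW g) := by
    rw [← mass_eq, horb]
    have h3 : ∀ x, orb (sympW g) 0 x = (Nat.card (sympW g) : ℂ) := by
      intro x
      rw [orb_eq]
      simp [mFourier_zero, Nat.card_eq_fintype_card]
    simp [h3]
  have hst := coset_stable hlaw hinvW
  refine ⟨Γ, a, ⟨?_, hlaw.2.1, fun w hw γ hγ => ⟨hst w hw γ hγ, ?_⟩⟩, fun σ hσ f hf hfW => ?_⟩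
  · by_cases hΓ : Γ = ⊥
    · exact Or.inl hΓ
    · exact Or.inr (hirr g Γ hst hΓ)
  · have h3 := coset_value hlaw (hst w hw γ hγ)
    rw [hinvW w hw, coset_value hlaw hγ, hmass] at h3
    exact (mul_right_cancel₀ hcard0 h3).symm
  · have h3 := cosetMean_eq (W := sympW g) hlaw hσ hf
    have h4 : ∫ x, (f x : ℂ) ∂ρ = (Nat.card (sympW g) : ℂ) * ∫ x, (f x : ℂ) ∂ν := by
      have h5 := smeas_sym (sympW g) ν (f := fun x => (f x : ℂ)) (Complex.continuous_ofReal.comp hf)
      rw [hρ, h5, ← integral_const_mul]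
      refine integral_congr_ae (Eventually.of_forall fun x => ?_)
      exact sym_inv _ (fun w hw x => by rw [hfW w hw]) x
    rw [h4, inv_mul_cancel_left₀ hcard0, integral_complex_ofReal] at h3
    exact_mod_cast h3

/-- a limit of probability measures -/
theorem exists_plim {ι : Type*} (U : Ultrafilter ι) {r : ℕ}
    (P : ι → ProbabilityMeasure (UnitAddTorus (Fin r))) :
    ∃ ν : ProbabilityMeasure (UnitAddTorus (Fin r)), ∀ f : UnitAddTorus (Fin r) → ℂ, Continuous f →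
      Tendsto (fun i => ∫ x, f x ∂(P i : Measure (UnitAddTorus (Fin r)))) (U : Filter ι)
        (𝓝 (∫ x, f x ∂(ν : Measure (UnitAddTorus (Fin r))))) := by
  obtain ⟨ν, -, hν⟩ := isCompact_univ.ultrafilter_le_nhds (U.map P) (by simp)
  have hν' : Tendsto P (U : Filter ι) (𝓝 ν) := hν
  exact ⟨ν, fun f hf => (ProbabilityMeasure.tendsto_iff_forall_integral_rclike_tendsto ℂ).1 hν'
    (BoundedContinuousFunction.mkOfCompact ⟨f, hf⟩)⟩

/-- **Quantitative form for probability measures.** -/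
theorem near (hC : StmC) (hirr : StmIrr) {F : Finset (Fin g → ℤ)}
    (hF : ∀ ρ : Measure (UnitAddTorus (Fin g)), IsFiniteMeasure ρ →
      (∀ μ : Fin g → ℤ, ∃ n : ℤ, ∫ x, mFourier μ x ∂ρ = n) →
      (∀ μ ∈ F, ∫ x, mFourier μ x ∂ρ = dC (sympRoots g) μ) →
      ∃ (Γ : AddSubgroup (Fin g → ℤ)) (a : UnitAddTorus (Fin g)), IsCosetLaw (sympRoots g) Γ a ρ)
    {G : (Fin g → ℤ) → UnitAddTorus (Fin (g + g)) → ℂ}
    (hG : ∀ μ, G μ ∈ Submodule.span ℤ (wordFun (g + g)))
    (hGorb : ∀ μ x, orb (sympW g) μ x = G μ (dbl x)) {R : ℕ}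
    (hR : ∀ μ ∈ F, G μ ∈ Submodule.span ℤ (wordFunR (g + g) R))
    {m : ℕ} (f : Fin m → UnitAddTorus (Fin g) → ℝ) (hf : ∀ i, Continuous (f i))
    (hfW : ∀ i, ∀ w ∈ sympW g, ∀ x, f i (act w x) = f i x) {δ : ℝ} (hδ : 0 < δ) :
    ∃ (η : ℝ) (R' : ℕ), 0 < η ∧ ∀ P : ProbabilityMeasure (UnitAddTorus (Fin g)),
      (∀ (r : ℕ) (k : Fin r → ℕ), r ≤ R' → (∀ j, k j ≤ g + g) →
        ∃ n : ℤ, ‖∫ x, chiW k (dbl x) ∂(P : Measure (UnitAddTorus (Fin g))) - n‖ ≤ η) →
      (∀ (r : ℕ) (k : Fin r → ℕ), r ≤ R → (∀ j, k j ≤ g + g) →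
        ‖∫ x, chiW k (dbl x) ∂(P : Measure (UnitAddTorus (Fin g))) - stMult g k‖ ≤ η) →
      ∃ (Γ : AddSubgroup (Fin g → ℤ)) (a : UnitAddTorus (Fin g)), Adm g Γ a ∧
        ∀ σ : Measure (UnitAddTorus (Fin g)), IsHaarOn (annih Γ) σ → ∀ i,
          |∫ x, f i x ∂(P : Measure (UnitAddTorus (Fin g))) -
            cosetMean (sympW g) (sympRoots g) σ a (f i)| ≤ δ := by
  by_contra hcon
  push Not at hcon
  choose P h1 h2 h3 using fun M : ℕ => hcon (1 / ((M : ℝ) + 1)) M (by positivity)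
  set U : Ultrafilter ℕ := Filter.hyperfilter ℕ with hU
  have hUtop : (U : Filter ℕ) ≤ atTop := by
    rw [← Nat.cofinite_eq_atTop]
    exact Filter.hyperfilter_le_cofinite
  obtain ⟨ν, hν⟩ := exists_plim U P
  have h0 : Tendsto (fun M : ℕ => 1 / ((M : ℝ) + 1)) (U : Filter ℕ) (𝓝 0) :=
    tendsto_one_div_add_atTop_nhds_zero_nat.mono_left hUtop
  obtain ⟨Γ, a, hadm, hlaw⟩ := law_of_int hC hirr hF hG hGorb hR
    (ν : Measure (UnitAddTorus (Fin g))) (fun r k hk => by
      have hl := hν _ (continuous_word k)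
      have h5' : ∀ M : ℕ, ∃ n : ℤ, r ≤ M →
          ‖∫ x, chiW k (dbl x) ∂(P M : Measure (UnitAddTorus (Fin g))) - n‖ ≤ 1 / ((M : ℝ) + 1) := by
        intro M
        by_cases hM : r ≤ M
        · obtain ⟨n, hn⟩ := h1 M r k hM hk
          exact ⟨n, fun _ => hn⟩
        · exact ⟨0, fun h => absurd h hM⟩
      choose n hn using h5'
      have h6 : Tendsto (fun M => ((n M : ℤ) : ℂ)) (U : Filter ℕ)
          (𝓝 (∫ x, chiW k (dbl x) ∂(ν : Measure (UnitAddTorus (Fin g))))) := by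
        have h7 : Tendsto (fun M => ∫ x, chiW k (dbl x) ∂(P M : Measure (UnitAddTorus (Fin g))) -
            ((n M : ℤ) : ℂ)) (U : Filter ℕ) (𝓝 0) := by
          refine squeeze_zero_norm' (a := fun M : ℕ => 1 / ((M : ℝ) + 1)) ?_ h0
          exact ((eventually_ge_atTop r).filter_mono hUtop).mono fun M hM => hn M hM
        have h8 := hl.sub h7
        rw [sub_zero] at h8
        refine h8.congr fun M => ?_
        ring
      obtain ⟨z, hz⟩ := (int_limit (Eventually.of_forall fun M => ⟨n M, rfl⟩) h6).1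
      exact ⟨z, hz⟩) (fun r k hr hk => by
      have hl := (hν _ (continuous_word k)).sub_const (stMult g k)
      have h7 : Tendsto (fun M => ∫ x, chiW k (dbl x) ∂(P M : Measure (UnitAddTorus (Fin g))) -
          stMult g k) (U : Filter ℕ) (𝓝 0) :=
        squeeze_zero_norm (a := fun M : ℕ => 1 / ((M : ℝ) + 1)) (fun M => h2 M r k hr hk) h0
      exact sub_eq_zero.1 (tendsto_nhds_unique hl h7))
  -- the integrals converge
  obtain ⟨σ0, hσ0, -⟩ := exists_haarOn (annih Γ) (isClosed_annih Γ)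
  have h10 : ∀ᶠ M in (U : Filter ℕ), ∀ i,
      |∫ x, f i x ∂(P M : Measure (UnitAddTorus (Fin g))) -
        ∫ x, f i x ∂(ν : Measure (UnitAddTorus (Fin g)))| < δ := by
    rw [Filter.eventually_all]
    intro i
    have h11 := (Complex.continuous_re.tendsto _).comp
      (hν (fun x => (f i x : ℂ)) (Complex.continuous_ofReal.comp (hf i)))
    rw [integral_complex_ofReal, Complex.ofReal_re] at h11
    have h12 := (h11.sub_const (∫ x, f i x ∂(ν : Measure (UnitAddTorus (Fin g))))).abs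
    rw [sub_self, abs_zero] at h12
    refine (h12.eventually_lt_const hδ).mono fun M hM => ?_
    simp only [Function.comp] at hM
    rwa [integral_complex_ofReal, Complex.ofReal_re] at hM
  obtain ⟨M, hM⟩ := h10.exists
  obtain ⟨σ, hσ, i, hi⟩ := h3 M Γ a hadm
  rw [← hlaw σ hσ (f i) (hf i) (hfW i)] at hi
  exact absurd (hM i) (not_lt.2 hi.le)

end

end Pool.Agent.Y798.FC
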