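import Pool.Agent.Y798.FC.Stm5

/-! Arbitrary Weyl data: quantitative form without hypothesis. -/

set_option autoImplicit false

namespace Pool.Agent.Y798.FC

open MeasureTheory UnitAddTorus Filter Topology NumberField IsDedekindDomain
  Pool.Agent.W540.BE Pool.Agent.TH553.RS Pool.Agent.TH553.ST Pool.Agent.Y798.JL
open Pool.Agent.Y139.ID (Good good_ev integrable_cont integrable_cont_real intL IsHaarOn annih
  measure_ext_fourier mFourier_apply_add exists_haarOn isClosed_annih mem_annih avg avg_eq)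

section
variable {r : ℕ} {W : Subgroup (Auts (Fin r))} {Φ : Finset (Fin r → ℤ)}

/-- admissible cosets -/
def Adm2 (W : Subgroup (Auts (Fin r))) (Γ : AddSubgroup (Fin r → ℤ))
    (a : UnitAddTorus (Fin r)) : Prop :=
  (∀ γ ∈ Γ, mFourier γ a = 1 ∨ mFourier γ a = -1) ∧
  (∀ w ∈ W, ∀ γ ∈ Γ, w γ ∈ Γ ∧ mFourier (w γ) a = mFourier γ a)

/-- the law of a probability measure with integral moments -/
theorem law_of_int2 (hΦ : IsWeylDatum W Φ) {F : Finset (Fin r → ℤ)}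
    (hF : ∀ ρ : Measure (UnitAddTorus (Fin r)), IsFiniteMeasure ρ →
      (∀ μ : Fin r → ℤ, ∃ n : ℤ, ∫ x, mFourier μ x ∂ρ = n) →
      (∀ μ ∈ F, ∫ x, mFourier μ x ∂ρ = dC Φ μ) →
      ∃ (Γ : AddSubgroup (Fin r → ℤ)) (a : UnitAddTorus (Fin r)), IsCosetLaw Φ Γ a ρ)
    (ν : Measure (UnitAddTorus (Fin r))) [IsProbabilityMeasure ν]
    (h1 : ∀ μ : Fin r → ℤ, ∃ n : ℤ, ∫ x, msum W μ x ∂ν = n)
    (h2 : ∀ μ ∈ F, ∫ x, msum W μ x ∂ν = wm W Φ (msum W μ)) :
    ∃ (Γ : AddSubgroup (Fin r → ℤ)) (a : UnitAddTorus (Fin r)), Adm2 W Γ a ∧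
      ∀ σ : Measure (UnitAddTorus (Fin r)), IsHaarOn (annih Γ) σ →
        ∀ f : UnitAddTorus (Fin r) → ℝ, Continuous f → (∀ w ∈ W, ∀ x, f (act w x) = f x) →
          ∫ x, f x ∂ν = cosetMean W Φ σ a f := by
  have hWfin := hΦ.fin
  let _ : Fintype W := Fintype.ofFinite W
  have hcard0 : (Nat.card W : ℂ) ≠ 0 := by
    have : Nat.card W ≠ 0 := Nat.card_pos.ne'
    exact_mod_cast this
  set ρ := smeas W ν with hρ
  have hfin : IsFiniteMeasure ρ := smeas_fin _ _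
  have horb : ∀ μ, ∫ x, mFourier μ x ∂ρ = (stab W μ : ℂ) * ∫ x, msum W μ x ∂ν := by
    intro μ
    rw [hρ, smeas_sym _ _ (by fun_prop), ← integral_const_mul]
    refine integral_congr_ae (Eventually.of_forall fun x => ?_)
    change sym W (mFourier μ) x = (stab W μ : ℂ) * msum W μ x
    rw [← orb_msum hWfin]
    exact (orb_eq' μ x).symm
  have hint : ∀ μ : Fin r → ℤ, ∃ n : ℤ, ∫ x, mFourier μ x ∂ρ = n := by
    intro μ
    obtain ⟨n, hn⟩ := h1 μ
    refine ⟨stab W μ * n, ?_⟩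
    rw [horb, hn]
    push_cast
    rfl
  have hmatch : ∀ μ ∈ F, ∫ x, mFourier μ x ∂ρ = dC Φ μ := by
    intro μ hμ
    rw [horb, h2 μ hμ, wm_msum hΦ]
  obtain ⟨Γ, a, hlaw⟩ := hF ρ hfin hint hmatch
  have horb' : ∀ μ, ∫ x, mFourier μ x ∂ρ = ∫ x, orb W μ x ∂ν := by
    intro μ
    rw [hρ, smeas_sym _ _ (by fun_prop)]
    refine integral_congr_ae (Eventually.of_forall fun x => ?_)
    exact (orb_eq' μ x).symm
  have hinvW : ∀ w ∈ W, ∀ μ : Fin r → ℤ,
      ∫ x, mFourier (w μ) x ∂ρ = ∫ x, mFourier μ x ∂ρ := by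
    intro w hw μ
    rw [horb', horb']
    refine integral_congr_ae (Eventually.of_forall fun x => ?_)
    change orb W (w μ) x = orb W μ x
    rw [orb_eq, orb_eq]
    exact Fintype.sum_equiv (Equiv.mulRight (⟨w, hw⟩ : W)) _ _ fun w' => rfl
  have hmass : (ρ.real Set.univ : ℂ) = Nat.card W := by
    rw [← mass_eq, horb']
    have h3 : ∀ x, orb W 0 x = (Nat.card W : ℂ) := by
      intro x
      rw [orb_eq]
      simp [mFourier_zero, Nat.card_eq_fintype_card]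
    simp [h3]
  have hst := coset_stable hlaw hinvW
  refine ⟨Γ, a, ⟨hlaw.2.1, fun w hw γ hγ => ⟨hst w hw γ hγ, ?_⟩⟩, fun σ hσ f hf hfW => ?_⟩
  · have h3 := coset_value hlaw (hst w hw γ hγ)
    rw [hinvW w hw, coset_value hlaw hγ, hmass] at h3
    exact (mul_right_cancel₀ hcard0 h3).symm
  · have h3 := cosetMean_eq (W := W) hlaw hσ hf
    have h4 : ∫ x, (f x : ℂ) ∂ρ = (Nat.card W : ℂ) * ∫ x, (f x : ℂ) ∂ν := by
      have h5 := smeas_sym W ν (f := fun x => (f x : ℂ)) (Complex.continuous_ofReal.comp hf)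
      rw [hρ, h5, ← integral_const_mul]
      refine integral_congr_ae (Eventually.of_forall fun x => ?_)
      exact sym_inv _ (fun w hw x => by rw [hfW w hw]) x
    rw [h4, inv_mul_cancel_left₀ hcard0, integral_complex_ofReal] at h3
    exact_mod_cast h3

/-- **Quantitative form for probability measures.** -/
theorem near2 (hΦ : IsWeylDatum W Φ) {F : Finset (Fin r → ℤ)}
    (hF : ∀ ρ : Measure (UnitAddTorus (Fin r)), IsFiniteMeasure ρ →
      (∀ μ : Fin r → ℤ, ∃ n : ℤ, ∫ x, mFourier μ x ∂ρ = n) →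
      (∀ μ ∈ F, ∫ x, mFourier μ x ∂ρ = dC Φ μ) →
      ∃ (Γ : AddSubgroup (Fin r → ℤ)) (a : UnitAddTorus (Fin r)), IsCosetLaw Φ Γ a ρ)
    {m : ℕ} (f : Fin m → UnitAddTorus (Fin r) → ℝ) (hf : ∀ i, Continuous (f i))
    (hfW : ∀ i, ∀ w ∈ W, ∀ x, f i (act w x) = f i x) {δ : ℝ} (hδ : 0 < δ) :
    ∃ (η : ℝ) (R' : ℕ), 0 < η ∧ ∀ P : ProbabilityMeasure (UnitAddTorus (Fin r)),
      (∀ μ : Fin r → ℤ, (∀ j, |μ j| ≤ R') →
        ∃ n : ℤ, ‖∫ x, msum W μ x ∂(P : Measure (UnitAddTorus (Fin r))) - n‖ ≤ η) →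
      (∀ μ ∈ F,
        ‖∫ x, msum W μ x ∂(P : Measure (UnitAddTorus (Fin r))) - wm W Φ (msum W μ)‖ ≤ η) →
      ∃ (Γ : AddSubgroup (Fin r → ℤ)) (a : UnitAddTorus (Fin r)), Adm2 W Γ a ∧
        ∀ σ : Measure (UnitAddTorus (Fin r)), IsHaarOn (annih Γ) σ → ∀ i,
          |∫ x, f i x ∂(P : Measure (UnitAddTorus (Fin r))) - cosetMean W Φ σ a (f i)| ≤ δ := by
  by_contra hcon
  push Not at hcon
  choose P h1 h2 h3 using fun M : ℕ => hcon (1 / ((M : ℝ) + 1)) M (by positivity)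
  have hWfin := hΦ.fin
  set U : Ultrafilter ℕ := Filter.hyperfilter ℕ with hU
  have hUtop : (U : Filter ℕ) ≤ atTop := by
    rw [← Nat.cofinite_eq_atTop]
    exact Filter.hyperfilter_le_cofinite
  obtain ⟨ν, hν⟩ := exists_plim U P
  have h0 : Tendsto (fun M : ℕ => 1 / ((M : ℝ) + 1)) (U : Filter ℕ) (𝓝 0) :=
    tendsto_one_div_add_atTop_nhds_zero_nat.mono_left hUtop
  obtain ⟨Γ, a, hadm, hlaw⟩ := law_of_int2 hΦ hF
    (ν : Measure (UnitAddTorus (Fin r))) (fun μ => by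
      have hl := hν _ (continuous_msum hWfin μ)
      obtain ⟨B, hB⟩ : ∃ B : ℕ, ∀ j, |μ j| ≤ B := by
        refine ⟨(∑ j, |μ j|).toNat, fun j => ?_⟩
        have h4 : |μ j| ≤ ∑ j, |μ j| :=
          Finset.single_le_sum (f := fun j => |μ j|) (fun _ _ => abs_nonneg _) (Finset.mem_univ j)
        exact h4.trans (Int.self_le_toNat _)
      have h5' : ∀ M : ℕ, ∃ n : ℤ, B ≤ M →
          ‖∫ x, msum W μ x ∂(P M : Measure (UnitAddTorus (Fin r))) - n‖ ≤ 1 / ((M : ℝ) + 1) := by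
        intro M
        by_cases hM : B ≤ M
        · obtain ⟨n, hn⟩ := h1 M μ fun j => (hB j).trans (by exact_mod_cast hM)
          exact ⟨n, fun _ => hn⟩
        · exact ⟨0, fun h => absurd h hM⟩
      choose n hn using h5'
      have h6 : Tendsto (fun M => ((n M : ℤ) : ℂ)) (U : Filter ℕ)
          (𝓝 (∫ x, msum W μ x ∂(ν : Measure (UnitAddTorus (Fin r))))) := by
        have h7 : Tendsto (fun M => ∫ x, msum W μ x ∂(P M : Measure (UnitAddTorus (Fin r))) -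
            ((n M : ℤ) : ℂ)) (U : Filter ℕ) (𝓝 0) := by
          refine squeeze_zero_norm' (a := fun M : ℕ => 1 / ((M : ℝ) + 1)) ?_ h0
          exact ((eventually_ge_atTop B).filter_mono hUtop).mono fun M hM => hn M hM
        have h8 := hl.sub h7
        rw [sub_zero] at h8
        refine h8.congr fun M => ?_
        ring
      obtain ⟨z, hz⟩ := (int_limit (Eventually.of_forall fun M => ⟨n M, rfl⟩) h6).1
      exact ⟨z, hz⟩) (fun μ hμ => by
      have hl := (hν _ (continuous_msum hWfin μ)).sub_const (wm W Φ (msum W μ))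
      have h7 : Tendsto (fun M => ∫ x, msum W μ x ∂(P M : Measure (UnitAddTorus (Fin r))) -
          wm W Φ (msum W μ)) (U : Filter ℕ) (𝓝 0) :=
        squeeze_zero_norm (a := fun M : ℕ => 1 / ((M : ℝ) + 1)) (fun M => h2 M μ hμ) h0
      exact sub_eq_zero.1 (tendsto_nhds_unique hl h7))
  -- the integrals converge
  have h10 : ∀ᶠ M in (U : Filter ℕ), ∀ i,
      |∫ x, f i x ∂(P M : Measure (UnitAddTorus (Fin r))) -
        ∫ x, f i x ∂(ν : Measure (UnitAddTorus (Fin r)))| < δ := by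
    rw [Filter.eventually_all]
    intro i
    have h11 := (Complex.continuous_re.tendsto _).comp
      (hν (fun x => (f i x : ℂ)) (Complex.continuous_ofReal.comp (hf i)))
    rw [integral_complex_ofReal, Complex.ofReal_re] at h11
    have h12 := (h11.sub_const (∫ x, f i x ∂(ν : Measure (UnitAddTorus (Fin r))))).abs
    rw [sub_self, abs_zero] at h12
    refine (h12.eventually_lt_const hδ).mono fun M hM => ?_
    simp only [Function.comp] at hM
    rwa [integral_complex_ofReal, Complex.ofReal_re] at hM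
  obtain ⟨M, hM⟩ := h10.exists
  obtain ⟨σ, hσ, i, hi⟩ := h3 M Γ a hadm
  rw [← hlaw σ hσ (f i) (hf i) (hfW i)] at hi
  exact absurd (hM i) (not_lt.2 hi.le)

/-- **Finite level, without hypothesis.** -/
theorem finite_level2 (hlog : StmLog) (hΦ : IsWeylDatum W Φ) {F : Finset (Fin r → ℤ)}
    (hF : ∀ ρ : Measure (UnitAddTorus (Fin r)), IsFiniteMeasure ρ →
      (∀ μ : Fin r → ℤ, ∃ n : ℤ, ∫ x, mFourier μ x ∂ρ = n) →
      (∀ μ ∈ F, ∫ x, mFourier μ x ∂ρ = dC Φ μ) →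
      ∃ (Γ : AddSubgroup (Fin r → ℤ)) (a : UnitAddTorus (Fin r)), IsCosetLaw Φ Γ a ρ)
    {m : ℕ} (f : Fin m → UnitAddTorus (Fin r) → ℝ) (hf : ∀ i, Continuous (f i))
    (hfW : ∀ i, ∀ w ∈ W, ∀ x, f i (act w x) = f i x) {δ : ℝ} (hδ : 0 < δ) :
    ∃ (η : ℝ) (R' : ℕ), 0 < η ∧ ∀ (K : Type) [Field K] [NumberField K]
      (θ : HeightOneSpectrum (𝓞 K) → UnitAddTorus (Fin r)), ∀ᶠ ε : ℝ in 𝓝[>] 0,
        (∃ μ : Fin r → ℤ, (∀ j, |μ j| ≤ R') ∧ ∀ n : ℤ,
          η < ‖logLM W θ μ (1 + ε) / ((Real.log (1 / ε) : ℝ) : ℂ) - n‖) ∨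
        (∃ μ ∈ F, η < ‖logLM W θ μ (1 + ε) / ((Real.log (1 / ε) : ℝ) : ℂ) -
          wm W Φ (msum W μ)‖) ∨
        ∃ (Γ : AddSubgroup (Fin r → ℤ)) (a : UnitAddTorus (Fin r)), Adm2 W Γ a ∧
          ∀ σ : Measure (UnitAddTorus (Fin r)), IsHaarOn (annih Γ) σ → ∀ i,
            |avg (fun v => f i (θ v)) ε - cosetMean W Φ σ a (f i)| ≤ δ := by
  obtain ⟨η, R', hη, hmain⟩ := near2 hΦ hF f hf hfW hδ
  have hWfin := hΦ.fin
  refine ⟨η / 2, R', half_pos hη, fun K _ _ θ => ?_⟩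
  set B : Finset (Fin r → ℤ) := Finset.Icc (fun _ => -(R' : ℤ)) (fun _ => (R' : ℤ)) with hB
  have hBm : ∀ μ : Fin r → ℤ, (∀ j, |μ j| ≤ R') → μ ∈ B := fun μ hμ => by
    rw [hB, Finset.mem_Icc]
    exact ⟨fun j => (abs_le.1 (hμ j)).1, fun j => (abs_le.1 (hμ j)).2⟩
  have hev : ∀ S : Finset (Fin r → ℤ), ∀ᶠ ε : ℝ in 𝓝[>] 0, ∀ μ ∈ S,
      ‖cE (fun v => msum W μ (θ v)) ε -
        logLM W θ μ (1 + ε) / ((Real.log (1 / ε) : ℝ) : ℂ)‖ < η / 2 := by
    intro S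
    rw [Filter.eventually_all_finset]
    intro μ _
    have h2 := (hlog K r W hWfin θ μ).norm
    rw [norm_zero] at h2
    exact h2.eventually_lt_const (half_pos hη)
  filter_upwards [hev B, hev F, good_ev (K := K)] with ε h1 h2 h3
  have hint : ∀ μ : Fin r → ℤ,
      ∫ x, msum W μ x ∂(pm θ ε : Measure (UnitAddTorus (Fin r))) =
        cE (fun v => msum W μ (θ v)) ε := fun μ => pm_int θ h3 (continuous_msum hWfin μ)
  by_cases hA : ∃ μ : Fin r → ℤ, (∀ j, |μ j| ≤ R') ∧ ∀ n : ℤ,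
      η / 2 < ‖logLM W θ μ (1 + ε) / ((Real.log (1 / ε) : ℝ) : ℂ) - n‖
  · exact Or.inl hA
  by_cases hB' : ∃ μ ∈ F, η / 2 < ‖logLM W θ μ (1 + ε) / ((Real.log (1 / ε) : ℝ) : ℂ) -
      wm W Φ (msum W μ)‖
  · exact Or.inr (Or.inl hB')
  push Not at hA hB'
  right
  right
  obtain ⟨Γ, a, hadm, hlaw⟩ := hmain (pm θ ε) (fun μ hμ => by
    obtain ⟨n, hn⟩ := hA μ hμ
    refine ⟨n, ?_⟩
    have h5 := h1 μ (hBm μ hμ)
    rw [hint]
    have e : cE (fun v => msum W μ (θ v)) ε - n =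
        (cE (fun v => msum W μ (θ v)) ε - logLM W θ μ (1 + ε) / ((Real.log (1 / ε) : ℝ) : ℂ)) +
        (logLM W θ μ (1 + ε) / ((Real.log (1 / ε) : ℝ) : ℂ) - n) := by ring
    rw [e]
    refine (norm_add_le _ _).trans ?_
    linarith) (fun μ hμ => by
    have hn := hB' μ hμ
    have h5 := h2 μ hμ
    rw [hint]
    have e : cE (fun v => msum W μ (θ v)) ε - wm W Φ (msum W μ) =
        (cE (fun v => msum W μ (θ v)) ε - logLM W θ μ (1 + ε) / ((Real.log (1 / ε) : ℝ) : ℂ)) +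
        (logLM W θ μ (1 + ε) / ((Real.log (1 / ε) : ℝ) : ℂ) - wm W Φ (msum W μ)) := by ring
    rw [e]
    refine (norm_add_le _ _).trans ?_
    linarith)
  refine ⟨Γ, a, hadm, fun σ hσ i => ?_⟩
  have h6 := hlaw σ hσ i
  have h7 : ∫ x, f i x ∂(pm θ ε : Measure (UnitAddTorus (Fin r))) = avg (fun v => f i (θ v)) ε := by
    have h8 := pm_int θ h3 (f := fun x => (f i x : ℂ)) (Complex.continuous_ofReal.comp (hf i))
    rw [integral_complex_ofReal] at h8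
    have h9 := congrArg Complex.re h8
    rw [Complex.ofReal_re] at h9
    obtain ⟨C, hC'⟩ := isCompact_univ.exists_bound_of_continuousOn (f := f i) (hf i).continuousOn
    rw [cE_re h3 (B := C) (fun v => by
      rw [Complex.norm_real]
      exact hC' _ (Set.mem_univ _))] at h9
    simpa only [Complex.ofReal_re] using h9
  rwa [h7] at h6

end

end Pool.Agent.Y798.FC
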