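import Pool.Agent.Y798.FC.Defs

/-! Statements for the project FC. -/

set_option autoImplicit false

namespace Pool.Agent.Y798.FC

open MeasureTheory UnitAddTorus Pool.Agent.Y139.ID

/-- job FC-C -/
def StmC : Prop := ∀ g : ℕ, IsWeylDatum (sympW g) (sympRoots g)

/-- job FC-IRR -/
def StmIrr : Prop := ∀ (g : ℕ) (Γ : AddSubgroup (Fin g → ℤ)), (∀ w ∈ sympW g, ∀ γ ∈ Γ, w γ ∈ Γ) →
  Γ ≠ ⊥ → ∃ N : ℕ, 0 < N ∧ ∀ μ : Fin g → ℤ, N • μ ∈ Γ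

/-- division by a product `∏ (1 - e_α)` -/
def StmDiv : Prop := ∀ (J : Type) [Fintype J] (L : List (J → ℤ)), (∀ α ∈ L, α ≠ 0) →
  ∀ (C : ℝ) (c : (J → ℤ) →₀ ℤ),
    (∀ᵐ x ∂(vol J), ‖trig c x‖ ≤ C * (L.map fun α => ‖1 - mFourier α x‖).prod) →
    ∃ c' : (J → ℤ) →₀ ℤ, ∀ x, trig c x = trig c' x * (L.map fun α => 1 - mFourier α x).prod

end Pool.Agent.Y798.FC
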