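import Pool.Agent.Y798.FC.Gen
import Pool.Agent.Y798.JL.Main

/-! Statements for the project FC, third part: the joint law with the Frobenius elements. -/

set_option autoImplicit false

namespace Pool.Agent.Y798.FC

open Complex Filter Topology MeasureTheory UnitAddTorus NumberField IsDedekindDomain
  Pool.Agent.Y139.ID Pool.Agent.W540.BE Pool.Agent.TH553.RS Pool.Agent.TH553.ST
  Pool.Agent.Y798.JL Pool.Agent.W401.Cheb

/-- job FC-FIX: the core argument for a fixed law -/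
def StmFix : Prop := ∀ (J : Type) [Fintype J] (Φ : Finset (J → ℤ)), (∀ α ∈ Φ, α ≠ 0) →
  ∀ (m D : ℝ), 0 ≤ m → 0 ≤ D → ∀ L : C(UnitAddTorus J, ℂ) →ₗ[ℂ] ℂ,
    (∀ f : C(UnitAddTorus J, ℂ), ‖L f‖ ^ 2 ≤ m * ∫ x, ‖f x‖ ^ 2 * dens Φ x ∂(vol J)) →
    (∀ ψ : UnitAddTorus J → ℝ, ∀ hψ : Continuous ψ, (∀ x, 0 ≤ ψ x) →
      ‖L ⟨fun x => (ψ x : ℂ), Complex.continuous_ofReal.comp hψ⟩‖ ≤
        D * ∫ x, ψ x * dens Φ x ∂(vol J)) →
    (∀ μ : J → ℤ, ∃ n : ℤ, L (mFourier μ) = n) →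
    ∃ d : (J → ℤ) →₀ ℤ, ∀ f : C(UnitAddTorus J, ℂ),
      L f = ∫ x, f x * (trig d x * (dens Φ x : ℂ)) ∂(vol J)

/-- job FC-BC: from the joint law with the Frobenius elements to the extensions -/
def StmBC : Prop := ∀ (K : Type) [Field K] [NumberField K]
  (σ : HeightOneSpectrum (𝓞 K) → GK K), (∀ v, IsFrob v (σ v)) →
  ∀ (X : Type) [TopologicalSpace X] [CompactSpace X] (R : X → X → Prop)
    (x : HeightOneSpectrum (𝓞 K) → X) (c0 : (X → ℝ) → ℝ), c0 (fun _ => 1) = 1 →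
    (∀ (U : Subgroup (GK K)) [U.Normal], IsOpen (U : Set (GK K)) →
      ∀ f : X → ℝ, Continuous f → (∀ a b, R a b → f a = f b) →
      ∀ e : GK K ⧸ U → ℂ, (∀ g k, e (k * g * k⁻¹) = e g) →
        Tendsto (mn fun v => ((f (x v) : ℝ) : ℂ) * e (QuotientGroup.mk (σ v))) atTop
          (𝓝 ((c0 f : ℂ) * ((Nat.card (GK K ⧸ U) : ℂ)⁻¹ * ∑ᶠ q, e q)))) →
    ∀ (F : Type) [Field F] [NumberField F] [Algebra K F] (y : HeightOneSpectrum (𝓞 F) → X),
      (∃ S : Finset (HeightOneSpectrum (𝓞 F)), ∀ w, w ∉ S → ∀ v : HeightOneSpectrum (𝓞 K),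
        w.asIdeal.comap (algebraMap (𝓞 K) (𝓞 F)) = v.asIdeal →
        Ideal.absNorm w.asIdeal = Ideal.absNorm v.asIdeal → R (y w) (x v)) →
      ∀ f : X → ℝ, Continuous f → (∀ a b, R a b → f a = f b) →
        Tendsto (mn fun w => f (y w)) atTop (𝓝 (c0 f))

/-- job FC-MIX: mean values of products of invariant functions on the torus and class functions on a finite
group -/
def StmMix : Prop := ∀ (K : Type) [Field K] [NumberField K] (r : ℕ)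
  (W : Subgroup (Auts (Fin r))), Finite W →
  ∀ (θ : HeightOneSpectrum (𝓞 K) → UnitAddTorus (Fin r)) (Q : Type) [Group Q] [Finite Q]
    (q : HeightOneSpectrum (𝓞 K) → Q) (ρ : Measure (UnitAddTorus (Fin r))),
    IsFiniteMeasure ρ →
    (∀ μ, Tendsto (mn fun v => orb W μ (θ v)) atTop (𝓝 (∫ x, mFourier μ x ∂ρ))) →
    (∀ (μ : Fin r → ℤ) (n : ℕ) (ψ : Q →* Matrix.unitaryGroup (Fin n) ℂ), Schur ψ →
      (∃ g, ψ g ≠ 1) → Tendsto (mn fun v => orb W μ (θ v) * chi ψ (q v)) atTop (𝓝 0)) →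
    ∀ (f : UnitAddTorus (Fin r) → ℂ) (e : Q → ℂ), Continuous f →
      (∀ w ∈ W, ∀ x, f (act w x) = f x) → (∀ g k, e (k * g * k⁻¹) = e g) →
      Tendsto (mn fun v => f (θ v) * e (q v)) atTop
        (𝓝 (((Nat.card W : ℂ)⁻¹ * ∫ x, f x ∂ρ) * ((Nat.card Q : ℂ)⁻¹ * ∑ᶠ q, e q)))

end Pool.Agent.Y798.FC
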