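import Pool.Agent.Y798.FC.Joint

/-! Statements for the project FC, fifth part: logarithms. -/

set_option autoImplicit false

namespace Pool.Agent.Y798.FC

open Filter Topology MeasureTheory UnitAddTorus NumberField IsDedekindDomain

/-- `log L_μ(s) = ∑_v ∑_{ν ∈ Wμ} -log(1 - e_ν(θ_v) q_v^{-s})` with the principal branch -/
noncomputable def logLM {K : Type} [Field K] [NumberField K] {r : ℕ}
    (W : Subgroup (Auts (Fin r))) (θ : HeightOneSpectrum (𝓞 K) → UnitAddTorus (Fin r))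
    (μ : Fin r → ℤ) (s : ℂ) : ℂ :=
  ∑' v : HeightOneSpectrum (𝓞 K), ∑ᶠ ν ∈ orbS W μ,
    -Complex.log (1 - mFourier ν (θ v) * (Ideal.absNorm v.asIdeal : ℂ) ^ (-s))

/-- job FC3-LOG -/
def StmLog : Prop := ∀ (K : Type) [Field K] [NumberField K] (r : ℕ)
  (W : Subgroup (Auts (Fin r))), Finite W →
  ∀ (θ : HeightOneSpectrum (𝓞 K) → UnitAddTorus (Fin r)) (μ : Fin r → ℤ),
    Tendsto (fun ε : ℝ => cE (fun v => msum W μ (θ v)) ε -
      logLM W θ μ (1 + ε) / ((Real.log (1 / ε) : ℝ) : ℂ)) (𝓝[>] 0) (𝓝 0)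

end Pool.Agent.Y798.FC
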