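import Pool.Agent.Y798.FC.Gen
import Pool.Agent.H70FC.Words
import Pool.Agent.Y139.ID.Real

/-! The symplectic group: traces of tensor products of exterior powers. -/

set_option autoImplicit false

namespace Pool.Agent.Y798.FC

open MeasureTheory UnitAddTorus Filter Topology NumberField IsDedekindDomain
  Pool.Agent.W540.BE Pool.Agent.TH553.RS Pool.Agent.TH553.ST Pool.Agent.Y798.JL
open Pool.Agent.Y139.ID (Good good_ev integrable_cont integrable_cont_real intL IsHaarOn annih
  measure_ext_fourier mFourier_apply_add exists_haarOn isClosed_annih mem_annih ev es chiW wordFun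
  idx chiW_eq_sum norm_term norm_chiW_le continuous_chiW continuous_es SD im_chiW mFourier_ev
  norm_ev ev_ne ev_neg)
open Pool.Agent.H70FC.Words (yy E cc coeff_blocks dbl_prod coeff_prod)

section
variable {g : ℕ}

theorem es_dbl_all (x : UnitAddTorus (Fin g)) (m : ℕ) :
    es m (dbl x) = ∑ j ∈ Finset.range (g + 1), (cc g m j : ℂ) * E j x := by
  rw [← coeff_blocks, ← dbl_prod, coeff_prod]
  rfl

theorem yy_act {w : Auts (Fin g)} {σ : Equiv.Perm (Fin g)} {s : Fin g → ℤˣ}
    (h : ∀ (x : Fin g → ℤ) (j : Fin g), w x j = s j * x (σ j)) (x : UnitAddTorus (Fin g))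
    (j : Fin g) : yy (act w x) j = yy x (σ⁻¹ j) := by
  have h1 := Pool.Agent.Y674.FC.act_eq h x j
  unfold yy
  have h2 : ev (act w x) j = ev x (σ⁻¹ j) ∨ ev (act w x) j = (ev x (σ⁻¹ j))⁻¹ := by
    rcases Int.units_eq_one_or (s (σ⁻¹ j)) with h3 | h3
    · left
      unfold ev
      rw [h1, h3]
      simp
    · right
      rw [← ev_neg]
      unfold ev
      rw [h1, h3]
      simp
  rcases h2 with h2 | h2
  · rw [h2]
  · rw [h2, inv_inv, add_comm]

theorem E_act {w : Auts (Fin g)} (hw : w ∈ sympW g) (m : ℕ) (x : UnitAddTorus (Fin g)) :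
    E m (act w x) = E m x := by
  classical
  obtain ⟨σ, s, h⟩ := hw
  unfold E
  simp only [yy_act h]
  refine Finset.sum_nbij' (fun S => S.map (σ⁻¹ : Equiv.Perm (Fin g)).toEmbedding)
    (fun S => S.map σ.toEmbedding) ?_ ?_ ?_ ?_ ?_
  · intro S hS
    rw [Finset.mem_powersetCard] at hS ⊢
    exact ⟨Finset.subset_univ _, by rw [Finset.card_map]; exact hS.2⟩
  · intro S hS
    rw [Finset.mem_powersetCard] at hS ⊢
    exact ⟨Finset.subset_univ _, by rw [Finset.card_map]; exact hS.2⟩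
  · intro S _
    ext i
    have h1 : (Equiv.symm σ⁻¹) ((Equiv.symm σ) i) = i := by
      change σ (σ⁻¹ i) = i
      simp
    simp [h1]
  · intro S _
    ext i
    have h1 : (Equiv.symm σ) ((Equiv.symm σ⁻¹) i) = i := by
      change σ⁻¹ (σ i) = i
      simp
    simp [h1]
  · intro S _
    rw [Finset.prod_map]
    rfl

theorem es_act {w : Auts (Fin g)} (hw : w ∈ sympW g) (m : ℕ) (x : UnitAddTorus (Fin g)) :
    es m (dbl (act w x)) = es m (dbl x) := by
  rw [es_dbl_all, es_dbl_all]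
  exact Finset.sum_congr rfl fun j _ => by rw [E_act hw]

theorem chiW_act {w : Auts (Fin g)} (hw : w ∈ sympW g) {r : ℕ} (k : Fin r → ℕ)
    (x : UnitAddTorus (Fin g)) : chiW k (dbl (act w x)) = chiW k (dbl x) := by
  unfold chiW
  exact Finset.prod_congr rfl fun j _ => es_act hw _ _

/-- the weights of the standard representation -/
def wtv (g : ℕ) : Fin (g + g) → (Fin g → ℤ) :=
  Fin.append (fun i => Pi.single i 1) (fun i => -Pi.single i 1)

theorem mF_single (i : Fin g) (x : UnitAddTorus (Fin g)) :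
    mFourier (Pi.single i 1) x = ev x i := by
  rw [mFourier_ev, Finset.prod_eq_single i]
  · simp
  · intro j _ hj
    simp [Pi.single_eq_of_ne hj]
  · simp

theorem ev_dbl (x : UnitAddTorus (Fin g)) (i : Fin (g + g)) : ev (dbl x) i = mFourier (wtv g i) x := by
  refine Fin.addCases (fun j => ?_) (fun j => ?_) i
  · unfold wtv
    rw [Fin.append_left, mF_single]
    unfold ev dbl
    rw [Fin.append_left]
  · unfold wtv
    rw [Fin.append_right, mFourier_neg, mF_single]
    have h1 : ev (dbl x) (Fin.natAdd g j) = (ev x j)⁻¹ := by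
      rw [← ev_neg]
      unfold ev dbl
      rw [Fin.append_right]
    rw [h1, Complex.inv_def, Complex.normSq_eq_norm_sq, norm_ev]
    simp

theorem mF_sum' {ι : Type*} (S : Finset ι) (ν : ι → (Fin g → ℤ)) (x : UnitAddTorus (Fin g)) :
    mFourier (∑ i ∈ S, ν i) x = ∏ i ∈ S, mFourier (ν i) x := by
  classical
  induction S using Finset.induction_on with
  | empty => simp [mFourier_zero]
  | insert a S ha ih => rw [Finset.sum_insert ha, Finset.prod_insert ha, mFourier_add, ih]

theorem term_eq {r : ℕ} (S : Fin r → Finset (Fin (g + g))) (x : UnitAddTorus (Fin g)) :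
    ∏ j, ∏ i ∈ S j, ev (dbl x) i = mFourier (∑ j, ∑ i ∈ S j, wtv g i) x := by
  rw [mF_sum']
  refine Finset.prod_congr rfl fun j _ => ?_
  rw [mF_sum']
  exact Finset.prod_congr rfl fun i _ => ev_dbl x i

theorem chiW_trig {r : ℕ} (k : Fin r → ℕ) : ∃ (T : Finset (Fin g → ℤ)) (c : (Fin g → ℤ) → ℂ),
    ∀ x : UnitAddTorus (Fin g), chiW k (dbl x) = ∑ ν ∈ T, c ν * mFourier ν x := by
  classical
  refine ⟨(idx (g + g) k).image fun S => ∑ j, ∑ i ∈ S j, wtv g i, fun ν =>
    (((idx (g + g) k).filter fun S => ∑ j, ∑ i ∈ S j, wtv g i = ν).card : ℂ), fun x => ?_⟩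
  rw [chiW_eq_sum]
  simp only [term_eq]
  refine (Finset.sum_comp (s := idx (g + g) k) (fun ν => (mFourier ν x : ℂ))
    (fun S : Fin r → Finset (Fin (g + g)) => ∑ j, ∑ i ∈ S j, wtv g i)).trans ?_
  exact Finset.sum_congr rfl fun ν _ => by rw [nsmul_eq_mul]

theorem chiW_orb (hinv : StmInv) {r : ℕ} (k : Fin r → ℕ) (hfin : Finite (sympW g)) :
    ∃ (T : Finset (Fin g → ℤ)) (c : (Fin g → ℤ) → ℂ),
    ∀ x : UnitAddTorus (Fin g),
      (Nat.card (sympW g) : ℂ) * chiW k (dbl x) = ∑ ν ∈ T, c ν * orb (sympW g) ν x := by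
  obtain ⟨T, c, h⟩ := chiW_trig (g := g) k
  refine ⟨T, c, fun x => ?_⟩
  rw [h]
  refine hinv (Fin g) (sympW g) hfin T c (fun w hw x => ?_) x
  rw [← h, ← h, chiW_act hw]

theorem continuous_dbl : Continuous (dbl : UnitAddTorus (Fin g) → UnitAddTorus (Fin (g + g))) := by
  refine continuous_pi fun i => ?_
  refine Fin.addCases (fun j => ?_) (fun j => ?_) i
  · simp only [dbl, Fin.append_left]
    exact continuous_apply j
  · simp only [dbl, Fin.append_right]
    exact (continuous_apply j).neg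

/-- words of bounded length -/
def wordFunR (N R : ℕ) : Set (UnitAddTorus (Fin N) → ℂ) :=
  {f | ∃ (r : ℕ) (k : Fin r → ℕ), r ≤ R ∧ (∀ j, k j ≤ N) ∧ f = chiW k}

theorem span_R {N : ℕ} {G : UnitAddTorus (Fin N) → ℂ} (hG : G ∈ Submodule.span ℤ (wordFun N)) :
    ∃ R, ∀ R' ≥ R, G ∈ Submodule.span ℤ (wordFunR N R') := by
  induction hG using Submodule.span_induction with
  | mem f hf =>
    obtain ⟨r, k, hk, rfl⟩ := hf
    exact ⟨r, fun R' hR' => Submodule.subset_span ⟨r, k, hR', hk, rfl⟩⟩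
  | zero => exact ⟨0, fun _ _ => Submodule.zero_mem _⟩
  | add f g _ _ hf hg =>
    obtain ⟨R1, h1⟩ := hf
    obtain ⟨R2, h2⟩ := hg
    exact ⟨max R1 R2, fun R' hR' => Submodule.add_mem _ (h1 _ (le_trans (le_max_left _ _) hR'))
      (h2 _ (le_trans (le_max_right _ _) hR'))⟩
  | smul a f _ hf =>
    obtain ⟨R, h⟩ := hf
    exact ⟨R, fun R' hR' => Submodule.smul_mem _ _ (h R' hR')⟩

end

end Pool.Agent.Y798.FC
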