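import Pool.Agent.Y798.FC.Symp
import Pool.Agent.Y139.ID.Law

/-! The symplectic group: the criterion. -/

set_option autoImplicit false

namespace Pool.Agent.Y798.FC

open MeasureTheory UnitAddTorus Filter Topology NumberField IsDedekindDomain
  Pool.Agent.W540.BE Pool.Agent.TH553.RS Pool.Agent.TH553.ST Pool.Agent.Y798.JL
open Pool.Agent.Y139.ID (Good good_ev integrable_cont integrable_cont_real intL IsHaarOn annih
  measure_ext_fourier mFourier_apply_add exists_haarOn isClosed_annih mem_annih ev es chiW wordFun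
  idx chiW_eq_sum norm_term norm_chiW_le continuous_chiW continuous_es SD im_chiW mFourier_ev
  norm_ev ev_ne ev_neg continuous_span)

section
variable {K : Type} [Field K] [NumberField K] {g : ℕ}

/-- the Euler product of `Λ^{k_1} V ⊗ ⋯ ⊗ Λ^{k_r} V` -/
noncomputable def wordL (θ : HeightOneSpectrum (𝓞 K) → UnitAddTorus (Fin g)) {r : ℕ}
    (k : Fin r → ℕ) : ℂ → ℂ :=
  eulerL (idx (g + g) k) fun v S => ∏ j, ∏ i ∈ S j, ev (dbl (θ v)) i

/-- the multiplicity of the trivial representation in `Λ^{k_1} ⊗ ⋯ ⊗ Λ^{k_r}` -/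
noncomputable def stMult (g : ℕ) {r : ℕ} (k : Fin r → ℕ) : ℂ :=
  (Nat.card (sympW g) : ℂ)⁻¹ *
    ∫ x, chiW k (dbl x) * (dens (sympRoots g) x : ℂ) ∂(vol (Fin g))

variable {θ : HeightOneSpectrum (𝓞 K) → UnitAddTorus (Fin g)}

theorem norm_word {r : ℕ} (k : Fin r → ℕ) (v : HeightOneSpectrum (𝓞 K)) :
    ∀ S ∈ idx (g + g) k, ‖(fun v (S : Fin r → Finset (Fin (g + g))) =>
      ∏ j, ∏ i ∈ S j, ev (dbl (θ v)) i) v S‖ = 1 := fun S _ => norm_term S _

theorem word_mean (him : StmIm) {r : ℕ} {k : Fin r → ℕ} {τ : ℝ}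
    (h : ContAt (wordL θ k) (1 + τ * Complex.I)) :
    ∃ m : ℤ, PoleAt (wordL θ k) (1 + τ * Complex.I) m ∧
      Tendsto (cE fun v => chiW k (dbl (θ v)) * ht τ v) (𝓝[>] 0) (𝓝 (m : ℂ)) := by
  obtain ⟨m, h1, h2⟩ := cont_mean (norm_word k) him h
  refine ⟨m, h1, ?_⟩
  simpa only [chiW_eq_sum] using h2

theorem word_mean_one (him : StmIm) {r : ℕ} {k : Fin r → ℕ} (h : ContAt (wordL θ k) 1) :
    ∃ m : ℤ, PoleAt (wordL θ k) 1 m ∧
      Tendsto (cE fun v => chiW k (dbl (θ v))) (𝓝[>] 0) (𝓝 (m : ℂ)) := by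
  obtain ⟨m, h1, h2⟩ := word_mean (τ := 0) him (by rw [one_add_zero]; exact h)
  rw [one_add_zero] at h1
  simp only [ht_zero, mul_one] at h2
  exact ⟨m, h1, h2⟩

theorem word_pole_one (him : StmIm) {r : ℕ} {k : Fin r → ℕ} {n : ℤ}
    (h : PoleAt (wordL θ k) 1 n) :
    Tendsto (cE fun v => chiW k (dbl (θ v))) (𝓝[>] 0) (𝓝 (n : ℂ)) := by
  have h2 := pole_mean' (norm_word k) him (τ := 0) (by rw [one_add_zero]; exact h)
  simp only [ht_zero, mul_one] at h2
  simpa only [chiW_eq_sum] using h2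

theorem word_nat (him : StmIm) (htaub : StmTaub) {r : ℕ} {k : Fin r → ℕ} {c : ℤ}
    (hc : Tendsto (cE fun v => chiW k (dbl (θ v))) (𝓝[>] 0) (𝓝 (c : ℂ)))
    (h0 : ∀ τ : ℝ, τ ≠ 0 →
      Tendsto (cE fun v => chiW k (dbl (θ v)) * ht τ v) (𝓝[>] 0) (𝓝 0))
    (h : ∀ τ : ℝ, ContAt (wordL θ k) (1 + τ * Complex.I)) :
    Tendsto (mn fun v => chiW k (dbl (θ v))) atTop (𝓝 (c : ℂ)) := by
  simp only [chiW_eq_sum] at hc h0 ⊢
  exact nat_mean (norm_word k) him htaub hc h0 h

theorem cont_bd {N : ℕ} {G : UnitAddTorus (Fin N) → ℂ} (hG : Continuous G) :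
    ∃ B : ℝ, 0 ≤ B ∧ ∀ x, ‖G x‖ ≤ B := by
  obtain ⟨C, hC⟩ := isCompact_univ.exists_bound_of_continuousOn (f := G) hG.continuousOn
  exact ⟨|C|, abs_nonneg _, fun x => (hC x (Set.mem_univ x)).trans (le_abs_self C)⟩

theorem bounded_cont {N : ℕ} {G : UnitAddTorus (Fin N) → ℂ} (hG : Continuous G)
    {z : HeightOneSpectrum (𝓞 K) → ℂ} (hz : ∀ v, ‖z v‖ = 1)
    (x : HeightOneSpectrum (𝓞 K) → UnitAddTorus (Fin N)) :
    ∃ B : ℝ, ∀ v, ‖G (x v) * z v‖ ≤ B := by
  obtain ⟨B, -, hB⟩ := cont_bd hG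
  refine ⟨B, fun v => ?_⟩
  rw [norm_mul, hz, mul_one]
  exact hB _

theorem cE_sum' {ε : ℝ} (h : Good K ε) {κ : Type*} (S : Finset κ)
    {t : κ → HeightOneSpectrum (𝓞 K) → ℂ} (ht : ∀ k ∈ S, ∃ B : ℝ, ∀ v, ‖t k v‖ ≤ B) :
    cE (fun v => ∑ k ∈ S, t k v) ε = ∑ k ∈ S, cE (t k) ε := by
  unfold cE
  rw [← Summable.tsum_finsetSum fun k hk => summ_cE h (ht k hk).choose_spec]
  exact tsum_congr fun v => by rw [Finset.mul_sum]

/-- integer combinations of functions with integral means -/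
theorem span_lim {N : ℕ} {S : Set (UnitAddTorus (Fin N) → ℂ)} (hS : ∀ f ∈ S, Continuous f)
    {z : HeightOneSpectrum (𝓞 K) → ℂ} (hz : ∀ v, ‖z v‖ = 1)
    (x : HeightOneSpectrum (𝓞 K) → UnitAddTorus (Fin N))
    (h : ∀ f ∈ S, ∃ n : ℤ, Tendsto (cE fun v => f (x v) * z v) (𝓝[>] 0) (𝓝 (n : ℂ)))
    {G : UnitAddTorus (Fin N) → ℂ} (hG : G ∈ Submodule.span ℤ S) :
    Continuous G ∧ ∃ n : ℤ, Tendsto (cE fun v => G (x v) * z v) (𝓝[>] 0) (𝓝 (n : ℂ)) := by
  induction hG using Submodule.span_induction with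
  | mem f hf => exact ⟨hS f hf, h f hf⟩
  | zero =>
    refine ⟨continuous_const, 0, ?_⟩
    rw [Int.cast_zero]
    refine tendsto_const_nhds.congr fun ε => ?_
    simp [cE]
  | add f g _ _ hf hg =>
    obtain ⟨hfc, n, hn⟩ := hf
    obtain ⟨hgc, m, hm⟩ := hg
    refine ⟨hfc.add hgc, n + m, ?_⟩
    obtain ⟨B, hB⟩ := bounded_cont hfc hz x
    obtain ⟨C, hC⟩ := bounded_cont hgc hz x
    push_cast
    refine (hn.add hm).congr' ?_
    filter_upwards [good_ev (K := K)] with ε hε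
    rw [← cE_add hε hB hC]
    congr 1
    funext v
    rw [Pi.add_apply]
    ring
  | smul a f _ hf =>
    obtain ⟨hfc, n, hn⟩ := hf
    refine ⟨hfc.const_smul a, a * n, ?_⟩
    push_cast
    refine (hn.const_mul (a : ℂ)).congr fun ε => ?_
    rw [← cE_const_mul]
    congr 1
    funext v
    rw [Pi.smul_apply, zsmul_eq_mul]
    ring

/-- the same in natural density -/
theorem span_nat {N : ℕ} {S : Set (UnitAddTorus (Fin N) → ℂ)}
    (x : HeightOneSpectrum (𝓞 K) → UnitAddTorus (Fin N)) (hS : ∀ f ∈ S, Continuous f)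
    (h : ∀ f ∈ S, ∃ z : ℂ, Tendsto (cE fun v => f (x v)) (𝓝[>] 0) (𝓝 z) ∧
      Tendsto (mn fun v => f (x v)) atTop (𝓝 z))
    {G : UnitAddTorus (Fin N) → ℂ} (hG : G ∈ Submodule.span ℤ S) :
    Continuous G ∧ ∃ z : ℂ, Tendsto (cE fun v => G (x v)) (𝓝[>] 0) (𝓝 z) ∧
      Tendsto (mn fun v => G (x v)) atTop (𝓝 z) := by
  induction hG using Submodule.span_induction with
  | mem f hf => exact ⟨hS f hf, h f hf⟩
  | zero =>
    refine ⟨continuous_const, 0, ?_, ?_⟩
    · refine tendsto_const_nhds.congr fun ε => ?_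
      simp [cE]
    · refine tendsto_const_nhds.congr fun n => ?_
      simp [mn]
  | add f g _ _ hf hg =>
    obtain ⟨hfc, z, h1, h2⟩ := hf
    obtain ⟨hgc, y, h3, h4⟩ := hg
    refine ⟨hfc.add hgc, z + y, ?_, ?_⟩
    · obtain ⟨B, -, hB⟩ := cont_bd hfc
      obtain ⟨C, -, hC⟩ := cont_bd hgc
      refine (h1.add h3).congr' ?_
      filter_upwards [good_ev (K := K)] with ε hε
      rw [← cE_add hε (fun v => hB (x v)) (fun v => hC (x v))]
      rfl
    · refine (h2.add h4).congr fun n => ?_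
      rw [← mn_add]
      rfl
  | smul a f _ hf =>
    obtain ⟨hfc, z, h1, h2⟩ := hf
    refine ⟨hfc.const_smul a, a * z, ?_, ?_⟩
    · refine (h1.const_mul (a : ℂ)).congr fun ε => ?_
      rw [← cE_const_mul]
      congr 1
      funext v
      rw [Pi.smul_apply, zsmul_eq_mul]
    · refine (h2.const_mul (a : ℂ)).congr fun n => ?_
      rw [← mn_const_mul]
      congr 1
      funext v
      rw [Pi.smul_apply, zsmul_eq_mul]

/-- the mean for the Sato-Tate law of a combination of words -/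
theorem span_st {S : Set (UnitAddTorus (Fin (g + g)) → ℂ)} (hS : ∀ f ∈ S, Continuous f)
    (h : ∀ f ∈ S, Tendsto (cE fun v => f (dbl (θ v))) (𝓝[>] 0)
      (𝓝 ((Nat.card (sympW g) : ℂ)⁻¹ *
        ∫ x, f (dbl x) * (dens (sympRoots g) x : ℂ) ∂(vol (Fin g)))))
    {G : UnitAddTorus (Fin (g + g)) → ℂ} (hG : G ∈ Submodule.span ℤ S) :
    Continuous G ∧ Tendsto (cE fun v => G (dbl (θ v))) (𝓝[>] 0)
      (𝓝 ((Nat.card (sympW g) : ℂ)⁻¹ *
        ∫ x, G (dbl x) * (dens (sympRoots g) x : ℂ) ∂(vol (Fin g)))) := by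
  have hd := continuous_dens (sympRoots g)
  induction hG using Submodule.span_induction with
  | mem f hf => exact ⟨hS f hf, h f hf⟩
  | zero =>
    refine ⟨continuous_const, ?_⟩
    simp only [Pi.zero_apply, zero_mul, integral_zero, mul_zero]
    refine tendsto_const_nhds.congr fun ε => ?_
    simp [cE]
  | add f g' _ _ hf hg =>
    obtain ⟨hfc, h1⟩ := hf
    obtain ⟨hgc, h2⟩ := hg
    refine ⟨hfc.add hgc, ?_⟩
    obtain ⟨B, -, hB⟩ := cont_bd hfc
    obtain ⟨C, -, hC⟩ := cont_bd hgc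
    have e : ∫ x, (f + g') (dbl x) * (dens (sympRoots g) x : ℂ) ∂(vol (Fin g)) =
        ∫ x, f (dbl x) * (dens (sympRoots g) x : ℂ) ∂(vol (Fin g)) +
        ∫ x, g' (dbl x) * (dens (sympRoots g) x : ℂ) ∂(vol (Fin g)) := by
      have i1 : Continuous fun x : UnitAddTorus (Fin g) => f (dbl x) := hfc.comp continuous_dbl
      have i2 : Continuous fun x : UnitAddTorus (Fin g) => g' (dbl x) := hgc.comp continuous_dbl
      have j1 : Continuous fun x : UnitAddTorus (Fin g) => f (dbl x) * (dens (sympRoots g) x : ℂ) :=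
        i1.mul (Complex.continuous_ofReal.comp hd)
      have j2 : Continuous fun x : UnitAddTorus (Fin g) => g' (dbl x) * (dens (sympRoots g) x : ℂ) :=
        i2.mul (Complex.continuous_ofReal.comp hd)
      rw [← integral_add (integrable_cont _ j1) (integrable_cont _ j2)]
      refine integral_congr_ae (Eventually.of_forall fun x => ?_)
      simp only [Pi.add_apply]
      ring
    rw [e, mul_add]
    refine (h1.add h2).congr' ?_
    filter_upwards [good_ev (K := K)] with ε hε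
    rw [← cE_add hε (fun v => hB _) (fun v => hC _)]
    rfl
  | smul a f _ hf =>
    obtain ⟨hfc, h1⟩ := hf
    refine ⟨hfc.const_smul a, ?_⟩
    have e : ∫ x, (a • f) (dbl x) * (dens (sympRoots g) x : ℂ) ∂(vol (Fin g)) =
        (a : ℂ) * ∫ x, f (dbl x) * (dens (sympRoots g) x : ℂ) ∂(vol (Fin g)) := by
      rw [← integral_const_mul]
      refine integral_congr_ae (Eventually.of_forall fun x => ?_)
      simp only [Pi.smul_apply, zsmul_eq_mul]
      ring
    rw [e, ← mul_assoc, mul_comm ((Nat.card (sympW g) : ℂ)⁻¹) (a : ℂ), mul_assoc]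
    refine (h1.const_mul (a : ℂ)).congr fun ε => ?_
    rw [← cE_const_mul]
    congr 1
    funext v
    rw [Pi.smul_apply, zsmul_eq_mul]

end

theorem noInv_symp (g : ℕ) : NoInv (sympW g) := by
  intro μ h
  have hw : (LinearEquiv.neg ℤ : Auts (Fin g)) ∈ sympW g :=
    ⟨1, fun _ => -1, fun x j => by simp⟩
  have h1 := h _ hw
  funext j
  have h2 := congrFun h1 j
  simp only [LinearEquiv.neg_apply, Pi.neg_apply, Pi.zero_apply] at h2 ⊢
  omega

/-- **The criterion for the symplectic group.** -/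
theorem symp (hdiv : StmDiv) (hstr : StmStr) (him : StmIm) (htaub : StmTaub) (hinv : StmInv)
    (hC : StmC) (hirr : StmIrr) (hwords : StmWords) (g : ℕ) :
    ∃ R : ℕ, ∀ (K : Type) [Field K] [NumberField K]
      (θ : HeightOneSpectrum (𝓞 K) → UnitAddTorus (Fin g)),
      (∀ (r : ℕ) (k : Fin r → ℕ), (∀ j, k j ≤ g + g) → ContAt (wordL θ k) 1) →
      (∀ (r : ℕ) (k : Fin r → ℕ), r ≤ R → (∀ j, k j ≤ g + g) →
        ∃ m : ℤ, (m : ℂ) = stMult g k ∧ PoleAt (wordL θ k) 1 m) →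
      ∃ (Γ : AddSubgroup (Fin g → ℤ)) (a : UnitAddTorus (Fin g)),
        (Γ = ⊥ ∨ ∃ N : ℕ, 0 < N ∧ ∀ μ : Fin g → ℤ, N • μ ∈ Γ) ∧
        (∀ γ ∈ Γ, mFourier γ a = 1 ∨ mFourier γ a = -1) ∧
        (∀ w ∈ sympW g, ∀ γ ∈ Γ, w γ ∈ Γ ∧ mFourier (w γ) a = mFourier γ a) ∧
        ∀ σ : Measure (UnitAddTorus (Fin g)), IsHaarOn (annih Γ) σ →
          ∀ f : UnitAddTorus (Fin g) → ℝ, Continuous f →
            (∀ w ∈ sympW g, ∀ x, f (act w x) = f x) →
            Tendsto (Pool.Agent.Y139.ID.avg fun v => f (θ v)) (𝓝[>] 0)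
              (𝓝 (cosetMean (sympW g) (sympRoots g) σ a f)) ∧
            ((∀ (r : ℕ) (k : Fin r → ℕ), (∀ j, k j ≤ g + g) →
                ∀ τ : ℝ, ContAt (wordL θ k) (1 + τ * Complex.I)) →
              Tendsto (mn fun v => f (θ v)) atTop
                (𝓝 (cosetMean (sympW g) (sympRoots g) σ a f))) := by
  classical
  have hΦ := hC g
  obtain ⟨F, hF⟩ := dir_law hdiv hstr hΦ
  choose G hG hGorb using hwords g
  choose R0 hR0 using fun μ => span_R (hG μ)
  refine ⟨F.sup R0, fun K _ _ θ hcont hFm => ?_⟩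
  have hWfin := hΦ.fin
  let _ : Fintype (sympW g) := Fintype.ofFinite (sympW g)
  have hwc : ∀ f ∈ wordFun (g + g), Continuous f := by
    rintro f ⟨r, k, -, rfl⟩
    exact continuous_chiW k
  have hint : ∀ μ : Fin g → ℤ, ∃ n : ℤ,
      Tendsto (cE fun v => orb (sympW g) μ (θ v)) (𝓝[>] 0) (𝓝 (n : ℂ)) := by
    intro μ
    obtain ⟨-, n, hn⟩ := span_lim hwc (z := fun _ => 1) (fun _ => by simp) (fun v => dbl (θ v))
      (by
        rintro f ⟨r, k, hk, rfl⟩
        obtain ⟨m, -, hm⟩ := word_mean_one him (hcont r k hk)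
        exact ⟨m, by simpa only [mul_one] using hm⟩) (hG μ)
    refine ⟨n, ?_⟩
    simpa only [mul_one, ← hGorb] using hn
  choose c hc using hint
  have hFc : ∀ μ ∈ F, (c μ : ℂ) = dC (sympRoots g) μ := by
    intro μ hμ
    have hRμ : G μ ∈ Submodule.span ℤ (wordFunR (g + g) (F.sup R0)) :=
      hR0 μ _ (Finset.le_sup hμ)
    obtain ⟨-, h1⟩ := span_st (θ := θ) (by
      rintro f ⟨r, k, -, -, rfl⟩
      exact continuous_chiW k) (by
      rintro f ⟨r, k, hr, hk, rfl⟩
      obtain ⟨m, h2, h3⟩ := hFm r k hr hk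
      have h4 := word_pole_one him h3
      rw [h2] at h4
      exact h4) hRμ
    simp only [← hGorb] at h1
    rw [orb_mean hΦ, inv_mul_cancel_left₀ (by
      have : Nat.card (sympW g) ≠ 0 := Nat.card_pos.ne'
      exact_mod_cast this)] at h1
    exact tendsto_nhds_unique (hc μ) h1
  obtain ⟨ρ, Γ, a, hfin, hco, hlaw, hdir, htau⟩ := hF K θ c hc hFc
  have hinvW : ∀ w ∈ sympW g, ∀ μ : Fin g → ℤ,
      ∫ x, mFourier (w μ) x ∂ρ = ∫ x, mFourier μ x ∂ρ := by
    intro w hw μ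
    rw [hco, hco]
    have h1 : (fun v => orb (sympW g) (w μ) (θ v)) = fun v => orb (sympW g) μ (θ v) := by
      funext v
      rw [orb_eq, orb_eq]
      refine Fintype.sum_equiv (Equiv.mulRight (⟨w, hw⟩ : sympW g)) _ _ fun w' => rfl
    have h2 := hc (w μ)
    rw [h1] at h2
    exact tendsto_nhds_unique h2 (hc μ)
  have hcard0 : (Nat.card (sympW g) : ℂ) ≠ 0 := by
    have : Nat.card (sympW g) ≠ 0 := Nat.card_pos.ne'
    exact_mod_cast this
  have hmass : (ρ.real Set.univ : ℂ) = Nat.card (sympW g) := by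
    rw [← mass_eq, hco]
    have h1 : Tendsto (cE fun v => orb (sympW g) 0 (θ v)) (𝓝[>] 0)
        (𝓝 (Nat.card (sympW g) : ℂ)) := by
      refine tendsto_const_nhds.congr' ?_
      filter_upwards [good_ev (K := K)] with ε hε
      have h2 : (fun v => orb (sympW g) 0 (θ v)) = fun _ => (Nat.card (sympW g) : ℂ) * 1 := by
        funext v
        rw [orb_eq]
        simp [mFourier_zero, Nat.card_eq_fintype_card]
      rw [h2, cE_const_mul, cE_one hε, mul_one]
    exact tendsto_nhds_unique (hc 0) h1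
  have hst := coset_stable hlaw hinvW
  refine ⟨Γ, a, ?_, hlaw.2.1, fun w hw γ hγ => ⟨hst w hw γ hγ, ?_⟩, fun σ hσ f hf hfW => ?_⟩
  · by_cases hΓ : Γ = ⊥
    · exact Or.inl hΓ
    · exact Or.inr (hirr g Γ hst hΓ)
  · have h1 := coset_value hlaw (hst w hw γ hγ)
    rw [hinvW w hw, coset_value hlaw hγ, hmass] at h1
    exact (mul_right_cancel₀ hcard0 h1).symm
  · have hfC : Continuous fun x => (f x : ℂ) := Complex.continuous_ofReal.comp hf
    have hfCW : ∀ w ∈ sympW g, ∀ x, ((f (act w x) : ℝ) : ℂ) = ((f x : ℝ) : ℂ) := fun w hw x => by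
      rw [hfW w hw]
    constructor
    · have h1 := hdir (fun x => (f x : ℂ)) hfC hfCW
      rw [cosetMean_eq hlaw hσ hf] at h1
      have h2 := (Complex.continuous_re.tendsto _).comp h1
      rw [Complex.ofReal_re] at h2
      obtain ⟨C, hC'⟩ := isCompact_univ.exists_bound_of_continuousOn (f := f) hf.continuousOn
      refine h2.congr' ?_
      filter_upwards [good_ev (K := K)] with ε hε
      simp only [Function.comp]
      rw [cE_re hε (B := C) (fun v => by
        rw [Complex.norm_real]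
        exact hC' _ (Set.mem_univ _))]
      simp only [Complex.ofReal_re]
    · intro hline
      have h0 : ∀ (τ : ℝ), τ ≠ 0 → ∀ μ : Fin g → ℤ,
          Tendsto (cE fun v => orb (sympW g) μ (θ v) * ht τ v) (𝓝[>] 0) (𝓝 0) := by
        intro τ hτ
        refine htau (noInv_symp g) τ hτ fun μ => ?_
        obtain ⟨-, n, hn⟩ := span_lim hwc (z := ht τ) (norm_ht τ) (fun v => dbl (θ v))
          (by
            rintro f ⟨r, k, hk, rfl⟩
            obtain ⟨m, -, hm⟩ := word_mean him (hline r k hk τ)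
            exact ⟨m, hm⟩) (hG μ)
        refine ⟨n, ?_⟩
        simpa only [← hGorb] using hn
      have hw0 : ∀ (τ : ℝ), τ ≠ 0 → ∀ (r : ℕ) (k : Fin r → ℕ),
          Tendsto (cE fun v => chiW k (dbl (θ v)) * ht τ v) (𝓝[>] 0) (𝓝 0) := by
        intro τ hτ r k
        obtain ⟨T, d, hd⟩ := chiW_orb hinv k hWfin
        have h1 : Tendsto (fun ε => (Nat.card (sympW g) : ℂ)⁻¹ *
            ∑ ν ∈ T, d ν * cE (fun v => orb (sympW g) ν (θ v) * ht τ v) ε) (𝓝[>] 0)
            (𝓝 ((Nat.card (sympW g) : ℂ)⁻¹ * ∑ ν ∈ T, d ν * 0)) :=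
          (tendsto_finsetSum _ fun ν _ => (h0 τ hτ ν).const_mul (d ν)).const_mul _
        simp only [mul_zero, Finset.sum_const_zero] at h1
        refine h1.congr' ?_
        filter_upwards [good_ev (K := K)] with ε hε
        simp only [← cE_const_mul]
        rw [← cE_sum' hε T fun ν _ => ⟨‖d ν‖ * Nat.card (sympW g), fun v => by
          rw [norm_mul, norm_mul, norm_ht, mul_one]
          exact mul_le_mul_of_nonneg_left (norm_orb_le hWfin ν _) (norm_nonneg _)⟩,
          ← cE_const_mul]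
        congr 1
        funext v
        have h2 := hd (θ v)
        have h3 : ∑ ν ∈ T, d ν * (orb (sympW g) ν (θ v) * ht τ v) =
            (∑ ν ∈ T, d ν * orb (sympW g) ν (θ v)) * ht τ v := by
          rw [Finset.sum_mul]
          exact Finset.sum_congr rfl fun ν _ => by ring
        rw [h3, ← h2, mul_assoc, inv_mul_cancel_left₀ hcard0]
      have hwn : ∀ f ∈ wordFun (g + g), ∃ z : ℂ,
          Tendsto (cE fun v => f (dbl (θ v))) (𝓝[>] 0) (𝓝 z) ∧
          Tendsto (mn fun v => f (dbl (θ v))) atTop (𝓝 z) := by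
        rintro f ⟨r, k, hk, rfl⟩
        obtain ⟨m, -, hm⟩ := word_mean_one him (hcont r k hk)
        exact ⟨m, hm, word_nat him htaub hm (fun τ hτ => hw0 τ hτ r k) (hline r k hk)⟩
      have hmn : ∀ μ, Tendsto (mn fun v => orb (sympW g) μ (θ v)) atTop (𝓝 (c μ : ℂ)) := by
        intro μ
        obtain ⟨-, z, h1, h2⟩ := span_nat (fun v => dbl (θ v)) hwc hwn (hG μ)
        simp only [← hGorb] at h1 h2
        rw [tendsto_nhds_unique (hc μ) h1]
        exact h2
      have h1 := nat_law hWfin hmn hco hfC hfCW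
      rw [cosetMean_eq hlaw hσ hf] at h1
      have h2 := (Complex.continuous_re.tendsto _).comp h1
      rw [Complex.ofReal_re] at h2
      refine h2.congr fun n => ?_
      simp only [Function.comp]
      rw [re_mn]
      simp only [Complex.ofReal_re]

end Pool.Agent.Y798.FC
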