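import Pool.Agent.Y798.FC.Stm

/-! The Haar measure of the torus and trigonometric polynomials. -/

set_option autoImplicit false

namespace Pool.Agent.Y798.FC

open MeasureTheory UnitAddTorus Pool.Agent.Y139.ID Filter Topology

noncomputable local instance : MeasureSpace UnitAddCircle := ⟨AddCircle.haarAddCircle⟩

local instance : IsProbabilityMeasure (volume : Measure UnitAddCircle) :=
  inferInstanceAs (IsProbabilityMeasure AddCircle.haarAddCircle)

local instance : Measure.IsAddHaarMeasure (volume : Measure UnitAddCircle) :=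
  inferInstanceAs (Measure.IsAddHaarMeasure AddCircle.haarAddCircle)

variable {J : Type} [Fintype J]

theorem vol_eq : vol J = (volume : Measure (UnitAddTorus J)) := rfl

instance : IsProbabilityMeasure (vol J) := by
  rw [vol_eq]
  infer_instance

instance : (vol J).IsOpenPosMeasure := by
  rw [vol_eq]
  infer_instance

theorem int_mFourier (n : J → ℤ) : ∫ x, mFourier n x ∂(vol J) = if n = 0 then 1 else 0 := by
  classical
  have h := (orthonormal_iff_ite.1 (orthonormal_mFourier (d := J))) 0 n
  rw [ContinuousMap.inner_toLp] at h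
  rw [vol_eq]
  simp only [mFourier_zero, ContinuousMap.one_apply, map_one, mul_one] at h
  rw [h]
  by_cases h0 : n = 0
  · simp [h0]
  · rw [if_neg (fun h => h0 h.symm), if_neg h0]

theorem int_trig (c : (J → ℤ) →₀ ℤ) (n : J → ℤ) :
    ∫ x, mFourier n x * trig c x ∂(vol J) = (c (-n) : ℂ) := by
  classical
  have h1 : ∀ x, mFourier n x * trig c x =
      ∑ m ∈ c.support, (c m : ℂ) * mFourier (n + m) x := by
    intro x
    unfold trig Finsupp.sum
    rw [Finset.mul_sum]
    refine Finset.sum_congr rfl fun m _ => ?_
    rw [mFourier_add]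
    ring
  simp only [h1]
  rw [integral_finsetSum _ fun m _ => (integrable_cont _ (by fun_prop))]
  have h2 : ∀ m ∈ c.support, ∫ x, (c m : ℂ) * mFourier (n + m) x ∂(vol J) =
      if m = -n then (c m : ℂ) else 0 := by
    intro m _
    rw [integral_const_mul, int_mFourier]
    by_cases h : m = -n
    · rw [if_pos h, if_pos (by rw [h]; simp), mul_one]
    · rw [if_neg h, if_neg (fun h' => h (by rw [eq_neg_iff_add_eq_zero, add_comm]; exact h')), mul_zero]
  rw [Finset.sum_congr rfl h2]
  rw [Finset.sum_ite_eq' c.support (-n) (fun m => (c m : ℂ))]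
  split_ifs with h
  · rfl
  · rw [Finsupp.notMem_support_iff.1 h]
    simp

end Pool.Agent.Y798.FC
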